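import Mathlib
import Pool.Agent.H280R3.W.Good
import Pool.Agent.H280R3.W.Extra

/-! The parameters, with `0 ≤ ν`. The proofs are those of `Pool.Agent.H280R3.W` (helper402). -/

set_option autoImplicit false

open Set MeasureTheory Filter Topology Finset
open scoped RealInnerProductSpace ContDiff

namespace Pool.Agent.H280R3.E6

open Pool.Agent.H280R3.W

/-- the shell system attached to a solution -/
theorem shell_of_sol0 {φ ρ ψ : V → V} {x₁ : V} {ν T lam : ℝ} {u0 : V → V} {u : ℝ → V → V}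
    (P : Prof φ ρ ψ x₁) (S : Scl (MM lam) (EE lam)) (hν : 0 ≤ ν) (hT0 : 0 ≤ T) (hT1 : T ≤ 1)
    (h : GSol ν (Fam φ ψ ρ (MM lam) (EE lam)) u0 T u)
    {E B Dd Pl Cc R c : ℝ} (hE : ∀ n, En φ ψ ρ (MM lam) (EE lam) (u 0) n ≤ E)
    (hE0 : 0 ≤ E) (hPl : 0 < Pl)
    (hPl' : Pl ≤ ip (PP ψ ρ (MM lam) (EE lam)) (PP ψ ρ (MM lam) (EE lam)))
    (hB : ∀ x, ‖fderiv ℝ (PP ψ ρ (MM lam) (EE lam)) x‖ ≤ B)
    (hDd : |dir (PP ψ ρ (MM lam) (EE lam)) (PP ψ ρ (MM lam) (EE lam))| ≤ Dd)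
    (hCc0 : 0 ≤ Cc) (hCc : E ≤ Cc ^ 2 * Pl) (hR1 : 1 ≤ R) (hR : E ≤ ip φ φ * R ^ 2)
    (hc0 : cf ψ ρ (MM lam) (EE lam) (u 0) = c) (hc : c ≠ 0)
    (hT : (B * E + ν * (Cc * Dd)) / Pl * T ≤ |c| / 2) :
    Shell (gg (-hf φ φ / ip φ φ) lam) (muu (ν * dir φ φ / ip φ φ) lam)
      (ss (c ^ 2 * -hf ρ ρ / (4 * ip φ φ)) lam) (ss (9 * c ^ 2 * -hf ρ ρ / (4 * ip φ φ)) lam)
      (kk (9 * c ^ 2 * -hf ρ ρ / (4 * -hf φ φ)) lam) R T
      (fun n t => af φ (MM lam) (u t) n)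
      (fun n t => tt φ ψ ρ (MM lam) (EE lam) (u t) (n + 1) / (-hf φ φ))
      (fun n t => MM lam n ^ 5 * (cf ψ ρ (MM lam) (EE lam) (u t) ^ 2 * EE lam n * (-hf ρ ρ))
        / ip φ φ)
      (fun n t => (-hf ρ ρ) / (-hf φ φ) * (cf ψ ρ (MM lam) (EE lam) (u t) ^ 2 * EE lam n)) := by
  have hF := φ_pos P
  have hq : 0 < -hf φ φ := by linarith [P.q_pos]
  have hβ : 0 < -hf ρ ρ := by linarith [P.β_pos]
  have hA : 0 ≤ dir φ φ := by
    unfold dir
    exact integral_nonneg fun x => sum_nonneg fun i _ => real_inner_self_nonneg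
  have hM5 : ∀ n, MM lam n ^ 5 = Real.exp (5 / 2 * LL lam n) := by
    intro n; rw [MM_pow]; congr 1; push_cast; ring
  have hM4 : ∀ n, MM lam n ^ 4 = Real.exp (2 * LL lam n) := by
    intro n; rw [MM_pow]; congr 1; push_cast; ring
  obtain ⟨C, cm, hC0, hC, hcm⟩ := cf_bdd P S h
  have hPpos := PP_ip_pos P S
  have hbd := fun t (ht : t ∈ Icc 0 T) => energy_bounds P S hν hT0 hT1 h hE ht
  have hB0 : 0 ≤ B := (norm_nonneg _).trans (hB 0)
  -- control of the pump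
  have hcabs : ∀ t ∈ Icc 0 T, |cf ψ ρ (MM lam) (EE lam) (u t)| ≤ Cc := by
    intro t ht
    have h1 := (hbd t ht).1
    refine abs_le_of_sq_le_sq' ?_ hCc0 |> fun h => abs_le.mpr h
    have h2 : cf ψ ρ (MM lam) (EE lam) (u t) ^ 2 * Pl ≤ Cc ^ 2 * Pl := by
      refine le_trans ?_ (h1.trans hCc)
      exact mul_le_mul_of_nonneg_left hPl' (sq_nonneg _)
    exact le_of_mul_le_mul_right h2 hPl
  have hcd : ∀ t ∈ Icc 0 T, |(tri (u t) (PP ψ ρ (MM lam) (EE lam)) (u t)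
      - ν * dir (u t) (PP ψ ρ (MM lam) (EE lam)))
        / ip (PP ψ ρ (MM lam) (EE lam)) (PP ψ ρ (MM lam) (EE lam))|
        ≤ (B * E + ν * (Cc * Dd)) / Pl := by
    intro t ht
    have h1 := tri_pump_le (PP_TF P S) (h.mem t ht).1 hB
    obtain ⟨Cv, -, hCv⟩ := (h.mem t ht).1.bound
    have h2 : |dir (u t) (PP ψ ρ (MM lam) (EE lam))| ≤ Cc * Dd := by
      rw [dir_pump P S (h.mem t ht) (fun x => (hCv x).2) hB, abs_mul]
      exact mul_le_mul (hcabs t ht) hDd (abs_nonneg _) hCc0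
    have h3 : B * ip (u t) (u t) ≤ B * E := mul_le_mul_of_nonneg_left (hbd t ht).2.2 hB0
    have h4 : |tri (u t) (PP ψ ρ (MM lam) (EE lam)) (u t)
      - ν * dir (u t) (PP ψ ρ (MM lam) (EE lam))| ≤ B * E + ν * (Cc * Dd) := by
      refine (abs_sub _ _).trans (add_le_add (h1.trans h3) ?_)
      rw [abs_mul, abs_of_nonneg hν]
      exact mul_le_mul_of_nonneg_left h2 hν
    rw [abs_div, abs_of_pos hPpos]
    exact div_le_div₀ (le_trans (abs_nonneg _) h4) h4 hPl hPl'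
  have hc2 : 0 < c ^ 2 := by positivity
  have hcf : ∀ t ∈ Icc 0 T, |cf ψ ρ (MM lam) (EE lam) (u t) - c| ≤ |c| / 2 := by
    intro t ht
    have h0 : (0 : ℝ) ∈ Icc 0 T := ⟨le_rfl, hT0⟩
    have k1 := le_of_deriv_le (s := 0) (t := t) (fun t ht => c_deriv h ht)
      (fun t _ => hasDerivWithinAt_linear ((B * E + ν * (Cc * Dd)) / Pl) 0 (Icc 0 T) t)
      (fun t ht => (abs_le.mp (hcd t ht)).2) h0 ht ht.1
    have k2 := le_of_deriv_le (s := 0) (t := t) 
      (fun t _ => hasDerivWithinAt_linear (-((B * E + ν * (Cc * Dd)) / Pl)) 0 (Icc 0 T) t)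
      (fun t ht => c_deriv h ht)
      (fun t ht => (abs_le.mp (hcd t ht)).1) h0 ht ht.1
    have k3 : (B * E + ν * (Cc * Dd)) / Pl * t ≤ |c| / 2 := by
      refine le_trans ?_ hT
      refine mul_le_mul_of_nonneg_left ht.2 ?_
      exact (abs_nonneg _).trans (hcd t ht)
    rw [hc0] at k1 k2
    rw [abs_le]
    constructor <;> linarith
  have hclo : ∀ t ∈ Icc 0 T, c ^ 2 / 4 ≤ cf ψ ρ (MM lam) (EE lam) (u t) ^ 2 := by
    intro t ht
    have h1 := hcf t ht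
    have h2 := abs_sub_abs_le_abs_sub c (cf ψ ρ (MM lam) (EE lam) (u t))
    rw [abs_sub_comm] at h2
    have h3 : |c| / 2 ≤ |cf ψ ρ (MM lam) (EE lam) (u t)| := by linarith
    have h4 := pow_le_pow_left₀ (by positivity) h3 2
    rw [div_pow, sq_abs, sq_abs] at h4
    linarith
  have hchi : ∀ t ∈ Icc 0 T, cf ψ ρ (MM lam) (EE lam) (u t) ^ 2 ≤ 9 / 4 * c ^ 2 := by
    intro t ht
    have h1 := hcf t ht
    have h2 := abs_sub_abs_le_abs_sub (cf ψ ρ (MM lam) (EE lam) (u t)) c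
    have h3 : |cf ψ ρ (MM lam) (EE lam) (u t)| ≤ 3 / 2 * |c| := by linarith
    have h4 := pow_le_pow_left₀ (abs_nonneg _) h3 2
    rw [mul_pow, sq_abs, sq_abs] at h4
    linarith
  have hW : ∀ n t, W (gg (-hf φ φ / ip φ φ) lam) (fun n t => af φ (MM lam) (u t) n) n t
      = (-hf φ φ / ip φ φ) * Wf φ (MM lam) (u t) n := by
    intro n t
    unfold W Wf gg
    rw [mul_sum]
    refine sum_congr rfl fun m _ => ?_
    rw [hM5]; ring
  constructor
  · exact hT0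
  · exact hT1
  · exact hR1
  · exact fun n => gg_pos (by positivity) lam n
  · intro n; unfold muu; positivity
  · intro n t ht
    refine HasDerivWithinAt.congr_deriv (a_deriv h n ht) ?_
    rw [hW, flux_eq P S (h.mem t ht), dir_eq P S (h.mem t ht)]
    unfold gg muu
    rw [← hM5, ← hM4]
    generalize -hf φ φ = q at hq ⊢
    generalize -hf ρ ρ = β
    field_simp
    ring
  · intro n t ht
    rw [tt_rec P S (h.mem t ht) (n + 1)]
    generalize -hf φ φ = q at hq ⊢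
    generalize -hf ρ ρ = β
    field_simp
  · intro n t ht
    exact div_nonneg (tt_nonneg P S (h.mem t ht) _) hq.le
  · intro η hη
    have h1 : Tendsto (fun n => ‖HH‖ * (C + C * ‖HH‖) ^ 2 * vr (rad (MM lam) n)) atTop (𝓝 0) := by
      simpa using (vr_rad_tendsto S).const_mul (‖HH‖ * (C + C * ‖HH‖) ^ 2)
    have h2 : 0 < η * (-hf φ φ) := by positivity
    obtain ⟨n0, hn0⟩ := eventually_atTop.mp (h1.eventually (gt_mem_nhds h2))
    refine ⟨n0, fun n hn t ht => ?_⟩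
    rw [div_le_iff₀ hq]
    exact (le_abs_self _).trans ((tt_vel P S (h.mem t ht) (hC t ht) (n + 1)).trans
      (hn0 (n + 1) (by omega)).le)
  · intro η hη
    set K1 := ‖HH‖ * (C + C * ‖HH‖) ^ 2 with hK1
    have hK10 : 0 ≤ K1 := by positivity
    have h1 : Tendsto (fun n => K1 * C / ip φ φ * vq (MM lam) n) atTop (𝓝 0) := by
      simpa using (vq_tendsto S).const_mul (K1 * C / ip φ φ)
    obtain ⟨n0, hn0⟩ := eventually_atTop.mp (h1.eventually (gt_mem_nhds hη))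
    refine ⟨n0, fun n hn t ht => ?_⟩
    have hr := S.rad_pos (n + 1)
    have h2 := (le_abs_self _).trans (tt_vel P S (h.mem t ht) (hC t ht) (n + 1))
    have h3 := W_vel P S (h.mem t ht) (hC t ht) (n + 1)
    have h4 := tt_nonneg P S (h.mem t ht) (n + 1)
    rw [hW, abs_mul, abs_of_pos (by positivity)]
    refine le_trans ?_ (hn0 (n + 1) (by omega)).le
    have h5 : |Wf φ (MM lam) (u t) (n + 1)| ≤ C / rad (MM lam) (n + 1) := by
      rw [le_div_iff₀ hr]; exact h3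
    generalize -hf φ φ = q at hq ⊢
    calc tt φ ψ ρ (MM lam) (EE lam) (u t) (n + 1) / q
          * (q / ip φ φ * |Wf φ (MM lam) (u t) (n + 1)|)
        = tt φ ψ ρ (MM lam) (EE lam) (u t) (n + 1) * |Wf φ (MM lam) (u t) (n + 1)| / ip φ φ := by
          field_simp
      _ ≤ (K1 * vr (rad (MM lam) (n + 1))) * (C / rad (MM lam) (n + 1)) / ip φ φ := by
          refine div_le_div_of_nonneg_right ?_ hF.le
          exact mul_le_mul h2 h5 (abs_nonneg _) (by have := vr_nonneg (rad (MM lam) (n + 1)); positivity)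
      _ = _ := by unfold vq; field_simp
  · intro n t ht
    have h1 := (hbd t ht).2.1 n
    have h2 : af φ (MM lam) (u t) n ^ 2 ≤ R ^ 2 := le_of_mul_le_mul_left (h1.trans hR) hF
    exact abs_le.mpr (abs_le_of_sq_le_sq' h2 (by linarith))
  · intro n
    have := EE_pos lam n
    unfold ss; positivity
  · intro n t ht
    have h1 := EE_pos lam n
    have h2 := hclo t ht
    unfold ss
    rw [← hM5]
    have h3 : (0:ℝ) < MM lam n ^ 5 := by have := MM_pos lam n; positivity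
    have h4 : c ^ 2 / 4 * (MM lam n ^ 5 * EE lam n * -hf ρ ρ / ip φ φ)
      ≤ cf ψ ρ (MM lam) (EE lam) (u t) ^ 2 * (MM lam n ^ 5 * EE lam n * -hf ρ ρ / ip φ φ) :=
      mul_le_mul_of_nonneg_right h2 (by positivity)
    calc c ^ 2 * -hf ρ ρ / (4 * ip φ φ) * MM lam n ^ 5 * EE lam n
        = c ^ 2 / 4 * (MM lam n ^ 5 * EE lam n * -hf ρ ρ / ip φ φ) := by field_simp
      _ ≤ _ := h4
      _ = _ := by ring
  · intro n t ht
    have h1 := EE_pos lam n
    have h2 := hchi t ht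
    unfold ss
    rw [← hM5]
    have h3 : (0:ℝ) < MM lam n ^ 5 := by have := MM_pos lam n; positivity
    have h4 : cf ψ ρ (MM lam) (EE lam) (u t) ^ 2 * (MM lam n ^ 5 * EE lam n * -hf ρ ρ / ip φ φ)
      ≤ 9 / 4 * c ^ 2 * (MM lam n ^ 5 * EE lam n * -hf ρ ρ / ip φ φ) :=
      mul_le_mul_of_nonneg_right h2 (by positivity)
    calc MM lam n ^ 5 * (cf ψ ρ (MM lam) (EE lam) (u t) ^ 2 * EE lam n * -hf ρ ρ) / ip φ φ
        = cf ψ ρ (MM lam) (EE lam) (u t) ^ 2 * (MM lam n ^ 5 * EE lam n * -hf ρ ρ / ip φ φ) := by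
          ring
      _ ≤ _ := h4
      _ = _ := by field_simp
  · intro n t ht
    have h1 := EE_pos lam n
    positivity
  · intro n t ht
    have h1 := EE_pos lam n
    have h2 := hchi t ht
    unfold kk
    calc -hf ρ ρ / -hf φ φ * (cf ψ ρ (MM lam) (EE lam) (u t) ^ 2 * EE lam n)
        ≤ -hf ρ ρ / -hf φ φ * (9 / 4 * c ^ 2 * EE lam n) :=
          mul_le_mul_of_nonneg_left (mul_le_mul_of_nonneg_right h2 h1.le) (by positivity)
      _ = _ := by field_simp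


/-- a datum `vd` whose cascade starts in the mode `ks` -/
structure GoodE (φ ρ ψ : V → V) (x₁ : V) (ν T lam E : ℝ) (vd : V → V) (ks : ℕ) : Prop where
  P : Prof φ ρ ψ x₁
  S : Scl (MM lam) (EE lam)
  one : 1 ≤ lam
  ν_nn : 0 ≤ ν
  T_pos : 0 < T
  T_le : T ≤ 1
  span : vd ∈ Submodule.span ℝ (Set.range (Fam φ ψ ρ (MM lam) (EE lam)))
  az : ∀ n, ks + 2 ≤ n → af φ (MM lam) vd n = 0
  en : ∀ T' u, 0 ≤ T' → T' ≤ T →
    GSol ν (Fam φ ψ ρ (MM lam) (EE lam)) vd T' u → ∀ t ∈ Icc 0 T',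
    cf ψ ρ (MM lam) (EE lam) (u t) ^ 2 * ip (PP ψ ρ (MM lam) (EE lam)) (PP ψ ρ (MM lam) (EE lam)) ≤ E
    ∧ (∀ m, ip φ φ * af φ (MM lam) (u t) m ^ 2 ≤ E) ∧ ip (u t) (u t) ≤ E
  no : ∀ u, ¬ GSol ν (Fam φ ψ ρ (MM lam) (EE lam)) vd T u
  sh : ∃ R C c0 : ℝ, 1 ≤ R ∧ 0 ≤ C ∧ (∀ n K : ℕ, ∑ l ∈ Finset.Ico (n + 1) (K + 1),
      (2 * R * ss (9 * c0 ^ 2 * -hf ρ ρ / (4 * ip φ φ)) lam l
        + 4 * kk (9 * c0 ^ 2 * -hf ρ ρ / (4 * -hf φ φ)) lam l * w (gg (-hf φ φ / ip φ φ) lam) R l)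
          ≤ etaa C lam n) ∧
    (∀ n K : ℕ, ∑ l ∈ Finset.Ico (n + 1) (K + 1), kk (9 * c0 ^ 2 * -hf ρ ρ / (4 * -hf φ φ)) lam l
          ≤ etaa C lam n) ∧
    ∀ T' u, 0 ≤ T' → T' ≤ T →
      GSol ν (Fam φ ψ ρ (MM lam) (EE lam)) vd T' u → ShellOf φ ψ ρ lam ν R T' c0 u

/-- near every datum of the span there are good data -/
theorem exists_good0 {φ ρ ψ : V → V} {x₁ : V} {lam : ℝ} (G : Stat φ ρ ψ x₁ lam) {v : V → V}
    (hv : v ∈ Submodule.span ℝ (Set.range (Fam φ ψ ρ (MM lam) (EE lam))))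
    (hc : cf ψ ρ (MM lam) (EE lam) v ≠ 0) {ν₀ η : ℝ} (hν₀ : 0 ≤ ν₀) (hη : 0 < η) :
    ∃ (T E r d : ℝ) (ks : ℕ), T ≤ η ∧ rad (MM lam) ks ≤ η ∧ (r ^ 2 + d ^ 2) * ip φ φ ≤ η ∧
      ∀ ν, 0 ≤ ν → ν ≤ ν₀ → GoodE φ ρ ψ x₁ ν T lam E
        (v + pert φ (MM lam) r d ks) ks := by
  have P := G.P
  have S := G.S
  have hF := φ_pos P
  have hq : 0 < -hf φ φ := by linarith [P.q_pos]
  have hβ : 0 < -hf ρ ρ := by linarith [P.β_pos]
  have hA : 0 ≤ dir φ φ := by
    unfold dir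
    exact integral_nonneg fun x => sum_nonneg fun i _ => real_inner_self_nonneg
  have hvT : TF v := span_TF (Fam_TF P S) hv
  obtain ⟨N₁, hN₁⟩ := span_af P S hv
  have hPT := PP_TF P S
  have hPlpos := PP_ip_pos P S
  obtain ⟨B, hB0, hb⟩ := cs_bound hPT.contd (R := sr ψ)
    (fun x hx => fderiv_zero_of (PP_zero P S) x hx)
  set c := cf ψ ρ (MM lam) (EE lam) v with hcdef
  have hc2 : 0 < c ^ 2 := by positivity
  have hc1 : 0 < |c| := abs_pos.mpr hc
  set Pl := ip (PP ψ ρ (MM lam) (EE lam)) (PP ψ ρ (MM lam) (EE lam)) with hPl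
  set Dd := |dir (PP ψ ρ (MM lam) (EE lam)) (PP ψ ρ (MM lam) (EE lam))| with hDd
  have hDd0 : 0 ≤ Dd := abs_nonneg _
  set F := ip φ φ with hFdef
  have hvv := ip_self_nonneg v
  set E := 2 * (ip v v + 2 * F) with hE
  have hE0 : 0 ≤ E := by positivity
  set Cc := Real.sqrt (E / Pl) with hCc
  have hCc0 : 0 ≤ Cc := Real.sqrt_nonneg _
  set R := Real.sqrt (E / F) + 1 with hR
  set C₁ := (B * E + ν₀ * (Cc * Dd)) / Pl with hC₁
  have hC₁0 : 0 ≤ C₁ := by positivity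
  set T := min 1 (min η (|c| / (2 * (C₁ + 1)))) with hT
  have hTpos : 0 < T := lt_min one_pos (lt_min hη (by positivity))
  have hT1 : T ≤ 1 := min_le_left _ _
  have hTη : T ≤ η := (min_le_right _ _).trans (min_le_left _ _)
  have hCT : C₁ * T ≤ |c| / 2 := by
    have h1 : T ≤ |c| / (2 * (C₁ + 1)) := (min_le_right _ _).trans (min_le_right _ _)
    have h2 : C₁ * T ≤ C₁ * (|c| / (2 * (C₁ + 1))) := mul_le_mul_of_nonneg_left h1 hC₁0
    refine h2.trans ?_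
    rw [mul_div_assoc', div_le_div_iff₀ (by positivity) (by norm_num)]
    nlinarith
  have hR1 : 1 ≤ R := by
    have := Real.sqrt_nonneg (E / F)
    linarith
  have hRE : E ≤ F * R ^ 2 := by
    have h1 : Real.sqrt (E / F) ^ 2 = E / F := Real.sq_sqrt (by positivity)
    have h2 : E / F ≤ R ^ 2 := by
      rw [← h1]
      exact pow_le_pow_left₀ (Real.sqrt_nonneg _) (by linarith) 2
    rw [div_le_iff₀ hF] at h2
    linarith
  have hCcE : E ≤ Cc ^ 2 * Pl := by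
    rw [hCc, Real.sq_sqrt (by positivity), div_mul_cancel₀ _ hPlpos.ne']
  have hpar := par_shift (γ := -hf φ φ / F) (m := ν₀ * dir φ φ / F)
    (s₁ := c ^ 2 * -hf ρ ρ / (4 * F)) (s₂ := 9 * c ^ 2 * -hf ρ ρ / (4 * F))
    (k := 9 * c ^ 2 * -hf ρ ρ / (4 * -hf φ φ)) (R := R) (T := T) (lam := lam)
    (by positivity) (by positivity) (by positivity) (by positivity) (by positivity) hR1 hTpos
    G.one G.hh G.two
  obtain ⟨k, hk⟩ : ∃ k : ℕ, (1 / 64 : ℝ) ^ k < η / (2 * F) :=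
    exists_pow_lt_of_lt_one (by positivity) (by norm_num)
  obtain ⟨Ns, hNs, hNs1, hNs2⟩ := (hpar.and ((eventually_ge_atTop N₁).and
    (S.rad_tendsto.eventually (gt_mem_nhds hη)))).exists
  have Pr := hNs (Ns + k) (by omega)
  set ks := Ns + k with hks
  have hr0 : rs Ns ks = (1 / 64 : ℝ) ^ k := by
    rw [hks, rs_sh]; unfold rr; rw [div_pow, one_pow]
  set r := rs Ns ks with hr
  set d := δ (gg (-hf φ φ / F) lam) ks with hd
  have hrpos : 0 < r := Pr.r_pos ks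
  have hr1 : r ≤ 1 := Pr.r_le ks
  have hd0 : 0 < d := by
    have := gg_pos (γ := -hf φ φ / F) (by positivity) lam ks
    rw [hd]; unfold δ; positivity
  have hdr : d ≤ r := by
    have := Pr.c4' ks le_rfl
    linarith
  have hrd : r ^ 2 + d ^ 2 ≤ 2 * r := by nlinarith
  have hWF : (r ^ 2 + d ^ 2) * F ≤ η := by
    rw [hr0, lt_div_iff₀ (by positivity)] at *
    have := mul_le_mul_of_nonneg_right hrd hF.le
    linarith
  have hWF2 : (r ^ 2 + d ^ 2) * F ≤ 2 * F := mul_le_mul_of_nonneg_right (by linarith) hF.le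
  have hradk : rad (MM lam) ks ≤ η := (S.rad_anti (by omega)).trans hNs2.le
  refine ⟨T, E, r, d, ks, hTη, hradk, hWF, fun ν hν hνν => ?_⟩
  have hWT := pert_TF P S r d ks
  have hcu : cf ψ ρ (MM lam) (EE lam) (v + pert φ (MM lam) r d ks) = c := pert_cf P S hvT r d ks
  have hspan : v + pert φ (MM lam) r d ks
      ∈ Submodule.span ℝ (Set.range (Fam φ ψ ρ (MM lam) (EE lam))) := by
    have h0 : ∀ k, Fam φ ψ ρ (MM lam) (EE lam) k
        ∈ Submodule.span ℝ (Set.range (Fam φ ψ ρ (MM lam) (EE lam))) :=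
      fun k => Submodule.subset_span ⟨k, rfl⟩
    exact Submodule.add_mem _ hv (Submodule.add_mem _ (Submodule.smul_mem _ _ (h0 (ks + 1)))
      (Submodule.smul_mem _ _ (h0 (ks + 2))))
  have ha0 : rs Ns ks ≤ af φ (MM lam) (v + pert φ (MM lam) r d ks) ks := by
    rw [pert_af P S hvT, hN₁ ks (by omega), if_pos rfl, if_neg (by omega), zero_add, add_zero]
  have ha1 : af φ (MM lam) (v + pert φ (MM lam) r d ks) (ks + 1)
      = δ (gg (-hf φ φ / ip φ φ) lam) ks := by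
    rw [pert_af P S hvT, hN₁ (ks + 1) (by omega), if_neg (by omega), if_pos rfl, zero_add,
      zero_add]
  have haz : ∀ n, ks + 2 ≤ n → af φ (MM lam) (v + pert φ (MM lam) r d ks) n = 0 := by
    intro n hn
    rw [pert_af P S hvT, hN₁ n (by omega), if_neg (by omega), if_neg (by omega)]
    simp
  have Pr' := Pr.mono_μ (μ' := muu (ν * dir φ φ / ip φ φ) lam) (fun n => by
      unfold muu
      refine mul_le_mul_of_nonneg_right ?_ (Real.exp_pos _).le
      exact div_le_div_of_nonneg_right (mul_le_mul_of_nonneg_right hνν hA) hF.le)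
    (fun n => by
      unfold muu
      refine mul_le_mul_of_nonneg_left (Real.exp_le_exp.mpr ?_) (by positivity)
      have := LL_mono (by linarith [G.one] : (0 : ℝ) ≤ lam) (Nat.le_succ n)
      linarith) (by linarith)
    (fun n => by
      have h1 := Pr.Λ_ge n
      have h2 := Pr.r_pos n
      have h3 := gg_pos (γ := -hf φ φ / ip φ φ) (by positivity) lam n
      unfold D; positivity)
    (fun n => by
      have := EE_pos lam n
      unfold ss; positivity)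
    (fun n => gg_pos (γ := -hf φ φ / ip φ φ) (by positivity) lam n)
  have hc8 : ∀ C : ℝ, ∃ n : ℕ, ks ≤ n ∧
      C * Real.exp (LL lam (n + 1)) < gg (-hf φ φ / ip φ φ) lam n * rs Ns n := by
    intro C
    obtain ⟨n, hn, h⟩ := G.c8 C ks
    refine ⟨n, hn, h.trans_le ?_⟩
    refine mul_le_mul_of_nonneg_left ?_ (gg_pos (γ := -hf φ φ / ip φ φ) (by positivity) lam n).le
    unfold rs rr
    exact one_div_le_one_div_of_le (by positivity) (pow_le_pow_right₀ (by norm_num) (Nat.sub_le n Ns))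
  have hEn : ∀ (u : ℝ → V → V) T', GSol ν (Fam φ ψ ρ (MM lam) (EE lam))
      (v + pert φ (MM lam) r d ks) T' u → ∀ n, En φ ψ ρ (MM lam) (EE lam) (u 0) n ≤ E := by
    intro u T' hu n
    rw [hu.init]
    have h1 := un_le_ip P S (hvT.add hWT) n
    rw [ip_un P S] at h1
    have h2 := ip_add_le hvT hWT
    rw [pert_ip P S] at h2
    unfold En
    linarith
  have hshell : ∀ T' u, 0 ≤ T' → T' ≤ T →
      GSol ν (Fam φ ψ ρ (MM lam) (EE lam)) (v + pert φ (MM lam) r d ks) T' u →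
        ShellOf φ ψ ρ lam ν R T' c u := by
    intro T' u hT'0 hT' hu
    have hCT' : (B * E + ν * (Cc * Dd)) / Pl * T' ≤ |c| / 2 := by
      have h1 : (B * E + ν * (Cc * Dd)) / Pl ≤ C₁ := by
        refine div_le_div_of_nonneg_right ?_ hPlpos.le
        have h2 : 0 ≤ Cc * Dd := by positivity
        have h3 := mul_le_mul_of_nonneg_right hνν h2
        linarith
      exact ((mul_le_mul_of_nonneg_right h1 hT'0).trans
        (mul_le_mul_of_nonneg_left hT' hC₁0)).trans hCT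
    exact shell_of_sol0 P S hν hT'0 (hT'.trans hT1) hu (hEn u T' hu) hE0 hPlpos le_rfl hb le_rfl
      hCc0 hCcE hR1 hRE (by rw [hu.init]; exact hcu) hc hCT'
  refine ⟨P, S, G.one, hν, hTpos, hT1, hspan, haz, fun T' u hT'0 hT' hu t ht => ?_,
    fun u hu => ?_, R, _, c, hR1, ?_, Pr'.hη, Pr'.hη', hshell⟩
  · exact energy_bounds P S hν hT'0 (hT'.trans hT1) hu (hEn u T' hu) ht
  swap
  · unfold Ceta
    positivity
  have hsh := hshell T u hTpos.le le_rfl hu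
  refine cascade hsh Pr' ?_ ?_ ?_ ?_
  · show rs Ns ks ≤ af φ (MM lam) (u 0) ks
    rw [hu.init]
    exact ha0
  · show af φ (MM lam) (u 0) (ks + 1) = _
    rw [hu.init]
    exact ha1
  · intro n hn
    show af φ (MM lam) (u 0) n = 0
    rw [hu.init]
    exact haz n hn
  · obtain ⟨C, hC⟩ := hu.bdd
    have hC0 : 0 ≤ C := (norm_nonneg _).trans (hC 0 ⟨le_rfl, hTpos.le⟩ 0)
    have hWb : ∀ t ∈ Icc 0 T, ∀ n,
        |W (gg (-hf φ φ / ip φ φ) lam) (fun n t => af φ (MM lam) (u t) n) n t|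
          ≤ (-hf φ φ / ip φ φ * C) * Real.exp (LL lam n) := by
      intro t ht n
      have h1 := W_vel P S (hu.mem t ht) (hC t ht) n
      rw [rad_exp, ← div_eq_mul_inv, div_le_iff₀ (Real.exp_pos _)] at h1
      rw [W_eq, abs_mul, abs_of_pos (by positivity), mul_assoc]
      exact mul_le_mul_of_nonneg_left h1 (by positivity)
    obtain ⟨n, hnk, hn⟩ := hc8 (2 * (-hf φ φ / ip φ φ * C))
    refine ⟨n, hnk, fun t ht => ?_⟩
    have h1 := hWb t ht n
    have h2 := hWb t ht (n + 1)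
    have h3 : Real.exp (LL lam n) ≤ Real.exp (LL lam (n + 1)) :=
      Real.exp_le_exp.mpr (LL_mono (by linarith [G.one]) (Nat.le_succ n))
    have h4 := mul_le_mul_of_nonneg_left h3 (by positivity : 0 ≤ -hf φ φ / ip φ φ * C)
    linarith

end Pool.Agent.H280R3.E6
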