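import Mathlib
import Pool.Agent.H280R3.W.Rep
import Pool.Agent.H280R3.W.Static

/-! Infinite combinations of a family of fields with summable `C^1` norms. -/

set_option autoImplicit false

open Set MeasureTheory Filter Topology Finset
open scoped RealInnerProductSpace ContDiff

namespace Pool.Agent.H280R3.E6

open Pool.Agent.H280R3.W

/-- the field with coefficients `b k * wt k` -/
noncomputable def UU (Φ : ℕ → V → V) (wt b : ℕ → ℝ) : V → V := fun x => ∑' k, (b k * wt k) • Φ k x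

structure Maj (r : ℝ) (Φ : ℕ → V → V) (wt θ : ℕ → ℝ) : Prop where
  summ : Summable θ
  bd0 : ∀ k x, |wt k| * ‖Φ k x‖ ≤ θ k
  bd1 : ∀ k x, |wt k| * ‖fderiv ℝ (Φ k) x‖ ≤ θ k
  tf : ∀ k, TF (Φ k)
  out : ∀ k x, r < ‖x‖ → Φ k x = 0

section

variable {Φ : ℕ → V → V} {wt θ b b' : ℕ → ℝ} {R r : ℝ}

lemma Maj.θ_nonneg (H : Maj r Φ wt θ) (k : ℕ) : 0 ≤ θ k :=
  (by positivity : 0 ≤ |wt k| * ‖Φ k 0‖).trans (H.bd0 k 0)

lemma Maj.Θ_nonneg (H : Maj r Φ wt θ) : 0 ≤ ∑' k, θ k := tsum_nonneg H.θ_nonneg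

lemma Maj.nb0 (H : Maj r Φ wt θ) (hb : ∀ j, |b j| ≤ R) (k : ℕ) (x : V) :
    ‖(b k * wt k) • Φ k x‖ ≤ R * θ k := by
  rw [norm_smul, Real.norm_eq_abs, abs_mul, mul_assoc]
  exact mul_le_mul (hb k) (H.bd0 k x) (by positivity) ((abs_nonneg _).trans (hb k))

lemma Maj.nb1 (H : Maj r Φ wt θ) (hb : ∀ j, |b j| ≤ R) (k : ℕ) (x : V) :
    ‖(b k * wt k) • fderiv ℝ (Φ k) x‖ ≤ R * θ k := by
  rw [norm_smul, Real.norm_eq_abs, abs_mul, mul_assoc]
  exact mul_le_mul (hb k) (H.bd1 k x) (by positivity) ((abs_nonneg _).trans (hb k))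

lemma Maj.sm0 (H : Maj r Φ wt θ) (hb : ∀ j, |b j| ≤ R) (x : V) :
    Summable fun k => (b k * wt k) • Φ k x :=
  Summable.of_norm_bounded (H.summ.mul_left R) fun k => H.nb0 hb k x

lemma Maj.sm1 (H : Maj r Φ wt θ) (hb : ∀ j, |b j| ≤ R) (x : V) :
    Summable fun k => (b k * wt k) • fderiv ℝ (Φ k) x :=
  Summable.of_norm_bounded (H.summ.mul_left R) fun k => H.nb1 hb k x

lemma Maj.hfd (H : Maj r Φ wt θ) (hb : ∀ j, |b j| ≤ R) (x : V) :
    HasFDerivAt (UU Φ wt b) (∑' k, (b k * wt k) • fderiv ℝ (Φ k) x) x :=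
  hasFDerivAt_tsum (H.summ.mul_left R)
    (fun k x => ((H.tf k).diff x).hasFDerivAt.const_smul (b k * wt k)) (fun k x => H.nb1 hb k x)
    (H.sm0 hb 0) x

lemma Maj.fd (H : Maj r Φ wt θ) (hb : ∀ j, |b j| ≤ R) (x : V) :
    fderiv ℝ (UU Φ wt b) x = ∑' k, (b k * wt k) • fderiv ℝ (Φ k) x := (H.hfd hb x).fderiv

lemma Maj.cd (H : Maj r Φ wt θ) (hb : ∀ j, |b j| ≤ R) : ContDiff ℝ 1 (UU Φ wt b) := by
  refine contDiff_one_iff_fderiv.2 ⟨fun x => (H.hfd hb x).differentiableAt, ?_⟩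
  have e : fderiv ℝ (UU Φ wt b) = fun x => ∑' k, (b k * wt k) • fderiv ℝ (Φ k) x :=
    funext (H.fd hb)
  rw [e]
  exact continuous_tsum (fun k => by exact ((H.tf k).contd).const_smul (b k * wt k))
    (H.summ.mul_left R)
    (fun k x => H.nb1 hb k x)

lemma Maj.UU_out (H : Maj r Φ wt θ) (x : V) (hx : r < ‖x‖) : UU Φ wt b x = 0 := by
  unfold UU
  simp [H.out _ x hx]

/-- the divergence as an additive map -/
noncomputable def trH : (V →L[ℝ] V) →+ ℝ where
  toFun L := ∑ i, (L (ev i)) i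
  map_zero' := by simp
  map_add' L L' := by simp [Finset.sum_add_distrib]

lemma trH_cont : Continuous trH := by
  show Continuous fun L : V →L[ℝ] V => ∑ i, (L (ev i)) i
  fun_prop

lemma Maj.dv (H : Maj r Φ wt θ) (hb : ∀ j, |b j| ≤ R) (x : V) : divg (UU Φ wt b) x = 0 := by
  have h1 : HasSum (fun k => (b k * wt k) • fderiv ℝ (Φ k) x) (fderiv ℝ (UU Φ wt b) x) := by
    rw [H.fd hb]
    exact (H.sm1 hb x).hasSum
  have h2 := h1.map trH trH_cont
  have h3 : (trH ∘ fun k => (b k * wt k) • fderiv ℝ (Φ k) x) = fun _ => 0 := by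
    funext k
    show ∑ i, (((b k * wt k) • fderiv ℝ (Φ k) x) (ev i)) i = 0
    have := (H.tf k).dv x
    unfold divg at this
    simp only [_root_.smul_apply, PiLp.smul_apply, smul_eq_mul]
    rw [← Finset.mul_sum, this, mul_zero]
  rw [h3] at h2
  exact h2.unique hasSum_zero

lemma Maj.TF (H : Maj r Φ wt θ) (hb : ∀ j, |b j| ≤ R) : TF (UU Φ wt b) where
  cd := H.cd hb
  cs := HasCompactSupport.intro (isCompact_closedBall (0 : V) r) fun x hx =>
    H.UU_out x (by simpa using hx)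
  dv := H.dv hb

lemma Maj.le0 (H : Maj r Φ wt θ) (hb : ∀ j, |b j| ≤ R) (x : V) :
    ‖UU Φ wt b x‖ ≤ R * ∑' k, θ k :=
  tsum_of_norm_bounded (H.summ.hasSum.mul_left R) fun k => H.nb0 hb k x

lemma Maj.le1 (H : Maj r Φ wt θ) (hb : ∀ j, |b j| ≤ R) (x : V) :
    ‖fderiv ℝ (UU Φ wt b) x‖ ≤ R * ∑' k, θ k := by
  rw [H.fd hb]
  exact tsum_of_norm_bounded (H.summ.hasSum.mul_left R) fun k => H.nb1 hb k x

lemma Maj.add (H : Maj r Φ wt θ) {R' : ℝ} (hb : ∀ j, |b j| ≤ R) (hb' : ∀ j, |b' j| ≤ R') :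
    UU Φ wt (b + b') = UU Φ wt b + UU Φ wt b' := by
  funext x
  show ∑' k, ((b k + b' k) * wt k) • Φ k x = UU Φ wt b x + UU Φ wt b' x
  unfold UU
  rw [← (H.sm0 hb x).tsum_add (H.sm0 hb' x)]
  refine tsum_congr fun k => ?_
  rw [add_mul, add_smul]

lemma UU_smul (c : ℝ) : UU Φ wt (c • b) = c • UU Φ wt b := by
  funext x
  show ∑' k, ((c * b k) * wt k) • Φ k x = c • ∑' k, (b k * wt k) • Φ k x
  rw [← tsum_const_smul'' c]
  refine tsum_congr fun k => ?_
  rw [smul_smul, mul_assoc]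

lemma Maj.sub (H : Maj r Φ wt θ) {R' : ℝ} (hb : ∀ j, |b j| ≤ R) (hb' : ∀ j, |b' j| ≤ R') :
    UU Φ wt (b - b') = UU Φ wt b - UU Φ wt b' := by
  have e : b - b' = b + (-1 : ℝ) • b' := by
    funext k; simp [sub_eq_add_neg]
  have h1 : ∀ j, |((-1 : ℝ) • b') j| ≤ R' := fun j => by
    have := hb' j
    simpa using this
  rw [e, H.add hb h1, UU_smul]
  funext x
  simp [sub_eq_add_neg]

lemma Maj.dist_le (H : Maj r Φ wt θ) (hb : ∀ j, |b j| ≤ R) (hb' : ∀ j, |b' j| ≤ R) (x : V) :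
    ‖UU Φ wt b x - UU Φ wt b' x‖ ≤ ∑' k, |b k - b' k| * θ k := by
  have hs : Summable fun k => |b k - b' k| * θ k := by
    refine Summable.of_nonneg_of_le (fun k => mul_nonneg (abs_nonneg _) (H.θ_nonneg k)) (fun k => ?_)
      (H.summ.mul_left (2 * R))
    refine mul_le_mul_of_nonneg_right ?_ (H.θ_nonneg k)
    have := abs_sub (b k) (b' k)
    linarith [hb k, hb' k]
  have e : UU Φ wt b x - UU Φ wt b' x = UU Φ wt (b - b') x := by
    rw [H.sub hb hb']
    rfl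
  rw [e]
  unfold UU
  refine tsum_of_norm_bounded hs.hasSum fun k => ?_
  rw [norm_smul, Real.norm_eq_abs, abs_mul, mul_assoc]
  exact mul_le_mul_of_nonneg_left (H.bd0 k x) (abs_nonneg _)

lemma Maj.tend (H : Maj r Φ wt θ) {ι : Type*} {l : Filter ι} {B : ι → ℕ → ℝ}
    (hB : ∀ i j, |B i j| ≤ R) (hb : ∀ j, |b j| ≤ R)
    (h : ∀ j, Tendsto (fun i => B i j) l (𝓝 (b j))) :
    Tendsto (fun i => ∑' k, |B i k - b k| * θ k) l (𝓝 0) := by
  have h1 : Tendsto (fun i => ∑' k, |B i k - b k| * θ k) l (𝓝 (∑' k : ℕ, (0 : ℝ))) := by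
    refine tendsto_tsum_of_dominated_convergence (bound := fun k => 2 * R * θ k)
      (H.summ.mul_left (2 * R)) (fun k => ?_) (Eventually.of_forall fun i k => ?_)
    · have h2 : Tendsto (fun i => |B i k - b k| * θ k) l (𝓝 (|b k - b k| * θ k)) :=
        (((h k).sub tendsto_const_nhds).abs).mul_const _
      simpa using h2
    · rw [Real.norm_eq_abs, abs_of_nonneg (mul_nonneg (abs_nonneg _) (H.θ_nonneg k))]
      refine mul_le_mul_of_nonneg_right ?_ (H.θ_nonneg k)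
      have := abs_sub (B i k) (b k)
      linarith [hB i k, hb k]
  simpa using h1

lemma tri_sub_le {u v w : V → V} {C K d : ℝ} (hu : Continuous u) (hv : Continuous v) (hw : TF w)
    (hu0 : ∀ x, r < ‖x‖ → u x = 0) (hv0 : ∀ x, r < ‖x‖ → v x = 0)
    (huC : ∀ x, ‖u x‖ ≤ C) (hvC : ∀ x, ‖v x‖ ≤ C) (hK : ∀ x, ‖fderiv ℝ w x‖ ≤ K)
    (hd : ∀ x, ‖u x - v x‖ ≤ d) : |tri u w u - tri v w v| ≤ 2 * (C * K * d) * vr r := by
  have hC0 : 0 ≤ C := (norm_nonneg _).trans (huC 0)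
  have hK0 : 0 ≤ K := (norm_nonneg _).trans (hK 0)
  have hd0 : 0 ≤ d := (norm_nonneg _).trans (hd 0)
  unfold tri
  rw [← integral_sub (tri_int hu hw hu) (tri_int hv hw hv)]
  refine int_le_vr (fun x _ => ?_) (fun x hx => by rw [hu0 x hx, hv0 x hx]; simp)
  have e : ⟪u x, fderiv ℝ w x (u x)⟫ - ⟪v x, fderiv ℝ w x (v x)⟫
      = ⟪u x - v x, fderiv ℝ w x (u x)⟫ + ⟪v x, fderiv ℝ w x (u x - v x)⟫ := by
    rw [map_sub, inner_sub_left, inner_sub_right]
    ring
  rw [e]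
  refine (abs_add_le _ _).trans ?_
  have h1 : |⟪u x - v x, fderiv ℝ w x (u x)⟫| ≤ C * K * d := by
    refine (abs_real_inner_le_norm _ _).trans ?_
    have h2 : ‖fderiv ℝ w x (u x)‖ ≤ K * C :=
      ((fderiv ℝ w x).le_opNorm (u x)).trans (mul_le_mul (hK x) (huC x) (norm_nonneg _) hK0)
    calc ‖u x - v x‖ * ‖fderiv ℝ w x (u x)‖ ≤ d * (K * C) :=
          mul_le_mul (hd x) h2 (norm_nonneg _) hd0
      _ = _ := by ring
  have h1' : |⟪v x, fderiv ℝ w x (u x - v x)⟫| ≤ C * K * d := by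
    refine (abs_real_inner_le_norm _ _).trans ?_
    have h2 : ‖fderiv ℝ w x (u x - v x)‖ ≤ K * d :=
      ((fderiv ℝ w x).le_opNorm _).trans (mul_le_mul (hK x) (hd x) (norm_nonneg _) hK0)
    calc ‖v x‖ * ‖fderiv ℝ w x (u x - v x)‖ ≤ C * (K * d) :=
          mul_le_mul (hvC x) h2 (norm_nonneg _) hC0
      _ = _ := by ring
  linarith

lemma ip_sub_le {u v w : V → V} {K d : ℝ} (hu : Continuous u) (hv : Continuous v) (hw : TF w)
    (hw0 : ∀ x, r < ‖x‖ → w x = 0) (hK : ∀ x, ‖w x‖ ≤ K)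
    (hd : ∀ x, ‖u x - v x‖ ≤ d) : |ip u w - ip v w| ≤ d * K * vr r := by
  have hd0 : 0 ≤ d := (norm_nonneg _).trans (hd 0)
  unfold ip
  rw [← integral_sub (ip_int hu hw) (ip_int hv hw)]
  refine int_le_vr (fun x _ => ?_) (fun x hx => by rw [hw0 x hx]; simp)
  rw [← inner_sub_left]
  refine (abs_real_inner_le_norm _ _).trans ?_
  exact mul_le_mul (hd x) (hK x) (norm_nonneg _) hd0

lemma Maj.tri_tend (H : Maj r Φ wt θ) {ι : Type*} {l : Filter ι} {B : ι → ℕ → ℝ}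
    (hB : ∀ i j, |B i j| ≤ R) (hb : ∀ j, |b j| ≤ R)
    (h : ∀ j, Tendsto (fun i => B i j) l (𝓝 (b j))) {w : V → V} (hw : Pool.Agent.H280R3.W.TF w) :
    Tendsto (fun i => tri (UU Φ wt (B i)) w (UU Φ wt (B i))) l
      (𝓝 (tri (UU Φ wt b) w (UU Φ wt b))) := by
  obtain ⟨r', hr⟩ := hw.out
  obtain ⟨K, hK0, hK⟩ := cs_bound hw.contd (R := r') (fun x hx => (hr x hx).2)
  have h1 := H.tend hB hb h
  have h2 : Tendsto (fun i => 2 * ((R * ∑' k, θ k) * K * ∑' k, |B i k - b k| * θ k) * vr r) l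
      (𝓝 (2 * ((R * ∑' k, θ k) * K * 0) * vr r)) :=
    (((h1.const_mul _).const_mul 2).mul_const _)
  rw [mul_zero, mul_zero, zero_mul] at h2
  rw [tendsto_iff_norm_sub_tendsto_zero]
  refine squeeze_zero (fun i => norm_nonneg _) (fun i => ?_) h2
  rw [Real.norm_eq_abs]
  exact tri_sub_le (H.TF (hB i)).cont (H.TF hb).cont hw (H.UU_out) (H.UU_out) (H.le0 (hB i))
    (H.le0 hb) hK (H.dist_le (hB i) hb)

lemma Maj.ip_tend (H : Maj r Φ wt θ) {ι : Type*} {l : Filter ι} {B : ι → ℕ → ℝ}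
    (hB : ∀ i j, |B i j| ≤ R) (hb : ∀ j, |b j| ≤ R)
    (h : ∀ j, Tendsto (fun i => B i j) l (𝓝 (b j))) {w : V → V} (hw : Pool.Agent.H280R3.W.TF w)
    (hw0 : ∀ x, r < ‖x‖ → w x = 0) :
    Tendsto (fun i => ip (UU Φ wt (B i)) w) l (𝓝 (ip (UU Φ wt b) w)) := by
  obtain ⟨K, hK0, hK⟩ := cs_bound hw.cont (R := r) hw0
  have h1 := H.tend hB hb h
  have h2 : Tendsto (fun i => (∑' k, |B i k - b k| * θ k) * K * vr r) l (𝓝 (0 * K * vr r)) :=
    ((h1.mul_const _).mul_const _)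
  rw [zero_mul, zero_mul] at h2
  rw [tendsto_iff_norm_sub_tendsto_zero]
  refine squeeze_zero (fun i => norm_nonneg _) (fun i => ?_) h2
  rw [Real.norm_eq_abs]
  exact ip_sub_le (H.TF (hB i)).cont (H.TF hb).cont hw hw0 hK (H.dist_le (hB i) hb)

/-- truncation -/
def trn (b : ℕ → ℝ) (N k : ℕ) : ℝ := if k < N then b k else 0

lemma trn_bd (hb : ∀ j, |b j| ≤ R) (N j : ℕ) : |trn b N j| ≤ R := by
  unfold trn
  split_ifs
  · exact hb j
  · rw [abs_zero]
    exact (abs_nonneg _).trans (hb j)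

lemma trn_tend (b : ℕ → ℝ) (j : ℕ) : Tendsto (fun N => trn b N j) atTop (𝓝 (b j)) := by
  refine tendsto_const_nhds.congr' ?_
  filter_upwards [eventually_gt_atTop j] with N hN
  unfold trn
  rw [if_pos hN]

lemma UU_trn (b : ℕ → ℝ) (N : ℕ) :
    UU Φ wt (trn b N) = ∑ k ∈ range N, (b k * wt k) • Φ k := by
  funext x
  unfold UU
  rw [tsum_eq_sum (s := range N)]
  · rw [Finset.sum_apply]
    refine sum_congr rfl fun k hk => ?_
    unfold trn
    rw [if_pos (mem_range.1 hk)]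
    rfl
  · intro k hk
    unfold trn
    rw [if_neg (by simpa using hk), zero_mul, zero_smul]

lemma Maj.ip_eq (H : Maj r Φ wt θ) (hb : ∀ j, |b j| ≤ R)
    (horth : ∀ j k, j ≠ k → ip (Φ j) (Φ k) = 0) (k : ℕ) :
    ip (UU Φ wt b) (Φ k) = b k * wt k * ip (Φ k) (Φ k) := by
  have h1 := H.ip_tend (trn_bd hb) hb (trn_tend b) (H.tf k) (H.out k)
  refine tendsto_nhds_unique h1 ?_
  refine tendsto_const_nhds.congr' ?_
  filter_upwards [eventually_gt_atTop k] with N hN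
  rw [UU_trn, ip_sum_left (fun j _ => ((H.tf j).smul _).cont) (H.tf k)]
  rw [Finset.sum_eq_single k]
  · rw [ip_smul_left]
  · intro j _ hj
    rw [ip_smul_left, horth j k hj, mul_zero]
  · intro h
    exact absurd (mem_range.2 hN) h

lemma Maj.inX (H : Maj r Φ wt θ) (hb : ∀ j, |b j| ≤ R) : InX Φ (UU Φ wt b) := by
  refine ⟨H.TF hb, fun η hη => ?_⟩
  have h1 := H.tend (trn_bd hb) hb (trn_tend b)
  have h2 : Tendsto (fun N => (∑' k, |trn b N k - b k| * θ k) ^ 2 * vr r) atTop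
      (𝓝 (0 ^ 2 * vr r)) := (h1.pow 2).mul_const _
  rw [zero_pow (by norm_num), zero_mul] at h2
  obtain ⟨N, hN⟩ := (h2.eventually (gt_mem_nhds hη)).exists
  refine ⟨UU Φ wt (trn b N), ?_, ?_⟩
  · rw [UU_trn]
    exact Submodule.sum_mem _ fun k _ => Submodule.smul_mem _ _ (Submodule.subset_span ⟨k, rfl⟩)
  · refine le_trans ?_ hN.le
    refine (le_abs_self _).trans (int_le_vr (fun x _ => ?_) (fun x hx => by
      rw [H.UU_out x hx, H.UU_out x hx]; simp))
    rw [abs_of_nonneg (sq_nonneg _)]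
    refine pow_le_pow_left₀ (norm_nonneg _) ?_ 2
    rw [norm_sub_rev]
    exact H.dist_le (trn_bd hb N) hb x

/-- Lipschitz estimate from a quadratic bound -/
lemma Maj.lip (H : Maj r Φ wt θ) {w : V → V} (hw : Pool.Agent.H280R3.W.TF w) {κ : ℝ} (hκ : 0 ≤ κ)
    (hQ : ∀ (c : ℕ → ℝ) (r : ℝ), (∀ j, |c j| ≤ r) → |tri (UU Φ wt c) w (UU Φ wt c)| ≤ κ * r ^ 2)
    (hR : 0 < R) (hb : ∀ j, |b j| ≤ R) (hb' : ∀ j, |b' j| ≤ R) {D : ℝ} (hD : 0 ≤ D)
    (h : ∀ j, |b j - b' j| ≤ D) :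
    |tri (UU Φ wt b) w (UU Φ wt b) - tri (UU Φ wt b') w (UU Φ wt b')| ≤ 4 * κ * R * D := by
  rcases hD.eq_or_lt with h0 | h0
  · have e : b = b' := by
      funext j
      have := h j
      rw [← h0] at this
      exact sub_eq_zero.1 (abs_eq_zero.1 (le_antisymm this (abs_nonneg _)))
    rw [e, sub_self, abs_zero]
    positivity
  set s := D / (2 * R) with hs
  have hs0 : 0 < s := by positivity
  have hsR : s * (2 * R) = D := by rw [hs]; field_simp
  have hd : ∀ j, |(b - b') j| ≤ D := h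
  have ha : ∀ j, |(b + b') j| ≤ 2 * R := fun j => by
    have := abs_add_le (b j) (b' j)
    show |b j + b' j| ≤ _
    linarith [hb j, hb' j]
  have hsa : ∀ j, |(s • (b + b')) j| ≤ D := fun j => by
    show |s * (b + b') j| ≤ D
    rw [abs_mul, abs_of_pos hs0, ← hsR]
    exact mul_le_mul_of_nonneg_left (ha j) hs0.le
  have hp : ∀ j, |((b - b') + s • (b + b')) j| ≤ 2 * D := fun j => by
    have := abs_add_le ((b - b') j) ((s • (b + b')) j)
    show |(b - b') j + (s • (b + b')) j| ≤ _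
    linarith [hd j, hsa j]
  have hm : ∀ j, |((b - b') - s • (b + b')) j| ≤ 2 * D := fun j => by
    have := abs_sub ((b - b') j) ((s • (b + b')) j)
    show |(b - b') j - (s • (b + b')) j| ≤ _
    linarith [hd j, hsa j]
  set u := UU Φ wt b with hu
  set v := UU Φ wt b' with hv
  have huc : Continuous u := (H.TF hb).cont
  have hvc : Continuous v := (H.TF hb').cont
  have e1 : UU Φ wt ((b - b') + s • (b + b')) = (u - v) + s • (u + v) := by
    rw [H.add hd hsa, H.sub hb hb', UU_smul, H.add hb hb']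
  have e2 : UU Φ wt ((b - b') - s • (b + b')) = (u - v) - s • (u + v) := by
    rw [H.sub hd hsa, H.sub hb hb', UU_smul, H.add hb hb']
  have q1 := hQ _ _ hp
  have q2 := hQ _ _ hm
  rw [e1] at q1
  rw [e2] at q2
  have hpc : Continuous (u - v) := huc.sub hvc
  have hqc : Continuous (s • (u + v)) := (huc.add hvc).const_smul s
  have expand : ∀ {x y : V → V}, Continuous x → Continuous y →
      tri (x + y) w (x + y) = tri x w x + tri x w y + tri y w x + tri y w y := by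
    intro x y hx hy
    rw [tri_add_left hx hy hw (hx.add hy), tri_add_right hx hw hx hy, tri_add_right hy hw hx hy]
    ring
  have expand2 : ∀ {x y : V → V}, Continuous x → Continuous y →
      tri (x - y) w (x - y) = tri x w x - tri x w y - tri y w x + tri y w y := by
    intro x y hx hy
    have e : x - y = x + (-1 : ℝ) • y := by
      funext z; simp [sub_eq_add_neg]
    rw [e, expand hx (hy.const_smul _), tri_smul_left, tri_smul_right, tri_smul_left,
      tri_smul_right]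
    ring
  have cross : ∀ {x y : V → V}, Continuous x → Continuous y →
      tri (x - y) w (x + y) + tri (x + y) w (x - y) = 2 * (tri x w x - tri y w y) := by
    intro x y hx hy
    have e : x - y = x + (-1 : ℝ) • y := by
      funext z; simp [sub_eq_add_neg]
    have hy' : Continuous ((-1 : ℝ) • y) := hy.const_smul _
    rw [e, tri_add_left hx hy' hw (hx.add hy), tri_add_right hx hw hx hy,
      tri_add_right hy' hw hx hy, tri_add_left hx hy hw (hx.add hy'), tri_add_right hx hw hx hy',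
      tri_add_right hy hw hx hy', tri_smul_left, tri_smul_left, tri_smul_right, tri_smul_right]
    ring
  have key : 4 * s * (tri u w u - tri v w v) =
      tri ((u - v) + s • (u + v)) w ((u - v) + s • (u + v))
        - tri ((u - v) - s • (u + v)) w ((u - v) - s • (u + v)) := by
    rw [expand hpc hqc, expand2 hpc hqc, tri_smul_right, tri_smul_left]
    have := cross huc hvc
    linear_combination (-2 * s) * this
  have h3 : |4 * s * (tri u w u - tri v w v)| ≤ κ * (2 * D) ^ 2 + κ * (2 * D) ^ 2 := by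
    rw [key]
    exact (abs_sub _ _).trans (add_le_add q1 q2)
  rw [abs_mul, abs_of_pos (by positivity : 0 < 4 * s)] at h3
  have h4 : 4 * s * |tri u w u - tri v w v| ≤ 4 * s * (4 * κ * R * D) := by
    refine h3.trans (le_of_eq ?_)
    have : 4 * s * (4 * κ * R * D) = 8 * κ * D * (s * (2 * R)) := by ring
    rw [this, hsR]
    ring
  exact le_of_mul_le_mul_left h4 (by positivity)

end

end Pool.Agent.H280R3.E6
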