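import Mathlib
import Pool.Agent.H280R3.E6.Inst

/-! Local existence for the projected Navier–Stokes (`ν > 0`) and Euler (`ν = 0`) equations. -/

set_option autoImplicit false

open Set MeasureTheory Filter Topology Finset
open scoped RealInnerProductSpace ContDiff

namespace Pool.Agent.H280R3.E6

open Pool.Agent.H280R3.W

section

variable {φ ρ ψ : V → V} {x₁ : V} {M ε : ℕ → ℝ} {θ b : ℕ → ℝ} {R ν : ℝ}

/-- nonlinear right-hand side -/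
noncomputable def GG (Φ : ℕ → V → V) (wt : ℕ → ℝ) (k : ℕ) (b : ℕ → ℝ) : ℝ :=
  tri (UU Φ wt b) (Φ k) (UU Φ wt b) / (wt k * ip (Φ k) (Φ k))

/-- damping coefficients -/
noncomputable def dmp (ν : ℝ) (Φ : ℕ → V → V) (k : ℕ) : ℝ :=
  ν * dir (Φ k) (Φ k) / ip (Φ k) (Φ k)

lemma dir_self_nonneg (v : V → V) : 0 ≤ dir v v := by
  unfold dir
  exact integral_nonneg fun x => sum_nonneg fun i _ => real_inner_self_nonneg

theorem exists_quad (P : Prof φ ρ ψ x₁) (S : Scl M ε) (H : Maj (sr ψ) (Fam φ ψ ρ M ε) (om M) θ) :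
    ∃ K : ℝ, 0 ≤ K ∧ ∀ (k : ℕ) (c : ℕ → ℝ) (r : ℝ), (∀ j, |c j| ≤ r) →
      |tri (UU (Fam φ ψ ρ M ε) (om M) c) (Fam φ ψ ρ M ε k) (UU (Fam φ ψ ρ M ε) (om M) c)| ≤
        (K * (om M k * ip (Fam φ ψ ρ M ε k) (Fam φ ψ ρ M ε k))) * r ^ 2 := by
  have hPT := PP_TF P S
  obtain ⟨B1, hB1, hB1'⟩ := cs_bound hPT.contd (R := sr ψ)
    (fun x hx => fderiv_zero_of (PP_zero P S) x hx)
  have hPp := PP_ip_pos P S
  have hF := φ_pos P
  have hq : 0 < -hf φ φ := by linarith [P.q_pos]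
  have hβ : 0 < -hf ρ ρ := by linarith [P.β_pos]
  have hΘ := H.Θ_nonneg
  have hv3 := vr_nonneg (sr ψ)
  have hs1 : 0 ≤ ∑' m, (M m)⁻¹ := tsum_nonneg fun m => inv_nonneg.2 (S.M_pos m).le
  have hs2 : 0 ≤ ∑' m, M m ^ 11 * ε m :=
    tsum_nonneg fun m => mul_nonneg (pow_nonneg (S.M_pos m).le _) (S.ε_pos m).le
  set K0 := (∑' k, θ k) ^ 2 * B1 * vr (sr ψ) / ip (PP ψ ρ M ε) (PP ψ ρ M ε) with hK0
  set A := 2 * ((-hf φ φ) * (∑' m, (M m)⁻¹) + (-hf ρ ρ) * ∑' m, M m ^ 11 * ε m) with hA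
  have hA0 : 0 ≤ A := by positivity
  have hK00 : 0 ≤ K0 := by positivity
  refine ⟨K0 + A / ip φ φ, by positivity, fun k c r hc => ?_⟩
  have hr : 0 ≤ r := (abs_nonneg _).trans (hc 0)
  cases k with
  | zero =>
    have h1 := tri_diff_le (v := UU (Fam φ ψ ρ M ε) (om M) c) (D := PP ψ ρ M ε) (r := sr ψ)
      (H.le0 hc) hB1' (fun x hx => fderiv_zero_of (PP_zero P S) x hx)
    refine h1.trans ?_
    show _ ≤ (K0 + A / ip φ φ) * (1 * ip (PP ψ ρ M ε) (PP ψ ρ M ε)) * r ^ 2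
    have h2 : K0 * (1 * ip (PP ψ ρ M ε) (PP ψ ρ M ε)) * r ^ 2
        = (r * ∑' k, θ k) ^ 2 * B1 * vr (sr ψ) := by
      rw [hK0]; field_simp
    have h3 : 0 ≤ A / ip φ φ * (1 * ip (PP ψ ρ M ε) (PP ψ ρ M ε)) * r ^ 2 := by positivity
    calc _ = K0 * (1 * ip (PP ψ ρ M ε) (PP ψ ρ M ε)) * r ^ 2 := h2.symm
      _ ≤ K0 * (1 * ip (PP ψ ρ M ε) (PP ψ ρ M ε)) * r ^ 2
          + A / ip φ φ * (1 * ip (PP ψ ρ M ε) (PP ψ ρ M ε)) * r ^ 2 := by linarith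
      _ = _ := by ring
  | succ n =>
    have h1 := tri_shell_le P S H hc n
    refine h1.trans ?_
    show _ ≤ (K0 + A / ip φ φ) * ((M n ^ 6)⁻¹ * ip (sc (M n) φ) (sc (M n) φ)) * r ^ 2
    rw [sc_ip (S.M_pos n)]
    have hMn := S.M_pos n
    have h3 : 0 ≤ K0 * ((M n ^ 6)⁻¹ * ip φ φ) * r ^ 2 := by positivity
    calc A * (M n ^ 6)⁻¹ * r ^ 2 = A / ip φ φ * ((M n ^ 6)⁻¹ * ip φ φ) * r ^ 2 := by field_simp
      _ ≤ K0 * ((M n ^ 6)⁻¹ * ip φ φ) * r ^ 2 + A / ip φ φ * ((M n ^ 6)⁻¹ * ip φ φ) * r ^ 2 := by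
          linarith
      _ = _ := by ring

theorem sys (P : Prof φ ρ ψ x₁) (S : Scl M ε) (H : Maj (sr ψ) (Fam φ ψ ρ M ε) (om M) θ) (hν : 0 ≤ ν)
    (hR : 0 < R) : ∃ L, Sys (GG (Fam φ ψ ρ M ε) (om M)) (dmp ν (Fam φ ψ ρ M ε)) R L := by
  obtain ⟨K, hK0, hK⟩ := exists_quad P S H
  have hN : ∀ k, 0 < om M k * ip (Fam φ ψ ρ M ε k) (Fam φ ψ ρ M ε k) :=
    fun k => mul_pos (om_pos S k) (fam_ip_pos P S k)
  refine ⟨K * R ^ 2 + 4 * K * R, by positivity, fun k => ?_, fun k b hb => ?_,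
    fun k b b' D hD hb hb' hd => ?_, fun k b hbc hb => ?_⟩
  · unfold dmp
    have := dir_self_nonneg (Fam φ ψ ρ M ε k)
    have := fam_ip_pos P S k
    positivity
  · unfold GG
    rw [abs_div, abs_of_pos (hN k), div_le_iff₀ (hN k)]
    have h1 := hK k b R hb
    have h2 : 0 ≤ 4 * K * R * (om M k * ip (Fam φ ψ ρ M ε k) (Fam φ ψ ρ M ε k)) := by
      have := (hN k).le
      positivity
    calc _ ≤ _ := h1
      _ = K * R ^ 2 * (om M k * ip (Fam φ ψ ρ M ε k) (Fam φ ψ ρ M ε k)) := by ring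
      _ ≤ _ := by linarith
  · unfold GG
    rw [← sub_div, abs_div, abs_of_pos (hN k), div_le_iff₀ (hN k)]
    have h1 := H.lip (Fam_TF P S k) (κ := K * (om M k * ip (Fam φ ψ ρ M ε k) (Fam φ ψ ρ M ε k)))
      (mul_nonneg hK0 (hN k).le) (hK k) hR hb hb' hD hd
    have h2 : 0 ≤ K * R ^ 2 * D * (om M k * ip (Fam φ ψ ρ M ε k) (Fam φ ψ ρ M ε k)) := by
      have := (hN k).le
      positivity
    calc _ ≤ _ := h1
      _ = 4 * K * R * D * (om M k * ip (Fam φ ψ ρ M ε k) (Fam φ ψ ρ M ε k)) := by ring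
      _ ≤ _ := by linarith
  · unfold GG
    refine Continuous.div_const ?_ _
    rw [continuous_iff_continuousAt]
    intro t
    exact H.tri_tend (fun s j => hb s j) (fun j => hb t j) (fun j => (hbc j).tendsto t)
      (Fam_TF P S k)

lemma dir_UU (P : Prof φ ρ ψ x₁) (S : Scl M ε) (H : Maj (sr ψ) (Fam φ ψ ρ M ε) (om M) θ)
    (hb : ∀ j, |b j| ≤ R) (k : ℕ) :
    dir (UU (Fam φ ψ ρ M ε) (om M) b) (Fam φ ψ ρ M ε k)
      = b k * om M k * dir (Fam φ ψ ρ M ε k) (Fam φ ψ ρ M ε k) := by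
  have hvX : InX (Fam φ ψ ρ M ε) (UU (Fam φ ψ ρ M ε) (om M) b) := H.inX hb
  cases k with
  | zero =>
    have hPT := PP_TF P S
    obtain ⟨B1, hB1, hB1'⟩ := cs_bound hPT.contd (R := sr ψ)
      (fun x hx => fderiv_zero_of (PP_zero P S) x hx)
    have h := dir_pump P S hvX (H.le1 hb) hB1'
    rw [cf_UU P S H hb] at h
    show dir _ (PP ψ ρ M ε) = b 0 * 1 * dir (PP ψ ρ M ε) (PP ψ ρ M ε)
    rw [h, mul_one]
  | succ n =>
    have h := dir_eq P S hvX n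
    rw [af_UU P S H hb] at h
    show dir _ (sc (M n) φ) = b (n + 1) * (M n ^ 6)⁻¹ * dir (sc (M n) φ) (sc (M n) φ)
    rw [h, sc_dir (S.M_pos n) P.φT.diff P.φT.diff]

/-- local existence, with a uniform time -/
theorem loc (P : Prof φ ρ ψ x₁) (S : Scl M ε) (hν : 0 ≤ ν) {r : ℝ} (hr : 0 ≤ r) :
    ∃ τ > 0, ∀ b0 : ℕ → ℝ, (∀ j, |b0 j| ≤ r) →
      ∃ u, ESol ν (Fam φ ψ ρ M ε) (UU (Fam φ ψ ρ M ε) (om M) b0) τ u := by
  obtain ⟨θ, H⟩ := exists_maj P S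
  obtain ⟨L, Sy⟩ := sys P S H hν (R := r + 1) (by positivity)
  obtain ⟨τ, hτ, hsol⟩ := exists_sol Sy
  refine ⟨τ, hτ, fun b0 hb0 => ?_⟩
  obtain ⟨b, hbi, hbR, hbc, hbd⟩ := hsol b0 (fun k => by linarith [hb0 k])
  refine ⟨fun t => UU (Fam φ ψ ρ M ε) (om M) (b t), ?_, ?_, ?_, ?_⟩
  · show UU (Fam φ ψ ρ M ε) (om M) (b 0) = _
    rw [hbi]
  · exact fun t _ => H.inX (hbR t)
  · exact ⟨_, fun t _ x => ⟨H.le0 (hbR t) x, H.le1 (hbR t) x⟩⟩
  · intro k t ht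
    have h1 := (hbd k t ht).mul_const (om M k * ip (Fam φ ψ ρ M ε k) (Fam φ ψ ρ M ε k))
    have e1 : ∀ s, ip (UU (Fam φ ψ ρ M ε) (om M) (b s)) (Fam φ ψ ρ M ε k)
        = b s k * (om M k * ip (Fam φ ψ ρ M ε k) (Fam φ ψ ρ M ε k)) := by
      intro s
      rw [H.ip_eq (hbR s) (fam_orth P S) k]
      ring
    have hN := fam_ip_pos P S k
    have ho := om_pos S k
    simp only [e1]
    refine HasDerivWithinAt.congr_deriv h1 ?_
    rw [dir_UU P S H (hbR t)]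
    unfold GG dmp
    field_simp

/-- finite combinations as `UU` -/
theorem span_UU (S : Scl M ε) {w : V → V}
    (hw : w ∈ Submodule.span ℝ (range (Fam φ ψ ρ M ε))) :
    ∃ (b : ℕ → ℝ) (r : ℝ), (∀ j, |b j| ≤ r) ∧ w = UU (Fam φ ψ ρ M ε) (om M) b := by
  obtain ⟨c, rfl⟩ := (Finsupp.mem_span_range_iff_exists_finsupp).1 hw
  have ho := om_pos S
  refine ⟨fun k => c k * (om M k)⁻¹, ∑ k ∈ c.support, |c k * (om M k)⁻¹|, fun j => ?_, ?_⟩
  · by_cases hj : j ∈ c.support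
    · exact single_le_sum (f := fun k => |c k * (om M k)⁻¹|) (fun k _ => abs_nonneg _) hj
    · show |c j * (om M j)⁻¹| ≤ _
      rw [Finsupp.notMem_support_iff.1 hj, zero_mul, abs_zero]
      exact sum_nonneg fun k _ => abs_nonneg _
  · funext x
    unfold UU
    rw [tsum_eq_sum (s := c.support)]
    · rw [Finsupp.sum, Finset.sum_apply]
      refine sum_congr rfl fun k _ => ?_
      show (c k • Fam φ ψ ρ M ε k) x = _
      have := (ho k).ne'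
      rw [inv_mul_cancel_right₀ this]
      rfl
    · intro k hk
      show (c k * (om M k)⁻¹ * om M k) • Fam φ ψ ρ M ε k x = 0
      rw [Finsupp.notMem_support_iff.1 hk]
      simp

/-- local existence for every datum in the span -/
theorem loc_span (P : Prof φ ρ ψ x₁) (S : Scl M ε) (hν : 0 ≤ ν) {w : V → V}
    (hw : w ∈ Submodule.span ℝ (range (Fam φ ψ ρ M ε))) :
    ∃ τ > 0, ∃ u, ESol ν (Fam φ ψ ρ M ε) w τ u := by
  obtain ⟨b, r, hb, rfl⟩ := span_UU S hw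
  obtain ⟨τ, hτ, h⟩ := loc (r := r) P S hν ((abs_nonneg _).trans (hb 0))
  exact ⟨τ, hτ, h b hb⟩

end

end Pool.Agent.H280R3.E6
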