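import Mathlib
import Pool.Agent.H280R3.E6.Loc

/-! Uniqueness for the projected equations. -/

set_option autoImplicit false

open Set MeasureTheory Filter Topology Finset
open scoped RealInnerProductSpace ContDiff

namespace Pool.Agent.H280R3.E6

open Pool.Agent.H280R3.W

lemma span_CC {Φ : ℕ → V → V} (hΦ : ∀ j, CC (Φ j)) {w : V → V}
    (hw : w ∈ Submodule.span ℝ (range Φ)) : CC w := by
  induction hw using Submodule.span_induction with
  | mem x hx => obtain ⟨j, rfl⟩ := hx; exact hΦ j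
  | zero => exact CC.zero
  | add x y _ _ hx hy => exact hx.add hy
  | smul c x _ hx => exact hx.smul c

lemma CC.int_sq {v : V → V} (hv : CC v) : Integrable fun x => ‖v x‖ ^ 2 := by
  have := cip_int hv.co hv
  simpa only [real_inner_self_eq_norm_sq] using this

lemma InX_sub {Φ : ℕ → V → V} (hΦ : ∀ j, CC (Φ j)) {u v : V → V} (hu : InX Φ u)
    (hv : InX Φ v) : InX Φ (u - v) := by
  refine ⟨hu.1.sub hv.1, fun η hη => ?_⟩
  obtain ⟨w1, hw1, h1⟩ := hu.2 (η / 4) (by positivity)
  obtain ⟨w2, hw2, h2⟩ := hv.2 (η / 4) (by positivity)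
  refine ⟨w1 - w2, Submodule.sub_mem _ hw1 hw2, ?_⟩
  have c1 := CC.int_sq (hu.1.CC.sub (span_CC hΦ hw1))
  have c2 := CC.int_sq (hv.1.CC.sub (span_CC hΦ hw2))
  have c3 := CC.int_sq ((hu.1.CC.sub hv.1.CC).sub ((span_CC hΦ hw1).sub (span_CC hΦ hw2)))
  have h3 : ∫ x, ‖(u - v) x - (w1 - w2) x‖ ^ 2
      ≤ ∫ x, (2 * ‖u x - w1 x‖ ^ 2 + 2 * ‖v x - w2 x‖ ^ 2) := by
    refine integral_mono c3 ((c1.const_mul 2).add (c2.const_mul 2)) fun x => ?_
    show ‖(u x - v x) - (w1 x - w2 x)‖ ^ 2 ≤ 2 * ‖u x - w1 x‖ ^ 2 + 2 * ‖v x - w2 x‖ ^ 2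
    have e : (u x - v x) - (w1 x - w2 x) = (u x - w1 x) - (v x - w2 x) := by abel
    rw [e]
    have h4 := norm_sub_le (u x - w1 x) (v x - w2 x)
    have h5 := norm_nonneg ((u x - w1 x) - (v x - w2 x))
    nlinarith [sq_nonneg (‖u x - w1 x‖ - ‖v x - w2 x‖)]
  refine h3.trans ?_
  have e2 : ∫ x, (2 * ‖u x - w1 x‖ ^ 2 + 2 * ‖v x - w2 x‖ ^ 2)
      = 2 * (∫ x, ‖u x - w1 x‖ ^ 2) + 2 * ∫ x, ‖v x - w2 x‖ ^ 2 := by
    have e := integral_add (c1.const_mul 2) (c2.const_mul 2)
    rw [integral_const_mul, integral_const_mul] at e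
    exact e
  rw [e2]
  linarith

lemma tri3_le {a D b : V → V} {C C' K r : ℝ} (ha : ∀ x, ‖a x‖ ≤ C) (hb : ∀ x, ‖b x‖ ≤ C')
    (hK : ∀ x, ‖fderiv ℝ D x‖ ≤ K) (hD : ∀ x, r < ‖x‖ → fderiv ℝ D x = 0) :
    |tri a D b| ≤ C * K * C' * vr r := by
  have hC0 : 0 ≤ C := (norm_nonneg _).trans (ha 0)
  have hC0' : 0 ≤ C' := (norm_nonneg _).trans (hb 0)
  have hK0 : 0 ≤ K := (norm_nonneg _).trans (hK 0)
  unfold tri
  refine int_le_vr (fun x _ => ?_) (fun x hx => by rw [hD x hx]; simp)
  refine (abs_real_inner_le_norm _ _).trans ?_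
  have h1 := (fderiv ℝ D x).le_opNorm (b x)
  calc ‖a x‖ * ‖fderiv ℝ D x (b x)‖ ≤ C * (K * C') := by
        refine mul_le_mul (ha x) (h1.trans ?_) (norm_nonneg _) hC0
        exact mul_le_mul (hK x) (hb x) (norm_nonneg _) hK0
    _ = _ := by ring

/-- `|∫ v · (Dw) w| ≤ C ∫ |w|²` -/
lemma tri_self_le {v w : V → V} (hv : TF v) (hw : TF w) {C : ℝ}
    (hC : ∀ x, ‖fderiv ℝ v x‖ ≤ C) : |tri v w w| ≤ C * ip w w := by
  have h := ibp hv.cd hw hw.cd hw.dv
  have e : tri v w w = - ∫ x, ⟪fderiv ℝ v x (w x), w x⟫ := by rw [h, neg_neg]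
  rw [e, abs_neg, ← Real.norm_eq_abs]
  have hvc := hv.contd
  have hwc := hw.cont
  have hi : Integrable fun x => ⟪fderiv ℝ v x (w x), w x⟫ :=
    ip_int (u := fun x => fderiv ℝ v x (w x)) (by fun_prop) hw
  refine (norm_integral_le_integral_norm _).trans ?_
  unfold ip
  rw [← integral_const_mul]
  refine integral_mono hi.norm ((ip_int hw.cont hw).const_mul C) fun x => ?_
  simp only [Real.norm_eq_abs]
  refine (abs_real_inner_le_norm _ _).trans ?_
  rw [real_inner_self_eq_norm_sq]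
  have h1 := (fderiv ℝ v x).le_opNorm (w x)
  have h2 := mul_le_mul_of_nonneg_right (hC x) (norm_nonneg (w x))
  nlinarith [norm_nonneg (w x)]

section

variable {φ ρ ψ : V → V} {x₁ : V} {M ε : ℕ → ℝ} {ν T : ℝ} {u0 : V → V} {u v : ℝ → V → V}

lemma cf_sub (P : Prof φ ρ ψ x₁) (S : Scl M ε) {a b : V → V} (ha : Continuous a)
    (hb : Continuous b) : cf ψ ρ M ε (a - b) = cf ψ ρ M ε a - cf ψ ρ M ε b := by
  unfold cf
  rw [ip_sub_left ha hb (PP_TF P S), sub_div]

lemma af_sub (P : Prof φ ρ ψ x₁) (S : Scl M ε) {a b : V → V} (ha : Continuous a)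
    (hb : Continuous b) (n : ℕ) : af φ M (a - b) n = af φ M a n - af φ M b n := by
  unfold af
  rw [ip_sub_left ha hb (φT P S n), sub_div]

/-- linearity in the test field along `un` -/
lemma un_lin (P : Prof φ ρ ψ x₁) (S : Scl M ε) (w : V → V) {a b : V → V} (ha : Continuous a)
    (hb : Continuous b) (had : Continuous (fderiv ℝ a)) (n : ℕ) :
    cf ψ ρ M ε w * (tri a (PP ψ ρ M ε) b - ν * dir a (PP ψ ρ M ε))
      + ∑ m ∈ range n, af φ M w m * (tri a (sc (M m) φ) b - ν * dir a (sc (M m) φ))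
      = tri a (un φ ψ ρ M ε w n) b - ν * dir a (un φ ψ ρ M ε w n) := by
  have hP := PP_TF P S
  have e1 : ∀ n, ∑ m ∈ range n, af φ M w m * (tri a (sc (M m) φ) b - ν * dir a (sc (M m) φ))
      = tri a (sm φ M w n) b - ν * dir a (sm φ M w n) := by
    intro n
    induction n with
    | zero => unfold sm; simp [tri_zero_mid, dir_zero_right]
    | succ n ih =>
      have h1 : sm φ M w (n + 1) = sm φ M w n + af φ M w n • sc (M n) φ := by
        unfold sm; rw [sum_range_succ]
      rw [sum_range_succ, ih, h1, tri_add_mid ha (sm_TF P S w n) ((φT P S n).smul _)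
        hb, tri_smul_mid _ (φT P S n), dir_add_right had (sm_TF P S w n)
        ((φT P S n).smul _), dir_smul_right _ (φT P S n)]
      ring
  rw [e1 n]
  unfold un
  rw [tri_add_mid ha (hP.smul _) (sm_TF P S w n) hb, tri_smul_mid _ hP,
    dir_add_right had (hP.smul _) (sm_TF P S w n), dir_smul_right _ hP]
  ring

lemma arith1 {tw tb tD dww dwD ν C K C1 C2 E vr ipw : ℝ} (b1 : -(C * K * C1 * vr) ≤ tw)
    (b2 : -(C2 * K * C * vr) ≤ tD) (b4 : tb ≤ C2 * ipw) (b8 : C2 * ipw ≤ C * ipw)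
    (b9 : C * ipw ≤ C * (E + C ^ 2 * vr)) (b10 : ν * dwD ≤ ν * (3 * (C * K) * vr))
    (b11 : 0 ≤ ν * dww) : 2 * (-tw + (tb - tD) - ν * (dww - dwD)) ≤
      2 * C * E + (2 * (C * K * C1 + C2 * K * C + ν * (3 * (C * K)) + C * C ^ 2)) * vr := by
  have e : 2 * C * E + (2 * (C * K * C1 + C2 * K * C + ν * (3 * (C * K)) + C * C ^ 2)) * vr
      = 2 * (C * K * C1 * vr) + 2 * (C2 * K * C * vr) + 2 * (ν * (3 * (C * K) * vr))
        + 2 * (C * (E + C ^ 2 * vr)) := by ring
  rw [e]
  have e2 : 2 * (-tw + (tb - tD) - ν * (dww - dwD))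
      = -2 * tw + 2 * tb - 2 * tD - 2 * (ν * dww) + 2 * (ν * dwD) := by ring
  rw [e2]
  linarith

theorem gsol_unique (P : Prof φ ρ ψ x₁) (S : Scl M ε) (hν : 0 ≤ ν) (hT : 0 ≤ T)
    (hu : ESol ν (Fam φ ψ ρ M ε) u0 T u) (hv : ESol ν (Fam φ ψ ρ M ε) u0 T v)
    {t : ℝ} (ht : t ∈ Icc 0 T) : u t = v t := by
  obtain ⟨C1, cm1, hC10, hC1, hcm1⟩ := cf_bddE P S hu
  obtain ⟨C2, cm2, hC20, hC2, hcm2⟩ := cf_bddE P S hv
  have hPT := PP_TF P S
  obtain ⟨B, hB0, hB⟩ := cs_bound hPT.contd (R := sr ψ) (fun x hx => fderiv_zero_of (PP_zero P S) x hx)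
  set C := C1 + C2 with hCd
  have hC0 : 0 ≤ C := by positivity
  set cm := cm1 + cm2 with hcmd
  have hcm10 : 0 ≤ cm1 := (abs_nonneg _).trans (hcm1 0 (left_mem_Icc.mpr hT))
  have hcm20 : 0 ≤ cm2 := (abs_nonneg _).trans (hcm2 0 (left_mem_Icc.mpr hT))
  have hF := φ_pos P
  have hPp := PP_ip_pos P S
  have hX : ∀ s ∈ Icc 0 T, InX (Fam φ ψ ρ M ε) (u s - v s) := fun s hs =>
    InX_sub (fun j => (Fam_TF P S j).CC) (hu.mem s hs) (hv.mem s hs)
  have hw0 : ∀ s ∈ Icc 0 T, ∀ x, ‖(u s - v s) x‖ ≤ C := fun s hs x =>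
    (norm_sub_le _ _).trans (add_le_add (hC1 s hs x).1 (hC2 s hs x).1)
  have hw1 : ∀ s ∈ Icc 0 T, ∀ x, ‖fderiv ℝ (u s - v s) x‖ ≤ C := fun s hs x => by
    rw [fderiv_sub ((hu.mem s hs).1.diff x) ((hv.mem s hs).1.diff x)]
    exact (norm_sub_le _ _).trans (add_le_add (hC1 s hs x).2 (hC2 s hs x).2)
  have hcw : ∀ s ∈ Icc 0 T, |cf ψ ρ M ε (u s - v s)| ≤ cm := fun s hs => by
    rw [cf_sub P S (hu.mem s hs).1.cont (hv.mem s hs).1.cont]
    exact (abs_sub _ _).trans (add_le_add (hcm1 s hs) (hcm2 s hs))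
  set K := C + cm * B + C * ‖HH‖ with hKd
  have hK0 : 0 ≤ K := by positivity
  -- derivative of the truncated energy of the difference
  have hE : ∀ n, ∀ s ∈ Icc 0 T, HasDerivWithinAt (fun s => En φ ψ ρ M ε (u s - v s) n)
      (2 * ((tri (u s) (un φ ψ ρ M ε (u s - v s) n) (u s)
          - ν * dir (u s) (un φ ψ ρ M ε (u s - v s) n))
        - (tri (v s) (un φ ψ ρ M ε (u s - v s) n) (v s)
          - ν * dir (v s) (un φ ψ ρ M ε (u s - v s) n)))) (Icc 0 T) s := by
    intro n s hs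
    have huc := (hu.mem s hs).1
    have hvc := (hv.mem s hs).1
    have h1 := (((c_deriv hu.toG hs).sub (c_deriv hv.toG hs)).pow 2).mul_const
      (ip (PP ψ ρ M ε) (PP ψ ρ M ε))
    have h2 : HasDerivWithinAt (fun s => ∑ m ∈ range n, (af φ M (u s) m - af φ M (v s) m) ^ 2)
        (∑ m ∈ range n, (2 : ℕ) * (af φ M (u s) m - af φ M (v s) m) ^ (2 - 1)
          * (((tri (u s) (sc (M m) φ) (u s) - ν * dir (u s) (sc (M m) φ)) / ip φ φ)
            - ((tri (v s) (sc (M m) φ) (v s) - ν * dir (v s) (sc (M m) φ)) / ip φ φ)))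
        (Icc 0 T) s :=
      HasDerivWithinAt.fun_sum fun m _ => ((a_deriv hu.toG m hs).sub (a_deriv hv.toG m hs)).pow 2
    have h3 := h1.add (h2.const_mul (ip φ φ))
    have h4 : ∀ s' ∈ Icc 0 T, En φ ψ ρ M ε (u s' - v s') n
        = (((fun s => cf ψ ρ M ε (u s)) - fun s => cf ψ ρ M ε (v s)) ^ 2) s'
          * ip (PP ψ ρ M ε) (PP ψ ρ M ε)
          + ip φ φ * ∑ m ∈ range n, (af φ M (u s') m - af φ M (v s') m) ^ 2 := by
      intro s' hs'
      have huc' := (hu.mem s' hs').1
      have hvc' := (hv.mem s' hs').1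
      unfold En
      rw [cf_sub P S huc'.cont hvc'.cont]
      simp only [af_sub P S huc'.cont hvc'.cont]
      rfl
    refine (HasDerivWithinAt.congr_deriv (h3.congr h4 (h4 s hs)) ?_)
    rw [← un_lin P S (u s - v s) huc.cont huc.cont huc.contd n,
      ← un_lin P S (u s - v s) hvc.cont hvc.cont hvc.contd n,
      cf_sub P S huc.cont hvc.cont]
    simp only [af_sub P S huc.cont hvc.cont]
    have e5 : ∑ m ∈ range n, (af φ M (u s) m - af φ M (v s) m)
          * (tri (u s) (sc (M m) φ) (u s) - ν * dir (u s) (sc (M m) φ))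
        - ∑ m ∈ range n, (af φ M (u s) m - af φ M (v s) m)
          * (tri (v s) (sc (M m) φ) (v s) - ν * dir (v s) (sc (M m) φ))
        = ∑ m ∈ range n, (af φ M (u s) m - af φ M (v s) m)
          * ((tri (u s) (sc (M m) φ) (u s) - ν * dir (u s) (sc (M m) φ))
            - (tri (v s) (sc (M m) φ) (v s) - ν * dir (v s) (sc (M m) φ))) := by
      rw [← sum_sub_distrib]
      refine sum_congr rfl fun m _ => ?_
      ring
    have e6 : ip φ φ * ∑ m ∈ range n, (2 : ℕ) * (af φ M (u s) m - af φ M (v s) m) ^ (2 - 1)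
          * (((tri (u s) (sc (M m) φ) (u s) - ν * dir (u s) (sc (M m) φ)) / ip φ φ)
            - ((tri (v s) (sc (M m) φ) (v s) - ν * dir (v s) (sc (M m) φ)) / ip φ φ))
        = 2 * ∑ m ∈ range n, (af φ M (u s) m - af φ M (v s) m)
          * ((tri (u s) (sc (M m) φ) (u s) - ν * dir (u s) (sc (M m) φ))
            - (tri (v s) (sc (M m) φ) (v s) - ν * dir (v s) (sc (M m) φ))) := by
      rw [mul_sum, mul_sum]
      refine sum_congr rfl fun m _ => ?_
      field_simp
      simp
      ring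
    rw [e6, ← e5]
    simp only [Pi.sub_apply, Nat.cast_ofNat, Nat.add_one_sub_one, pow_one]
    field_simp
    ring
  set K' := 2 * (C * K * C1 + C2 * K * C + ν * (3 * (C * K)) + C * C ^ 2) with hK'
  have hK'0 : 0 ≤ K' := by positivity
  have hmain : ∀ n, En φ ψ ρ M ε (u t - v t) n ≤ (K' * T * Real.exp (2 * C * T)) * vr (rad M n) := by
    intro n
    have hvr := vr_nonneg (rad M n)
    have hr := S.rad_pos n
    have hle : ∀ s ∈ Icc 0 T, 2 * ((tri (u s) (un φ ψ ρ M ε (u s - v s) n) (u s)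
          - ν * dir (u s) (un φ ψ ρ M ε (u s - v s) n))
        - (tri (v s) (un φ ψ ρ M ε (u s - v s) n) (v s)
          - ν * dir (v s) (un φ ψ ρ M ε (u s - v s) n)))
        ≤ (2 * C) * En φ ψ ρ M ε (u s - v s) n + K' * vr (rad M n) := by
      intro s hs
      have hUs := (hu.mem s hs).1
      have hVs := (hv.mem s hs).1
      have hWX := hX s hs
      set a := u s with ha
      set b := v s with hb
      set w := a - b with hw
      set U := un φ ψ ρ M ε w n with hUd
      have hUT : TF U := un_TF P S w n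
      have hDT : TF (w - U) := hWX.1.sub hUT
      have hg : ∀ x, ‖fderiv ℝ (w - U) x‖ ≤ K := fun x =>
        (grad_diff P S hWX (hw1 s hs) hB n x).trans (by
          rw [hKd]
          have := mul_le_mul_of_nonneg_right (hcw s hs) hB0
          linarith)
      have hz : ∀ x, rad M n < ‖x‖ → fderiv ℝ (w - U) x = 0 := fun x hx =>
        fderiv_zero_of (diff_small P S hWX n) x (by linarith)
      have eU : w = U + (w - U) := by abel
      have t1 : tri a U a - tri b U b = tri w U a + tri b U w := by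
        have e1 : tri a U a = tri w U a + tri b U a := by
          have : a = w + b := by rw [hw]; abel
          conv_lhs => rw [this]
          rw [tri_add_left hWX.1.cont hVs.cont hUT (hWX.1.cont.add hVs.cont)]
          rw [← this]
        have e2 : tri b U a = tri b U w + tri b U b := by
          have : a = w + b := by rw [hw]; abel
          conv_lhs => rw [this]
          rw [tri_add_right hVs.cont hUT hWX.1.cont hVs.cont]
        rw [e1, e2]; ring
      have t2 : dir a U - dir b U = dir w U := by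
        have e1 : dir a U = dir w U + dir b U := by
          have : a = w + b := by rw [hw]; abel
          rw [dir_comm a U, dir_comm w U, dir_comm b U]
          conv_lhs => rw [this]
          exact dir_add_right hUT.contd hWX.1 hVs
        rw [e1]; ring
      have t3 : tri w U a = - tri w (w - U) a := by
        have e4 : tri w w a = 0 := tri_self hWX.1 hUs.cd hUs.dv
        have e5 : tri w w a = tri w U a + tri w (w - U) a := by
          have : tri w (U + (w - U)) a = tri w U a + tri w (w - U) a :=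
            tri_add_mid hWX.1.cont hUT hDT hUs.cont
          rwa [← eU] at this
        linarith
      have t4 : tri b U w = tri b w w - tri b (w - U) w := by
        have : tri b (U + (w - U)) w = tri b U w + tri b (w - U) w :=
          tri_add_mid hVs.cont hUT hDT hWX.1.cont
        rw [← eU] at this
        linarith
      have t5 : dir w U = dir w w - dir w (w - U) := by
        have : dir w (U + (w - U)) = dir w U + dir w (w - U) :=
          dir_add_right hWX.1.contd hUT hDT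
        rw [← eU] at this
        linarith
      have b1 := (abs_le.1 (tri3_le (hw0 s hs) (fun x => (hC1 s hs x).1) hg hz)).1
      have b2 := (abs_le.1 (tri3_le (fun x => (hC2 s hs x).1) (hw0 s hs) hg hz)).1
      have b3 := (abs_le.1 (dir_diff_le (hw1 s hs) hg hz)).2
      have b4 := (abs_le.1 (tri_self_le hVs hWX.1 (fun x => (hC2 s hs x).2))).2
      have b5 := dir_self_nonneg w
      have b6 := ip_le_un P S hWX (hw0 s hs) n
      rw [ip_un P S] at b6
      have b7 : ip w w ≤ En φ ψ ρ M ε w n + C ^ 2 * vr (rad M n) := b6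
      have b8 : C2 * ip w w ≤ C * ip w w :=
        mul_le_mul_of_nonneg_right (by linarith) (ip_self_nonneg _)
      have b9 : C * ip w w ≤ C * (En φ ψ ρ M ε w n + C ^ 2 * vr (rad M n)) :=
        mul_le_mul_of_nonneg_left b7 hC0
      have b10 : ν * dir w (w - U) ≤ ν * (3 * (C * K) * vr (rad M n)) :=
        mul_le_mul_of_nonneg_left b3 hν
      have b11 : 0 ≤ ν * dir w w := mul_nonneg hν b5
      have key : (tri a U a - ν * dir a U) - (tri b U b - ν * dir b U)
          = - tri w (w - U) a + (tri b w w - tri b (w - U) w)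
            - ν * (dir w w - dir w (w - U)) := by
        have : (tri a U a - ν * dir a U) - (tri b U b - ν * dir b U)
            = (tri a U a - tri b U b) - ν * (dir a U - dir b U) := by ring
        rw [this, t1, t2, t3, t4, t5]
      rw [key, hK']
      exact arith1 b1 b2 b4 b8 b9 b10 b11
    have hΓ : ∀ s ∈ Icc 0 T, HasDerivWithinAt (fun s : ℝ => (2 * C) * (s - 0)) (2 * C)
        (Icc 0 T) s := fun s _ => hasDerivWithinAt_linear (2 * C) 0 _ s
    have h0 : En φ ψ ρ M ε (u 0 - v 0) n = 0 := by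
      rw [hu.init, hv.init, sub_self]
      unfold En cf af ip
      simp
    have hg := gronwall_upper (f := fun s => En φ ψ ρ M ε (u s - v s) n)
      (h := K' * vr (rad M n)) (B := 2 * C * T) (by positivity) (hE n) hΓ hle
      (fun s hs s' hs' _ => by
        have h1 : s' - s ≤ T := by linarith [hs.1, hs'.2]
        have h2 : 2 * C * (s' - s) ≤ 2 * C * T := mul_le_mul_of_nonneg_left h1 (by positivity)
        linarith) ht (by rw [h0])
    simp only [h0, zero_add, sub_zero] at hg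
    refine hg.trans ?_
    have h1 : K' * vr (rad M n) * t ≤ K' * vr (rad M n) * T :=
      mul_le_mul_of_nonneg_left ht.2 (by positivity)
    calc K' * vr (rad M n) * t * Real.exp (2 * C * T)
        ≤ K' * vr (rad M n) * T * Real.exp (2 * C * T) :=
          mul_le_mul_of_nonneg_right h1 (Real.exp_pos _).le
      _ = _ := by ring
  have hip : ip (u t - v t) (u t - v t) ≤ 0 := by
    refine le_of_vr S (K := K' * T * Real.exp (2 * C * T) + C ^ 2) fun n => ?_
    have b6 := ip_le_un P S (hX t ht) (hw0 t ht) n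
    rw [ip_un P S] at b6
    have b7 : ip (u t - v t) (u t - v t) ≤ En φ ψ ρ M ε (u t - v t) n + C ^ 2 * vr (rad M n) := b6
    linarith [hmain n]
  have h0 := le_antisymm hip (ip_self_nonneg _)
  funext x
  have := eq_zero_of_ip (hX t ht).1.CC h0 x
  exact sub_eq_zero.1 this

end

end Pool.Agent.H280R3.E6
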