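import Mathlib
import Pool.Agent.H280R3.E6.Uniq
import Pool.Agent.H280R3.E6.Glue

/-! Persistence of the decay of the coefficients as long as the gradient is bounded. -/

set_option autoImplicit false

open Set MeasureTheory Filter Topology Finset
open scoped RealInnerProductSpace ContDiff

namespace Pool.Agent.H280R3.E6

open Pool.Agent.H280R3.W

lemma eps_summable' {M ε : ℕ → ℝ} (S : Scl M ε) (i : ℕ) : Summable fun n => M n ^ i * ε n := by
  have h0 : Summable fun n => Real.sqrt (ε n) := by simpa using S.summ 0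
  have h1 : ∀ n, Real.sqrt (ε n) ≤ ∑' m, Real.sqrt (ε m) := fun n =>
    h0.le_tsum n fun _ _ => Real.sqrt_nonneg _
  refine Summable.of_nonneg_of_le (fun n => ?_) (fun n => ?_)
    ((S.summ i).mul_left (∑' m, Real.sqrt (ε m)))
  · have := S.M_pos n
    have := S.ε_pos n
    positivity
  · have h2 : ε n = Real.sqrt (ε n) * Real.sqrt (ε n) := (Real.mul_self_sqrt (S.ε_pos n).le).symm
    have h3 : 0 ≤ Real.sqrt (ε n) * M n ^ i := by
      have := S.M_pos n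
      positivity
    calc M n ^ i * ε n = Real.sqrt (ε n) * (Real.sqrt (ε n) * M n ^ i) := by
          conv_lhs => rw [h2]
          ring
      _ ≤ _ := mul_le_mul_of_nonneg_right (h1 n) h3

section

variable {φ ρ ψ : V → V} {x₁ : V} {lam : ℝ} {ν T : ℝ} {u0 : V → V} {u : ℝ → V → V}

lemma LL_nn (S : Scl (MM lam) (EE lam)) (n : ℕ) : 0 ≤ LL lam n := by
  have h := M_one S n
  by_contra hneg
  push Not at hneg
  have : MM lam n < 1 := by
    unfold MM
    rw [← Real.exp_zero]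
    exact Real.exp_lt_exp.2 (by linarith)
  linarith

lemma MM_step (S : Scl (MM lam) (EE lam)) {p : ℕ} (hp : 5 ≤ p) (n : ℕ) :
    MM lam n ^ (p + 6) ≤ MM lam (n + 1) ^ (2 * p) := by
  rw [MM_pow, MM_pow, LL_succ]
  refine Real.exp_le_exp.2 ?_
  have h := LL_nn S n
  have hp' : (5 : ℝ) ≤ p := by exact_mod_cast hp
  push_cast
  nlinarith

lemma geo_sum {M ε : ℕ → ℝ} (S : Scl M ε) {p : ℕ} (hp : 1 ≤ p) (m j : ℕ) :
    ∑ l ∈ Finset.Ico m (m + j), (M l ^ (2 * p))⁻¹ ≤ 2 * (M m ^ (2 * p))⁻¹ := by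
  have key : ∀ l, 2 * (M (l + 1) ^ (2 * p))⁻¹ ≤ (M l ^ (2 * p))⁻¹ := by
    intro l
    have h1 := S.M_pos l
    have h2 := S.M_pos (l + 1)
    have h3 : 2 * M l ^ (2 * p) ≤ M (l + 1) ^ (2 * p) := by
      have h4 : (8 * M l) ^ (2 * p) ≤ M (l + 1) ^ (2 * p) :=
        pow_le_pow_left₀ (by positivity) (M_eight S l) _
      have h5 : (2 : ℝ) ≤ 8 ^ (2 * p) := by
        calc (2 : ℝ) ≤ 8 ^ 1 := by norm_num
          _ ≤ 8 ^ (2 * p) := pow_le_pow_right₀ (by norm_num) (by omega)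
      rw [mul_pow] at h4
      have h6 : 0 < M l ^ (2 * p) := by positivity
      nlinarith
    have h4 : 0 < M l ^ (2 * p) := by positivity
    rw [← div_eq_mul_inv, div_le_iff₀ (by positivity), inv_mul_eq_div, le_div_iff₀ h4]
    linarith
  have h : ∀ j, ∑ l ∈ Finset.Ico m (m + j), (M l ^ (2 * p))⁻¹
      ≤ 2 * (M m ^ (2 * p))⁻¹ - 2 * (M (m + j) ^ (2 * p))⁻¹ := by
    intro j
    induction j with
    | zero => simp
    | succ j ih =>
      rw [← add_assoc, sum_Ico_succ_top (by omega)]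
      have := key (m + j)
      linarith
  have h1 := h j
  have h2 : 0 ≤ (M (m + j) ^ (2 * p))⁻¹ := by
    have := S.M_pos (m + j)
    positivity
  linarith

/-- decay of the tail functional -/
theorem tt_decay (P : Prof φ ρ ψ x₁) (S : Scl (MM lam) (EE lam)) {p : ℕ} (hp : 5 ≤ p)
    {v : V → V} (hv : InX (Fam φ ψ ρ (MM lam) (EE lam)) v) {C K c : ℝ}
    (hC : ∀ x, ‖v x‖ ≤ C ∧ ‖fderiv ℝ v x‖ ≤ C) (hc : |cf ψ ρ (MM lam) (EE lam) v| ≤ c)
    (hK : ∀ l, |af φ (MM lam) v l| ≤ K * (MM lam l ^ p)⁻¹) (n : ℕ) :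
    MM lam n ^ (p + 6) * tt φ ψ ρ (MM lam) (EE lam) v (n + 1) ≤
      2 * (-hf φ φ) * K ^ 2 + (-hf ρ ρ) * c ^ 2 * ∑' l, MM lam l ^ (p + 6) * EE lam l := by
  have hq : 0 < -hf φ φ := by linarith [P.q_pos]
  have hβ : 0 < -hf ρ ρ := by linarith [P.β_pos]
  set q := -hf φ φ
  set β := -hf ρ ρ
  set s := ∑' l, MM lam l ^ (p + 6) * EE lam l with hs
  have hM := S.M_pos
  have hE := S.ε_pos
  have hsn : ∀ t : Finset ℕ, ∑ m ∈ t, MM lam m ^ (p + 6) * EE lam m ≤ s := fun t =>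
    (eps_summable' S (p + 6)).sum_le_tsum t
      fun m _ => mul_nonneg (pow_nonneg (hM m).le _) (hE m).le
  have hs0 : 0 ≤ s := by simpa using hsn ∅
  have hc2 : cf ψ ρ (MM lam) (EE lam) v ^ 2 ≤ c ^ 2 := by
    rw [← sq_abs]
    exact pow_le_pow_left₀ (abs_nonneg _) hc 2
  have hsplit : ∀ j, tt φ ψ ρ (MM lam) (EE lam) v (n + 1) =
      (∑ l ∈ Finset.Ico (n + 1) (n + 1 + j),
      (q * af φ (MM lam) v l ^ 2 + cf ψ ρ (MM lam) (EE lam) v ^ 2 * EE lam l * β))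
        + tt φ ψ ρ (MM lam) (EE lam) v (n + 1 + j) := by
    intro j
    induction j with
    | zero => simp
    | succ j ih =>
      rw [← add_assoc, sum_Ico_succ_top (by omega), ih, tt_rec P S hv (n + 1 + j)]
      ring
  have hMn := hM n
  have hsum : ∀ j, (∑ l ∈ Finset.Ico (n + 1) (n + 1 + j),
      (q * af φ (MM lam) v l ^ 2 + cf ψ ρ (MM lam) (EE lam) v ^ 2 * EE lam l * β))
      ≤ (MM lam n ^ (p + 6))⁻¹ * (2 * q * K ^ 2 + β * c ^ 2 * s) := by
    intro j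
    rw [sum_add_distrib]
    have h1 : ∑ l ∈ Finset.Ico (n + 1) (n + 1 + j), q * af φ (MM lam) v l ^ 2
        ≤ (MM lam n ^ (p + 6))⁻¹ * (2 * q * K ^ 2) := by
      have e1 : ∀ l ∈ Finset.Ico (n + 1) (n + 1 + j), q * af φ (MM lam) v l ^ 2
          ≤ q * K ^ 2 * (MM lam l ^ (2 * p))⁻¹ := by
        intro l _
        have h2 : af φ (MM lam) v l ^ 2 ≤ (K * (MM lam l ^ p)⁻¹) ^ 2 := by
          rw [← sq_abs]
          exact pow_le_pow_left₀ (abs_nonneg _) (hK l) 2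
        have h3 : (K * (MM lam l ^ p)⁻¹) ^ 2 = K ^ 2 * (MM lam l ^ (2 * p))⁻¹ := by
          rw [mul_pow, inv_pow, ← pow_mul, mul_comm p 2]
        rw [h3] at h2
        calc q * af φ (MM lam) v l ^ 2 ≤ q * (K ^ 2 * (MM lam l ^ (2 * p))⁻¹) :=
              mul_le_mul_of_nonneg_left h2 hq.le
          _ = _ := by ring
      refine (sum_le_sum e1).trans ?_
      rw [← Finset.mul_sum]
      have h4 := geo_sum S (p := p) (by omega) (n + 1) j
      have h5 : (MM lam (n + 1) ^ (2 * p))⁻¹ ≤ (MM lam n ^ (p + 6))⁻¹ :=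
        inv_anti₀ (by positivity) (MM_step S hp n)
      calc q * K ^ 2 * ∑ l ∈ Finset.Ico (n + 1) (n + 1 + j), (MM lam l ^ (2 * p))⁻¹
          ≤ q * K ^ 2 * (2 * (MM lam n ^ (p + 6))⁻¹) :=
            mul_le_mul_of_nonneg_left (h4.trans (by linarith)) (by positivity)
        _ = _ := by ring
    have h2 : ∑ l ∈ Finset.Ico (n + 1) (n + 1 + j),
        cf ψ ρ (MM lam) (EE lam) v ^ 2 * EE lam l * β
        ≤ (MM lam n ^ (p + 6))⁻¹ * (β * c ^ 2 * s) := by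
      have e1 : ∀ l ∈ Finset.Ico (n + 1) (n + 1 + j),
          cf ψ ρ (MM lam) (EE lam) v ^ 2 * EE lam l * β
          ≤ (MM lam n ^ (p + 6))⁻¹ * (β * c ^ 2) * (MM lam l ^ (p + 6) * EE lam l) := by
        intro l hl
        have hnl : n ≤ l := by have := (Finset.mem_Ico.1 hl).1; omega
        have hMl := hM l
        have hεl := hE l
        have hMM : MM lam n ≤ MM lam l := M_mono S hnl
        have h11 : MM lam n ^ (p + 6) ≤ MM lam l ^ (p + 6) := pow_le_pow_left₀ hMn.le hMM _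
        have hinv : (MM lam l ^ (p + 6))⁻¹ ≤ (MM lam n ^ (p + 6))⁻¹ := inv_anti₀ (by positivity) h11
        have h2 : EE lam l = (MM lam l ^ (p + 6))⁻¹ * (MM lam l ^ (p + 6) * EE lam l) := by
          rw [← mul_assoc, inv_mul_cancel₀ (by positivity), one_mul]
        have h3 : EE lam l ≤ (MM lam n ^ (p + 6))⁻¹ * (MM lam l ^ (p + 6) * EE lam l) := by
          conv_lhs => rw [h2]
          exact mul_le_mul_of_nonneg_right hinv (by positivity)
        calc cf ψ ρ (MM lam) (EE lam) v ^ 2 * EE lam l * β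
            ≤ c ^ 2 * ((MM lam n ^ (p + 6))⁻¹ * (MM lam l ^ (p + 6) * EE lam l)) * β :=
              mul_le_mul_of_nonneg_right (mul_le_mul hc2 h3 hεl.le (sq_nonneg _)) hβ.le
          _ = _ := by ring
      refine (sum_le_sum e1).trans ?_
      rw [← Finset.mul_sum]
      calc (MM lam n ^ (p + 6))⁻¹ * (β * c ^ 2)
            * ∑ l ∈ Finset.Ico (n + 1) (n + 1 + j), MM lam l ^ (p + 6) * EE lam l
          ≤ (MM lam n ^ (p + 6))⁻¹ * (β * c ^ 2) * s :=
            mul_le_mul_of_nonneg_left (hsn _) (by positivity)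
        _ = _ := by ring
    calc _ ≤ (MM lam n ^ (p + 6))⁻¹ * (2 * q * K ^ 2) + (MM lam n ^ (p + 6))⁻¹ * (β * c ^ 2 * s) :=
          add_le_add h1 h2
      _ = _ := by ring
  have htt : tt φ ψ ρ (MM lam) (EE lam) v (n + 1)
      ≤ (MM lam n ^ (p + 6))⁻¹ * (2 * q * K ^ 2 + β * c ^ 2 * s) := by
    refine le_of_vr' S (K := ‖HH‖ * (C + C * ‖HH‖) ^ 2) (n₀ := n + 1) fun m hm => ?_
    obtain ⟨j, rfl⟩ := Nat.exists_eq_add_of_le hm
    have h5 := (abs_le.mp (tt_le P S hv hC (n + 1 + j))).2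
    rw [hsplit j]
    linarith [hsum j]
  calc MM lam n ^ (p + 6) * tt φ ψ ρ (MM lam) (EE lam) v (n + 1)
      ≤ MM lam n ^ (p + 6) * ((MM lam n ^ (p + 6))⁻¹ * (2 * q * K ^ 2 + β * c ^ 2 * s)) :=
        mul_le_mul_of_nonneg_left htt (by positivity)
    _ = _ := by rw [← mul_assoc, mul_inv_cancel₀ (by positivity), one_mul]

/-- coefficients of a field with bounded gradient -/
lemma af_base (P : Prof φ ρ ψ x₁) {M ε : ℕ → ℝ} (S : Scl M ε) {v : V → V}
    (hv : InX (Fam φ ψ ρ M ε) v) {C : ℝ} (hC : ∀ x, ‖fderiv ℝ v x‖ ≤ C) (n : ℕ) :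
    |af φ M v n| ≤ 2 * C * (M n ^ 5)⁻¹ := by
  have h1 := abs_le.1 (W_le P S hv hC n)
  have h2 := abs_le.1 (W_le P S hv hC (n + 1))
  have h3 : Wf φ M v (n + 1) = Wf φ M v n + M n ^ 5 * af φ M v n := by
    unfold Wf; rw [sum_range_succ]
  have hM : 0 < M n ^ 5 := by have := S.M_pos n; positivity
  rw [h3] at h2
  have h4 : |M n ^ 5 * af φ M v n| ≤ 2 * C := by
    rw [abs_le]
    constructor <;> linarith
  rw [abs_mul, abs_of_pos hM] at h4
  rw [← div_eq_mul_inv, le_div_iff₀ hM]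
  linarith

/-- scalar estimate with a damping term of arbitrary size -/
lemma scalar_est {y α f : ℝ → ℝ} {m A f0 y0 T Tm : ℝ} (hm : 0 ≤ m) (hA : 0 ≤ A) (hTm : T ≤ Tm)
    (hy : ∀ t ∈ Icc 0 T, HasDerivWithinAt y ((α t - m) * y t + f t) (Icc 0 T) t)
    (hα : ∀ t ∈ Icc 0 T, |α t| ≤ A) (hf : ∀ t ∈ Icc 0 T, |f t| ≤ f0) (h0 : |y 0| ≤ y0)
    {t : ℝ} (ht : t ∈ Icc 0 T) :
    y t ^ 2 ≤ (y0 ^ 2 + f0 ^ 2 * Tm) * Real.exp ((2 * A + 1) * Tm) := by
  have hT0 : 0 ≤ T := ht.1.trans ht.2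
  have hTm0 : 0 ≤ Tm := hT0.trans hTm
  have hf0 : 0 ≤ f0 := (abs_nonneg _).trans (hf t ht)
  have hd : ∀ s ∈ Icc 0 T, HasDerivWithinAt (fun s => y s ^ 2)
      (2 * y s ^ 1 * ((α s - m) * y s + f s)) (Icc 0 T) s := by
    intro s hs
    simpa using (hy s hs).fun_pow 2
  have hΓ : ∀ s ∈ Icc 0 T, HasDerivWithinAt (fun s : ℝ => (2 * A + 1) * (s - 0)) (2 * A + 1)
      (Icc 0 T) s := fun s _ => hasDerivWithinAt_linear (2 * A + 1) 0 _ s
  have hle : ∀ s ∈ Icc 0 T, 2 * y s ^ 1 * ((α s - m) * y s + f s)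
      ≤ (2 * A + 1) * y s ^ 2 + f0 ^ 2 := by
    intro s hs
    have h1 := (abs_le.1 (hα s hs)).2
    have h2 : f s ^ 2 ≤ f0 ^ 2 := by
      rw [← sq_abs]
      exact pow_le_pow_left₀ (abs_nonneg _) (hf s hs) 2
    have h3 : α s * y s ^ 2 ≤ A * y s ^ 2 := mul_le_mul_of_nonneg_right h1 (sq_nonneg _)
    have h4 : 0 ≤ m * y s ^ 2 := mul_nonneg hm (sq_nonneg _)
    nlinarith [sq_nonneg (y s - f s)]
  have hg := gronwall_upper (f := fun s => y s ^ 2) (h := f0 ^ 2) (B := (2 * A + 1) * Tm)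
    (by positivity) hd hΓ hle (fun s hs s' hs' _ => by
      have h1 : s' - s ≤ Tm := by linarith [hs.1, hs'.2]
      have h2 : (2 * A + 1) * (s' - s) ≤ (2 * A + 1) * Tm :=
        mul_le_mul_of_nonneg_left h1 (by positivity)
      linarith) ht (sq_nonneg _)
  simp only [sub_zero] at hg
  refine hg.trans (mul_le_mul_of_nonneg_right ?_ (Real.exp_pos _).le)
  have h1 : y 0 ^ 2 ≤ y0 ^ 2 := by
    rw [← sq_abs]
    exact pow_le_pow_left₀ (abs_nonneg _) h0 2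
  have h2 : f0 ^ 2 * t ≤ f0 ^ 2 * Tm := mul_le_mul_of_nonneg_left (ht.2.trans hTm) (sq_nonneg _)
  linarith

/-- one more power of decay, uniformly -/
theorem pers_step (P : Prof φ ρ ψ x₁) (S : Scl (MM lam) (EE lam)) (hν : 0 ≤ ν) {p : ℕ}
    (hp : 5 ≤ p) (C c K K0 Tm : ℝ) (hTm : 0 ≤ Tm) :
    ∃ K', 0 ≤ K' ∧ ∀ (T : ℝ) (u0 : V → V) (u : ℝ → V → V), 0 ≤ T → T ≤ Tm →
      ESol ν (Fam φ ψ ρ (MM lam) (EE lam)) u0 T u →
      (∀ t ∈ Icc 0 T, ∀ x, ‖u t x‖ ≤ C ∧ ‖fderiv ℝ (u t) x‖ ≤ C) →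
      (∀ t ∈ Icc 0 T, |cf ψ ρ (MM lam) (EE lam) (u t)| ≤ c) →
      (∀ t ∈ Icc 0 T, ∀ l, |af φ (MM lam) (u t) l| ≤ K * (MM lam l ^ p)⁻¹) →
      (∀ l, |af φ (MM lam) (u 0) l| ≤ K0 * (MM lam l ^ (p + 1))⁻¹) →
      ∀ t ∈ Icc 0 T, ∀ l, |af φ (MM lam) (u t) l| ≤ K' * (MM lam l ^ (p + 1))⁻¹ := by
  have hF := φ_pos P
  have hq : 0 < -hf φ φ := by linarith [P.q_pos]
  have hβ : 0 < -hf ρ ρ := by linarith [P.β_pos]
  set q := -hf φ φ with hqd
  set β := -hf ρ ρ with hβd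
  set F := ip φ φ with hFd
  set s := ∑' l, MM lam l ^ (p + 6) * EE lam l with hs
  have hM := S.M_pos
  have hE := S.ε_pos
  have hsn : ∀ t : Finset ℕ, ∑ m ∈ t, MM lam m ^ (p + 6) * EE lam m ≤ s := fun t =>
    (eps_summable' S (p + 6)).sum_le_tsum t
      fun m _ => mul_nonneg (pow_nonneg (hM m).le _) (hE m).le
  have hs0 : 0 ≤ s := by simpa using hsn ∅
  set K3 := (β * c ^ 2 * s + (2 * q * K ^ 2 + β * c ^ 2 * s)) / F with hK3
  have hK30 : 0 ≤ K3 := by positivity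
  set A := q * |C| / F with hA
  have hA0 : 0 ≤ A := by positivity
  refine ⟨Real.sqrt ((K0 ^ 2 + K3 ^ 2 * Tm) * Real.exp ((2 * A + 1) * Tm)), Real.sqrt_nonneg _,
    fun T u0 u hT hTTm hu hC hc hK hK0 t ht n => ?_⟩
  have hMn := hM n
  have hεn := hE n
  set f0 := K3 * (MM lam n ^ (p + 1))⁻¹ with hf0
  -- the equation
  have hy : ∀ t ∈ Icc 0 T, HasDerivWithinAt (fun s => af φ (MM lam) (u s) n)
      ((q / F * Wf φ (MM lam) (u t) n - ν * (MM lam n ^ 4 * dir φ φ) / F) * af φ (MM lam) (u t) n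
        + (MM lam n ^ 5 * (cf ψ ρ (MM lam) (EE lam) (u t) ^ 2 * EE lam n * β)
          - MM lam n ^ 5 * tt φ ψ ρ (MM lam) (EE lam) (u t) (n + 1)) / F) (Icc 0 T) t := by
    intro t ht
    refine HasDerivWithinAt.congr_deriv (a_deriv hu.toG n ht) ?_
    rw [flux_eq P S (hu.mem t ht), dir_eq P S (hu.mem t ht), ← hqd, ← hβd, ← hFd]
    field_simp
    ring
  have hα : ∀ t ∈ Icc 0 T, |q / F * Wf φ (MM lam) (u t) n| ≤ A := by
    intro t ht
    rw [abs_mul, abs_of_pos (by positivity : 0 < q / F)]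
    have h1 := (W_le P S (hu.mem t ht) (fun x => (hC t ht x).2) n).trans (le_abs_self C)
    calc q / F * |Wf φ (MM lam) (u t) n| ≤ q / F * |C| :=
          mul_le_mul_of_nonneg_left h1 (by positivity)
      _ = A := by rw [hA]; ring
  have hf : ∀ t ∈ Icc 0 T, |(MM lam n ^ 5 * (cf ψ ρ (MM lam) (EE lam) (u t) ^ 2 * EE lam n * β)
          - MM lam n ^ 5 * tt φ ψ ρ (MM lam) (EE lam) (u t) (n + 1)) / F| ≤ f0 := by
    intro t ht
    rw [abs_div, abs_of_pos hF, div_le_iff₀ hF]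
    have h1 := tt_decay P S hp (hu.mem t ht) (hC t ht) (hc t ht) (hK t ht) n
    have h2 := tt_nonneg P S (hu.mem t ht) (n + 1)
    have hc2 : cf ψ ρ (MM lam) (EE lam) (u t) ^ 2 ≤ c ^ 2 := by
      rw [← sq_abs]
      exact pow_le_pow_left₀ (abs_nonneg _) (hc t ht) 2
    have e1 : MM lam n ^ 5 * (cf ψ ρ (MM lam) (EE lam) (u t) ^ 2 * EE lam n * β)
        ≤ (MM lam n ^ (p + 1))⁻¹ * (β * c ^ 2 * s) := by
      have h3 : MM lam n ^ (p + 6) * EE lam n ≤ s := by simpa using hsn {n}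
      have h4 : MM lam n ^ 5 * (cf ψ ρ (MM lam) (EE lam) (u t) ^ 2 * EE lam n * β)
          = (MM lam n ^ (p + 1))⁻¹ * (β * cf ψ ρ (MM lam) (EE lam) (u t) ^ 2
            * (MM lam n ^ (p + 6) * EE lam n)) := by
        rw [show p + 6 = 5 + (p + 1) by ring, pow_add]
        field_simp
        ring
      rw [h4]
      refine mul_le_mul_of_nonneg_left ?_ (by positivity)
      exact mul_le_mul (mul_le_mul_of_nonneg_left hc2 hβ.le) h3 (by positivity) (by positivity)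
    have e2 : MM lam n ^ 5 * tt φ ψ ρ (MM lam) (EE lam) (u t) (n + 1)
        ≤ (MM lam n ^ (p + 1))⁻¹ * (2 * q * K ^ 2 + β * c ^ 2 * s) := by
      have h4 : MM lam n ^ 5 * tt φ ψ ρ (MM lam) (EE lam) (u t) (n + 1)
          = (MM lam n ^ (p + 1))⁻¹ * (MM lam n ^ (p + 6)
            * tt φ ψ ρ (MM lam) (EE lam) (u t) (n + 1)) := by
        rw [show p + 6 = 5 + (p + 1) by ring, pow_add]
        field_simp
        ring
      rw [h4]
      exact mul_le_mul_of_nonneg_left h1 (by positivity)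
    have e3 : 0 ≤ MM lam n ^ 5 * (cf ψ ρ (MM lam) (EE lam) (u t) ^ 2 * EE lam n * β) := by
      positivity
    have e4 : 0 ≤ MM lam n ^ 5 * tt φ ψ ρ (MM lam) (EE lam) (u t) (n + 1) :=
      mul_nonneg (by positivity) h2
    have e5 : f0 * F = (MM lam n ^ (p + 1))⁻¹ * (β * c ^ 2 * s)
        + (MM lam n ^ (p + 1))⁻¹ * (2 * q * K ^ 2 + β * c ^ 2 * s) := by
      rw [hf0, hK3]; field_simp
    rw [e5, abs_le]
    constructor <;> linarith
  have hm : 0 ≤ ν * (MM lam n ^ 4 * dir φ φ) / F := by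
    have := dir_self_nonneg φ
    positivity
  have key := scalar_est hm hA0 hTTm hy hα hf (hK0 n) ht
  have e6 : ((K0 * (MM lam n ^ (p + 1))⁻¹) ^ 2 + f0 ^ 2 * Tm) * Real.exp ((2 * A + 1) * Tm)
      = (Real.sqrt ((K0 ^ 2 + K3 ^ 2 * Tm) * Real.exp ((2 * A + 1) * Tm))
        * (MM lam n ^ (p + 1))⁻¹) ^ 2 := by
    rw [mul_pow (Real.sqrt _), Real.sq_sqrt (by positivity), hf0]
    ring
  rw [e6] at key
  exact abs_le_of_sq_le_sq key (by positivity)

/-- fields with decaying coefficients are of the form `UU` -/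
theorem eq_UU (P : Prof φ ρ ψ x₁) {M ε : ℕ → ℝ} (S : Scl M ε) {v : V → V}
    (hv : InX (Fam φ ψ ρ M ε) v) {K : ℝ} (hc : |cf ψ ρ M ε v| ≤ K)
    (hK : ∀ l, |af φ M v l| ≤ K * (M l ^ 6)⁻¹) :
    ∃ b : ℕ → ℝ, (∀ j, |b j| ≤ K) ∧ v = UU (Fam φ ψ ρ M ε) (om M) b := by
  set b : ℕ → ℝ := fun k => Nat.casesOn k (cf ψ ρ M ε v) fun n => af φ M v n * M n ^ 6 with hb
  have hbd : ∀ j, |b j| ≤ K := by
    intro j
    cases j with
    | zero => exact hc
    | succ n =>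
      show |af φ M v n * M n ^ 6| ≤ K
      have hM : 0 < M n ^ 6 := by have := S.M_pos n; positivity
      have h1 := hK n
      rw [← div_eq_mul_inv, le_div_iff₀ hM] at h1
      rwa [abs_mul, abs_of_pos hM]
  refine ⟨b, hbd, ?_⟩
  obtain ⟨θ, H⟩ := exists_maj P S
  have h0 : EqOn v (UU (Fam φ ψ ρ M ε) (om M) b) ({0}ᶜ : Set V) := by
    intro x hx
    obtain ⟨n, hn⟩ := exists_rad S (by simpa using hx)
    have hn' : 3 / 4 * rad M n < ‖x‖ := by linarith [S.rad_pos n]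
    rw [rep P S hv n x hn']
    unfold UU
    rw [tsum_eq_sum (s := range (n + 1))]
    · rw [sum_range_succ']
      rw [add_comm]
      congr 1
      · refine sum_congr rfl fun m _ => ?_
        show af φ M v m • sc (M m) φ x = (af φ M v m * M m ^ 6 * (M m ^ 6)⁻¹) • sc (M m) φ x
        have hM : M m ^ 6 ≠ 0 := by have := S.M_pos m; positivity
        rw [mul_inv_cancel_right₀ hM]
      · show cf ψ ρ M ε v • PP ψ ρ M ε x = (cf ψ ρ M ε v * 1) • PP ψ ρ M ε x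
        rw [mul_one]
    · intro k hk
      cases k with
      | zero => simp at hk
      | succ m =>
        have hm : n ≤ m := by
          simp only [Finset.mem_range, not_lt] at hk
          omega
        have h1 := S.rad_anti hm
        have h2 : Fam φ ψ ρ M ε (m + 1) x = 0 := φ_out P S m x (by linarith)
        rw [h2, smul_zero]
  have h1 := Continuous.ext_on (dense_compl_singleton (0 : V)) hv.1.cont (H.TF hbd).cont h0
  exact h1

end

end Pool.Agent.H280R3.E6
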