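import Mathlib
import Pool.Agent.H280R3.W.Static

/-! The vorticity controls the coefficients. -/

set_option autoImplicit false

open Set MeasureTheory Filter Topology Finset
open scoped RealInnerProductSpace ContDiff

namespace Pool.Agent.H280R3.E6

open Pool.Agent.H280R3.W

/-- the `j`-th component of the image of the `i`-th unit vector -/
noncomputable def en (L : V →L[ℝ] V) (i j : Fin 3) : ℝ := L (ev i) j

/-- the curl of a linear map -/
noncomputable def cu (L : V →L[ℝ] V) : V :=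
  WithLp.toLp 2 ![en L 1 2 - en L 2 1, en L 2 0 - en L 0 2, en L 0 1 - en L 1 0]

/-- the vorticity `∇ × v` -/
noncomputable def curl (v : V → V) (x : V) : V := cu (fderiv ℝ v x)

lemma curl_eq (v : V → V) (x : V) : curl v x = cu (fderiv ℝ v x) := rfl

lemma cu_HH (W a : ℝ) (L : V →L[ℝ] V) : cu (W • HH + a • L) = a • cu L := by
  ext i
  fin_cases i <;> simp [cu, en, HH_apply, ev] <;> ring

lemma cu_smul (a : ℝ) (L : V →L[ℝ] V) : cu (a • L) = a • cu L := by
  ext i
  fin_cases i <;> simp [cu, en] <;> ring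

lemma cu_neg_HH : cu (-HH) = 0 := by
  ext i
  fin_cases i <;> simp [cu, en, HH_apply, ev]

lemma cu_HH0 : cu HH = 0 := by
  ext i
  fin_cases i <;> simp [cu, en, HH_apply, ev]

lemma symm_of_cu {L : V →L[ℝ] V} (h : cu L = 0) (a b : V) : ⟪L a, b⟫ = ⟪a, L b⟫ := by
  have e : ∀ a : V, a = a 0 • ev 0 + a 1 • ev 1 + a 2 • ev 2 := by
    intro a
    ext j
    fin_cases j <;> simp [ev]
  have h0 : L (ev 1) 2 = L (ev 2) 1 := by
    have := congrArg (fun v : V => v 0) h
    simp [cu, en] at this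
    linarith
  have h1 : L (ev 2) 0 = L (ev 0) 2 := by
    have := congrArg (fun v : V => v 1) h
    simp [cu, en] at this
    linarith
  have h2 : L (ev 0) 1 = L (ev 1) 0 := by
    have := congrArg (fun v : V => v 2) h
    simp [cu, en] at this
    linarith
  have hL : ∀ a : V, L a = a 0 • L (ev 0) + a 1 • L (ev 1) + a 2 • L (ev 2) := by
    intro a
    conv_lhs => rw [e a]
    simp
  rw [hL a, hL b]
  simp only [PiLp.inner_apply, Fin.sum_univ_three, PiLp.add_apply, PiLp.smul_apply, smul_eq_mul,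
    RCLike.inner_apply, conj_trivial]
  rw [h0, h1, h2]
  ring

section

variable {φ ρ ψ : V → V} {x₁ : V} {M ε : ℕ → ℝ}

/-- the profile is not curl-free -/
theorem exists_curl (P : Prof φ ρ ψ x₁) : ∃ y, cu (fderiv ℝ φ y) ≠ 0 := by
  by_contra hcon
  push Not at hcon
  have hφ := P.φT
  have h1 := ibp (Ls_cd 1) hφ hφ.cd hφ.dv
  have h2 := ibp hφ.cd hφ (Ls_cd 1) (Ls_div 1)
  unfold tri at h1 h2
  have e1 : ∀ x, ⟪fderiv ℝ φ x (Ls 1 x), φ x⟫ = ⟪Ls 1 x, fderiv ℝ φ x (φ x)⟫ := fun x =>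
    symm_of_cu (hcon x) _ _
  have e2 : ∀ x, ⟪φ x, fderiv ℝ φ x (Ls 1 x)⟫ = ⟪Ls 1 x, fderiv ℝ φ x (φ x)⟫ := fun x => by
    rw [real_inner_comm]; exact e1 x
  have e3 : ∀ x, ⟪fderiv ℝ (Ls 1) x (φ x), φ x⟫ = ⟪φ x, HH (φ x)⟫ := fun x => by
    rw [Ls_fderiv, one_smul, real_inner_comm]
  simp only [e1, e2] at h2
  simp only [e3] at h1
  have h3 : hf φ φ = 0 := by
    unfold hf
    rw [h1]
    linarith
  linarith [P.q_pos]

/-- near a suitable point a field of the closed span is a linear strain plus one shell -/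
theorem curl_at (P : Prof φ ρ ψ x₁) (S : Scl M ε) {v : V → V} (hv : InX (Fam φ ψ ρ M ε) v)
    {y : V} (hy : cu (fderiv ℝ φ y) ≠ 0) (n : ℕ) :
    curl v ((M n ^ 2)⁻¹ • y) = (af φ M v n * M n ^ 5) • cu (fderiv ℝ φ y) := by
  have hM := S.M_pos n
  have hM2 : 0 < M n ^ 2 := by positivity
  set x : V := (M n ^ 2)⁻¹ • y with hx
  have hxy : M n ^ 2 • x = y := by rw [hx, smul_smul, mul_inv_cancel₀ hM2.ne', one_smul]
  have hr : rad M n = (M n ^ 2)⁻¹ := by unfold rad; rw [one_div]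
  have hxn : ‖x‖ = rad M n * ‖y‖ := by
    rw [hx, norm_smul, Real.norm_of_nonneg (by positivity), hr]
  have hrp := S.rad_pos n
  have hrs := S.rad_succ n
  -- location of `y`
  have y1 : 1 / 16 ≤ ‖y‖ := by
    by_contra hlt
    push Not at hlt
    apply hy
    have h1 : φ =ᶠ[𝓝 y] fun z => HH z := by
      filter_upwards [(continuous_norm.continuousAt (x := y)).eventually (gt_mem_nhds hlt)] with z hz
      exact P.φlin z hz
    rw [h1.fderiv_eq, HH.fderiv]
    exact cu_HH0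
  have y2 : 1 / 16 ≤ ‖y - x₁‖ := by
    by_contra hlt
    push Not at hlt
    apply hy
    have hc : ContinuousAt (fun z : V => ‖z - x₁‖) y := by fun_prop
    have h1 : φ =ᶠ[𝓝 y] fun z => (-HH) z + HH x₁ := by
      filter_upwards [hc.eventually (gt_mem_nhds hlt)] with z hz
      rw [P.φaff z hz, map_sub]
      simp only [_root_.neg_apply]
      abel
    rw [h1.fderiv_eq, fderiv_add_const, (-HH).fderiv]
    exact cu_neg_HH
  have y3 : ‖y‖ ≤ 3 / 4 := by
    by_contra hlt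
    push Not at hlt
    apply hy
    rw [fderiv_zero_of P.φ0 y hlt]
    ext i
    fin_cases i <;> simp [cu, en]
  have c1 : ‖x‖ < 2 * rad M n := by rw [hxn]; nlinarith
  have c2 : 3 / 4 * rad M (n + 1) < ‖x‖ := by rw [hxn]; nlinarith [S.rad_pos (n + 1)]
  have c3 : 1 / 32 < ‖M n ^ 2 • x - x₁‖ := by rw [hxy]; linarith
  have hcont : ContinuousAt (fun z : V => ‖M n ^ 2 • z - x₁‖) x := by fun_prop
  have hev : v =ᶠ[𝓝 x] fun z => Ls (Wf φ M v n) z + af φ M v n • sc (M n) φ z := by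
    filter_upwards [(continuous_norm.continuousAt (x := x)).eventually (gt_mem_nhds c1),
      (continuous_norm.continuousAt (x := x)).eventually (lt_mem_nhds c2),
      hcont.eventually (lt_mem_nhds c3)] with z h1 h2 h3
    have e0 : sc (M n) ρ z = 0 := by unfold sc; rw [P.ρ0 _ h3, smul_zero]
    have e1 := Zn_in (ψ := ψ) (ρ := ρ) (ε := ε) P S v n z h1
    rw [Zn_succ] at e1
    simp only [Pi.add_apply, Pi.smul_apply] at e1
    rw [e1, e0, Zn_out P S hv (n + 1) z h2, smul_zero, add_zero, add_zero]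
  have hφd := P.φT.diff
  have hsc : DifferentiableAt ℝ (fun z => af φ M v n • sc (M n) φ z) x :=
    ((φT P S n).diff x).const_smul (af φ M v n)
  have hd : fderiv ℝ v x = Wf φ M v n • HH + (af φ M v n * M n ^ 5) • fderiv ℝ φ y := by
    rw [hev.fderiv_eq]
    have h1 : fderiv ℝ (fun z => Ls (Wf φ M v n) z + af φ M v n • sc (M n) φ z) x
        = fderiv ℝ (Ls (Wf φ M v n)) x + fderiv ℝ (fun z => af φ M v n • sc (M n) φ z) x :=
      fderiv_add (((Ls_cd (Wf φ M v n)).differentiable (by norm_num)) x) hsc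
    have h2 : fderiv ℝ (fun z => af φ M v n • sc (M n) φ z) x
        = af φ M v n • fderiv ℝ (sc (M n) φ) x := fderiv_const_smul ((φT P S n).diff x) (af φ M v n)
    rw [h1, h2, Ls_fderiv, sc_fderiv hφd, hxy, smul_smul]
  rw [curl_eq, hd, cu_HH]

/-- a vorticity bound controls the coefficients -/
theorem af_of_curl (P : Prof φ ρ ψ x₁) (S : Scl M ε) :
    ∃ k : ℝ, 0 < k ∧ ∀ v, InX (Fam φ ψ ρ M ε) v → ∀ C, (∀ x, ‖curl v x‖ ≤ C) →
      ∀ n, |af φ M v n| ≤ k * C * (M n ^ 5)⁻¹ := by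
  obtain ⟨y, hy⟩ := exists_curl P
  have hyp : 0 < ‖cu (fderiv ℝ φ y)‖ := norm_pos_iff.2 hy
  refine ⟨‖cu (fderiv ℝ φ y)‖⁻¹, by positivity, fun v hv C hC n => ?_⟩
  have h1 := hC ((M n ^ 2)⁻¹ • y)
  have hM := S.M_pos n
  rw [curl_at P S hv hy n, norm_smul, Real.norm_eq_abs, abs_mul,
    abs_of_pos (by positivity : 0 < M n ^ 5)] at h1
  rw [← div_eq_mul_inv, le_div_iff₀ (by positivity), inv_mul_eq_div, le_div_iff₀ hyp]
  exact h1

/-- the curl is controlled by the gradient -/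
theorem curl_le (v : V → V) (x : V) : ‖curl v x‖ ≤ 6 * ‖fderiv ℝ v x‖ := by
  set L := fderiv ℝ v x with hL
  have hc : ∀ i j : Fin 3, |L (ev i) j| ≤ ‖L‖ := by
    intro i j
    have h1 : |L (ev i) j| ≤ ‖L (ev i)‖ := by
      have := PiLp.norm_apply_le (L (ev i)) j
      simpa using this
    have h2 := L.le_opNorm (ev i)
    rw [norm_ev, mul_one] at h2
    exact h1.trans h2
  have hL0 : 0 ≤ ‖L‖ := norm_nonneg _
  have h3 : ∀ i : Fin 3, |curl v x i| ≤ 2 * ‖L‖ := by
    intro i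
    have hd : ∀ a b c d : Fin 3, |L (ev a) b - L (ev c) d| ≤ 2 * ‖L‖ := fun a b c d =>
      (abs_sub _ _).trans (by linarith [hc a b, hc c d])
    fin_cases i
    · exact hd 1 2 2 1
    · exact hd 2 0 0 2
    · exact hd 0 1 1 0
  have h4 : ‖curl v x‖ ^ 2 ≤ (6 * ‖L‖) ^ 2 := by
    rw [EuclideanSpace.norm_sq_eq, Fin.sum_univ_three]
    simp only [Real.norm_eq_abs]
    have h5 : ∀ i : Fin 3, |curl v x i| ^ 2 ≤ (2 * ‖L‖) ^ 2 := fun i =>
      pow_le_pow_left₀ (abs_nonneg _) (h3 i) 2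
    nlinarith [h5 0, h5 1, h5 2]
  exact le_of_sq_le_sq h4 (by positivity)

end

end Pool.Agent.H280R3.E6
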