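import Mathlib
import Pool.Agent.H280R3.E6.Max
import Pool.Agent.H280R3.E6.Vort
import Pool.Agent.H280R3.E6.Base

/-! A vorticity bound gives uniform regularity: the vorticity of the maximal solution is
unbounded. -/

set_option autoImplicit false

open Set MeasureTheory Filter Topology Finset
open scoped RealInnerProductSpace ContDiff

namespace Pool.Agent.H280R3.E6

open Pool.Agent.H280R3.W

section

variable {φ ρ ψ : V → V} {x₁ : V} {lam : ℝ} {ν T : ℝ} {u0 : V → V} {u : ℝ → V → V}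

lemma MM_step12 (S : Scl (MM lam) (EE lam)) (n : ℕ) :
    MM lam n ^ 12 ≤ MM lam (n + 1) ^ (2 * 5) := by
  rw [MM_pow, MM_pow, LL_succ]
  refine Real.exp_le_exp.2 ?_
  have h := LL_nn S n
  push_cast
  linarith

/-- the scales grow faster than every exponential -/
lemma exp_le_MM (h1 : 1 ≤ lam) (B : ℝ) : ∃ D : ℝ, 0 < D ∧ ∀ n : ℕ,
    Real.exp (B * n) ≤ D * MM lam n ^ 2 := by
  have hM2 : ∀ n, MM lam n ^ 2 = Real.exp (LL lam n) := by
    intro n; rw [MM_pow]; congr 1; push_cast; ring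
  have h0 := tendsto_pow_const_div_const_pow_of_one_lt 1 (by norm_num : (1 : ℝ) < 6 / 5)
  have h2 : Tendsto (fun n : ℕ => |B| * ((n : ℝ) ^ 1 / (6 / 5) ^ n)) atTop (𝓝 0) := by
    simpa using h0.const_mul |B|
  obtain ⟨n₀, hn₀⟩ := eventually_atTop.1 (h2.eventually (gt_mem_nhds one_pos))
  have hLL : ∀ n, 0 ≤ LL lam n := fun n => by unfold LL; positivity
  refine ⟨Real.exp (|B| * n₀), Real.exp_pos _, fun n => ?_⟩
  rw [hM2]
  rcases lt_or_ge n n₀ with h | h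
  · have h3 : B * n ≤ |B| * n₀ := by
      have h4 : (n : ℝ) ≤ n₀ := by exact_mod_cast h.le
      calc B * n ≤ |B| * n := mul_le_mul_of_nonneg_right (le_abs_self _) (Nat.cast_nonneg _)
        _ ≤ |B| * n₀ := mul_le_mul_of_nonneg_left h4 (abs_nonneg _)
    calc Real.exp (B * n) ≤ Real.exp (|B| * n₀) := Real.exp_le_exp.2 h3
      _ ≤ Real.exp (|B| * n₀) * Real.exp (LL lam n) :=
        le_mul_of_one_le_right (Real.exp_pos _).le (Real.one_le_exp (hLL n))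
  · have h3 := hn₀ n h
    have hp : (0 : ℝ) < (6 / 5) ^ n := by positivity
    rw [pow_one, ← mul_div_assoc, div_lt_one hp] at h3
    have h4 : B * n ≤ LL lam n := by
      calc B * n ≤ |B| * n := mul_le_mul_of_nonneg_right (le_abs_self _) (Nat.cast_nonneg _)
        _ ≤ (6 / 5) ^ n := h3.le
        _ ≤ LL lam n := by unfold LL; nlinarith
    calc Real.exp (B * n) ≤ Real.exp (LL lam n) := Real.exp_le_exp.2 h4
      _ ≤ Real.exp (|B| * n₀) * Real.exp (LL lam n) :=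
        le_mul_of_one_le_left (Real.exp_pos _).le (Real.one_le_exp (by positivity))

/-- decay of the tail functional, with the full gain -/
theorem tt_decay12 (P : Prof φ ρ ψ x₁) (S : Scl (MM lam) (EE lam))
    {v : V → V} (hv : InX (Fam φ ψ ρ (MM lam) (EE lam)) v) {K c : ℝ}
    (hc : |cf ψ ρ (MM lam) (EE lam) v| ≤ c)
    (hK : ∀ l, |af φ (MM lam) v l| ≤ K * (MM lam l ^ 5)⁻¹) (n : ℕ) :
    MM lam n ^ 12 * tt φ ψ ρ (MM lam) (EE lam) v (n + 1) ≤
      2 * (-hf φ φ) * K ^ 2 + (-hf ρ ρ) * c ^ 2 * ∑' l, MM lam l ^ 12 * EE lam l := by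
  obtain ⟨C, -, hC⟩ := hv.1.bound
  have hq : 0 < -hf φ φ := by linarith [P.q_pos]
  have hβ : 0 < -hf ρ ρ := by linarith [P.β_pos]
  set q := -hf φ φ
  set β := -hf ρ ρ
  set s := ∑' l, MM lam l ^ 12 * EE lam l with hs
  have hM := S.M_pos
  have hE := S.ε_pos
  have hsn : ∀ t : Finset ℕ, ∑ m ∈ t, MM lam m ^ 12 * EE lam m ≤ s := fun t =>
    (eps_summable' S 12).sum_le_tsum t
      fun m _ => mul_nonneg (pow_nonneg (hM m).le _) (hE m).le
  have hs0 : 0 ≤ s := by simpa using hsn ∅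
  have hc2 : cf ψ ρ (MM lam) (EE lam) v ^ 2 ≤ c ^ 2 := by
    rw [← sq_abs]
    exact pow_le_pow_left₀ (abs_nonneg _) hc 2
  have hsplit : ∀ j, tt φ ψ ρ (MM lam) (EE lam) v (n + 1) =
      (∑ l ∈ Finset.Ico (n + 1) (n + 1 + j),
      (q * af φ (MM lam) v l ^ 2 + cf ψ ρ (MM lam) (EE lam) v ^ 2 * EE lam l * β))
        + tt φ ψ ρ (MM lam) (EE lam) v (n + 1 + j) := by
    intro j
    induction j with
    | zero => simp
    | succ j ih =>
      rw [← add_assoc, sum_Ico_succ_top (by omega), ih, tt_rec P S hv (n + 1 + j)]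
      ring
  have hMn := hM n
  have hsum : ∀ j, (∑ l ∈ Finset.Ico (n + 1) (n + 1 + j),
      (q * af φ (MM lam) v l ^ 2 + cf ψ ρ (MM lam) (EE lam) v ^ 2 * EE lam l * β))
      ≤ (MM lam n ^ 12)⁻¹ * (2 * q * K ^ 2 + β * c ^ 2 * s) := by
    intro j
    rw [sum_add_distrib]
    have h1 : ∑ l ∈ Finset.Ico (n + 1) (n + 1 + j), q * af φ (MM lam) v l ^ 2
        ≤ (MM lam n ^ 12)⁻¹ * (2 * q * K ^ 2) := by
      have e1 : ∀ l ∈ Finset.Ico (n + 1) (n + 1 + j), q * af φ (MM lam) v l ^ 2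
          ≤ q * K ^ 2 * (MM lam l ^ (2 * 5))⁻¹ := by
        intro l _
        have h2 : af φ (MM lam) v l ^ 2 ≤ (K * (MM lam l ^ 5)⁻¹) ^ 2 := by
          rw [← sq_abs]
          exact pow_le_pow_left₀ (abs_nonneg _) (hK l) 2
        have h3 : (K * (MM lam l ^ 5)⁻¹) ^ 2 = K ^ 2 * (MM lam l ^ (2 * 5))⁻¹ := by
          rw [mul_pow, inv_pow, ← pow_mul, mul_comm 5 2]
        rw [h3] at h2
        calc q * af φ (MM lam) v l ^ 2 ≤ q * (K ^ 2 * (MM lam l ^ (2 * 5))⁻¹) :=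
              mul_le_mul_of_nonneg_left h2 hq.le
          _ = _ := by ring
      refine (sum_le_sum e1).trans ?_
      rw [← Finset.mul_sum]
      have h4 := geo_sum S (p := 5) (by omega) (n + 1) j
      have h5 : (MM lam (n + 1) ^ (2 * 5))⁻¹ ≤ (MM lam n ^ 12)⁻¹ :=
        inv_anti₀ (by positivity) (MM_step12 S n)
      calc q * K ^ 2 * ∑ l ∈ Finset.Ico (n + 1) (n + 1 + j), (MM lam l ^ (2 * 5))⁻¹
          ≤ q * K ^ 2 * (2 * (MM lam n ^ 12)⁻¹) :=
            mul_le_mul_of_nonneg_left (h4.trans (by linarith)) (by positivity)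
        _ = _ := by ring
    have h2 : ∑ l ∈ Finset.Ico (n + 1) (n + 1 + j),
        cf ψ ρ (MM lam) (EE lam) v ^ 2 * EE lam l * β
        ≤ (MM lam n ^ 12)⁻¹ * (β * c ^ 2 * s) := by
      have e1 : ∀ l ∈ Finset.Ico (n + 1) (n + 1 + j),
          cf ψ ρ (MM lam) (EE lam) v ^ 2 * EE lam l * β
          ≤ (MM lam n ^ 12)⁻¹ * (β * c ^ 2) * (MM lam l ^ 12 * EE lam l) := by
        intro l hl
        have hnl : n ≤ l := by have := (Finset.mem_Ico.1 hl).1; omega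
        have hMl := hM l
        have hεl := hE l
        have hMM : MM lam n ≤ MM lam l := M_mono S hnl
        have h11 : MM lam n ^ 12 ≤ MM lam l ^ 12 := pow_le_pow_left₀ hMn.le hMM _
        have hinv : (MM lam l ^ 12)⁻¹ ≤ (MM lam n ^ 12)⁻¹ := inv_anti₀ (by positivity) h11
        have h2 : EE lam l = (MM lam l ^ 12)⁻¹ * (MM lam l ^ 12 * EE lam l) := by
          rw [← mul_assoc, inv_mul_cancel₀ (by positivity), one_mul]
        have h3 : EE lam l ≤ (MM lam n ^ 12)⁻¹ * (MM lam l ^ 12 * EE lam l) := by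
          conv_lhs => rw [h2]
          exact mul_le_mul_of_nonneg_right hinv (by positivity)
        calc cf ψ ρ (MM lam) (EE lam) v ^ 2 * EE lam l * β
            ≤ c ^ 2 * ((MM lam n ^ 12)⁻¹ * (MM lam l ^ 12 * EE lam l)) * β :=
              mul_le_mul_of_nonneg_right (mul_le_mul hc2 h3 hεl.le (sq_nonneg _)) hβ.le
          _ = _ := by ring
      refine (sum_le_sum e1).trans ?_
      rw [← Finset.mul_sum]
      calc (MM lam n ^ 12)⁻¹ * (β * c ^ 2)
            * ∑ l ∈ Finset.Ico (n + 1) (n + 1 + j), MM lam l ^ 12 * EE lam l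
          ≤ (MM lam n ^ 12)⁻¹ * (β * c ^ 2) * s :=
            mul_le_mul_of_nonneg_left (hsn _) (by positivity)
        _ = _ := by ring
    calc _ ≤ (MM lam n ^ 12)⁻¹ * (2 * q * K ^ 2) + (MM lam n ^ 12)⁻¹ * (β * c ^ 2 * s) :=
          add_le_add h1 h2
      _ = _ := by ring
  have htt : tt φ ψ ρ (MM lam) (EE lam) v (n + 1)
      ≤ (MM lam n ^ 12)⁻¹ * (2 * q * K ^ 2 + β * c ^ 2 * s) := by
    refine le_of_vr' S (K := ‖HH‖ * (C + C * ‖HH‖) ^ 2) (n₀ := n + 1) fun m hm => ?_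
    obtain ⟨j, rfl⟩ := Nat.exists_eq_add_of_le hm
    have h5 := (abs_le.mp (tt_le P S hv hC (n + 1 + j))).2
    rw [hsplit j]
    linarith [hsum j]
  calc MM lam n ^ 12 * tt φ ψ ρ (MM lam) (EE lam) v (n + 1)
      ≤ MM lam n ^ 12 * ((MM lam n ^ 12)⁻¹ * (2 * q * K ^ 2 + β * c ^ 2 * s)) :=
        mul_le_mul_of_nonneg_left htt (by positivity)
    _ = _ := by rw [← mul_assoc, mul_inv_cancel₀ (by positivity), one_mul]

/-- from decay of order `5` to decay of order `6`, uniformly, with logarithmic growth of the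
strain -/
theorem pers_stepV (P : Prof φ ρ ψ x₁) (S : Scl (MM lam) (EE lam)) (h1 : 1 ≤ lam) (hν : 0 ≤ ν)
    (c K K0 Tm : ℝ) (hTm : 0 ≤ Tm) :
    ∃ K', 0 ≤ K' ∧ ∀ (T : ℝ) (u0 : V → V) (u : ℝ → V → V), 0 ≤ T → T ≤ Tm →
      ESol ν (Fam φ ψ ρ (MM lam) (EE lam)) u0 T u →
      (∀ t ∈ Icc 0 T, |cf ψ ρ (MM lam) (EE lam) (u t)| ≤ c) →
      (∀ t ∈ Icc 0 T, ∀ l, |af φ (MM lam) (u t) l| ≤ K * (MM lam l ^ 5)⁻¹) →
      (∀ l, |af φ (MM lam) (u 0) l| ≤ K0 * (MM lam l ^ 7)⁻¹) →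
      ∀ t ∈ Icc 0 T, ∀ l, |af φ (MM lam) (u t) l| ≤ K' * (MM lam l ^ 6)⁻¹ := by
  have hF := φ_pos P
  have hq : 0 < -hf φ φ := by linarith [P.q_pos]
  have hβ : 0 < -hf ρ ρ := by linarith [P.β_pos]
  set q := -hf φ φ with hqd
  set β := -hf ρ ρ with hβd
  set F := ip φ φ with hFd
  set s := ∑' l, MM lam l ^ 12 * EE lam l with hs
  have hM := S.M_pos
  have hE := S.ε_pos
  have hsn : ∀ t : Finset ℕ, ∑ m ∈ t, MM lam m ^ 12 * EE lam m ≤ s := fun t =>
    (eps_summable' S 12).sum_le_tsum t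
      fun m _ => mul_nonneg (pow_nonneg (hM m).le _) (hE m).le
  have hs0 : 0 ≤ s := by simpa using hsn ∅
  set K3 := (β * c ^ 2 * s + (2 * q * K ^ 2 + β * c ^ 2 * s)) / F with hK3
  have hK30 : 0 ≤ K3 := by positivity
  set A := q * |K| / F with hA
  have hA0 : 0 ≤ A := by positivity
  obtain ⟨D, hD0, hD⟩ := exp_le_MM h1 (2 * A * Tm)
  refine ⟨Real.sqrt ((K0 ^ 2 + K3 ^ 2 * Tm) * (D * Real.exp Tm)), Real.sqrt_nonneg _,
    fun T u0 u hT hTTm hu hc hK hK0 t ht n => ?_⟩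
  have hMn := hM n
  have hεn := hE n
  set f0 := K3 * (MM lam n ^ 7)⁻¹ with hf0
  -- the equation
  have hy : ∀ t ∈ Icc 0 T, HasDerivWithinAt (fun s => af φ (MM lam) (u s) n)
      ((q / F * Wf φ (MM lam) (u t) n - ν * (MM lam n ^ 4 * dir φ φ) / F) * af φ (MM lam) (u t) n
        + (MM lam n ^ 5 * (cf ψ ρ (MM lam) (EE lam) (u t) ^ 2 * EE lam n * β)
          - MM lam n ^ 5 * tt φ ψ ρ (MM lam) (EE lam) (u t) (n + 1)) / F) (Icc 0 T) t := by
    intro t ht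
    refine HasDerivWithinAt.congr_deriv (a_deriv hu.toG n ht) ?_
    rw [flux_eq P S (hu.mem t ht), dir_eq P S (hu.mem t ht), ← hqd, ← hβd, ← hFd]
    field_simp
    ring
  have hWn : ∀ t ∈ Icc 0 T, |Wf φ (MM lam) (u t) n| ≤ |K| * n := by
    intro t ht
    unfold Wf
    refine (abs_sum_le_sum_abs _ _).trans ?_
    have h2 : ∀ m ∈ range n, |MM lam m ^ 5 * af φ (MM lam) (u t) m| ≤ |K| := by
      intro m _
      have hMm := hM m
      rw [abs_mul, abs_of_pos (by positivity : 0 < MM lam m ^ 5)]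
      calc MM lam m ^ 5 * |af φ (MM lam) (u t) m| ≤ MM lam m ^ 5 * (K * (MM lam m ^ 5)⁻¹) :=
            mul_le_mul_of_nonneg_left (hK t ht m) (by positivity)
        _ = K := by field_simp
        _ ≤ |K| := le_abs_self K
    refine (sum_le_sum h2).trans ?_
    simp [mul_comm]
  have hα : ∀ t ∈ Icc 0 T, |q / F * Wf φ (MM lam) (u t) n| ≤ A * n := by
    intro t ht
    rw [abs_mul, abs_of_pos (by positivity : 0 < q / F)]
    calc q / F * |Wf φ (MM lam) (u t) n| ≤ q / F * (|K| * n) :=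
          mul_le_mul_of_nonneg_left (hWn t ht) (by positivity)
      _ = A * n := by rw [hA]; ring
  have hf : ∀ t ∈ Icc 0 T, |(MM lam n ^ 5 * (cf ψ ρ (MM lam) (EE lam) (u t) ^ 2 * EE lam n * β)
          - MM lam n ^ 5 * tt φ ψ ρ (MM lam) (EE lam) (u t) (n + 1)) / F| ≤ f0 := by
    intro t ht
    rw [abs_div, abs_of_pos hF, div_le_iff₀ hF]
    have h1 := tt_decay12 P S (hu.mem t ht) (hc t ht) (hK t ht) n
    have h2 := tt_nonneg P S (hu.mem t ht) (n + 1)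
    have hc2 : cf ψ ρ (MM lam) (EE lam) (u t) ^ 2 ≤ c ^ 2 := by
      rw [← sq_abs]
      exact pow_le_pow_left₀ (abs_nonneg _) (hc t ht) 2
    have e1 : MM lam n ^ 5 * (cf ψ ρ (MM lam) (EE lam) (u t) ^ 2 * EE lam n * β)
        ≤ (MM lam n ^ 7)⁻¹ * (β * c ^ 2 * s) := by
      have h3 : MM lam n ^ 12 * EE lam n ≤ s := by simpa using hsn {n}
      have h4 : MM lam n ^ 5 * (cf ψ ρ (MM lam) (EE lam) (u t) ^ 2 * EE lam n * β)
          = (MM lam n ^ 7)⁻¹ * (β * cf ψ ρ (MM lam) (EE lam) (u t) ^ 2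
            * (MM lam n ^ 12 * EE lam n)) := by
        field_simp
      rw [h4]
      refine mul_le_mul_of_nonneg_left ?_ (by positivity)
      exact mul_le_mul (mul_le_mul_of_nonneg_left hc2 hβ.le) h3 (by positivity) (by positivity)
    have e2 : MM lam n ^ 5 * tt φ ψ ρ (MM lam) (EE lam) (u t) (n + 1)
        ≤ (MM lam n ^ 7)⁻¹ * (2 * q * K ^ 2 + β * c ^ 2 * s) := by
      have h4 : MM lam n ^ 5 * tt φ ψ ρ (MM lam) (EE lam) (u t) (n + 1)
          = (MM lam n ^ 7)⁻¹ * (MM lam n ^ 12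
            * tt φ ψ ρ (MM lam) (EE lam) (u t) (n + 1)) := by
        field_simp
      rw [h4]
      exact mul_le_mul_of_nonneg_left h1 (by positivity)
    have e3 : 0 ≤ MM lam n ^ 5 * (cf ψ ρ (MM lam) (EE lam) (u t) ^ 2 * EE lam n * β) := by
      positivity
    have e4 : 0 ≤ MM lam n ^ 5 * tt φ ψ ρ (MM lam) (EE lam) (u t) (n + 1) :=
      mul_nonneg (by positivity) h2
    have e5 : f0 * F = (MM lam n ^ 7)⁻¹ * (β * c ^ 2 * s)
        + (MM lam n ^ 7)⁻¹ * (2 * q * K ^ 2 + β * c ^ 2 * s) := by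
      rw [hf0, hK3]; field_simp
    rw [e5, abs_le]
    constructor <;> linarith
  have hm : 0 ≤ ν * (MM lam n ^ 4 * dir φ φ) / F := by
    have := dir_self_nonneg φ
    positivity
  have key := scalar_est hm (by positivity : 0 ≤ A * n) hTTm hy hα hf (hK0 n) ht
  have e6 : Real.exp ((2 * (A * n) + 1) * Tm) ≤ D * Real.exp Tm * MM lam n ^ 2 := by
    have : (2 * (A * n) + 1) * Tm = 2 * A * Tm * n + Tm := by ring
    rw [this, Real.exp_add]
    calc Real.exp (2 * A * Tm * n) * Real.exp Tm ≤ (D * MM lam n ^ 2) * Real.exp Tm :=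
          mul_le_mul_of_nonneg_right (hD n) (Real.exp_pos _).le
      _ = _ := by ring
  have e7 : ((K0 * (MM lam n ^ 7)⁻¹) ^ 2 + f0 ^ 2 * Tm) * (D * Real.exp Tm * MM lam n ^ 2)
      = (Real.sqrt ((K0 ^ 2 + K3 ^ 2 * Tm) * (D * Real.exp Tm))
        * (MM lam n ^ 6)⁻¹) ^ 2 := by
    have hex := Real.exp_pos Tm
    rw [mul_pow (Real.sqrt _), Real.sq_sqrt (by positivity), hf0]
    field_simp
  refine abs_le_of_sq_le_sq ?_ (by positivity)
  rw [← e7]
  refine key.trans (mul_le_mul_of_nonneg_left e6 ?_)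
  positivity

end

section

variable {φ ρ ψ : V → V} {x₁ : V} {ν T lam E : ℝ} {vd : V → V} {ks : ℕ}

/-- The maximal solution; its vorticity is unbounded. -/
theorem GoodE.maximal (G : GoodE φ ρ ψ x₁ ν T lam E vd ks) :
    ∃ (Ts : ℝ) (u : ℝ → V → V), 0 < Ts ∧ Ts ≤ T ∧
      (∀ T', 0 ≤ T' → T' < Ts →
        ESol ν (Fam φ ψ ρ (MM lam) (EE lam)) vd T' u) ∧
      (∀ t, 0 ≤ t → t < Ts → ContDiff ℝ ∞ (u t)) ∧
      (∀ C, ∃ t, 0 ≤ t ∧ t < Ts ∧ ∃ x, C < ‖curl (u t) x‖) ∧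
      (∀ T' v, 0 ≤ T' →
        ESol ν (Fam φ ψ ρ (MM lam) (EE lam)) vd T' v →
        T' < Ts ∧ ∀ t ∈ Icc 0 T', v t = u t) := by
  have P := G.P
  have S := G.S
  have hν := G.ν_nn
  obtain ⟨Ts, hTs0, hTsT, u, hsol, hsm, huniq, hblow⟩ := max_sol P S hν G.span
    (T0 := T) (fun u hu => G.no u hu.toG)
  have hsol' : ∀ T', 0 ≤ T' → T' < Ts →
      ESol ν (Fam φ ψ ρ (MM lam) (EE lam)) vd T' u := by
    intro T' h0 hT'
    exact gsol_restrict (hsol ((T' + Ts) / 2) ⟨by linarith, by linarith⟩) (by linarith)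
  refine ⟨Ts, u, hTs0, hTsT, hsol', fun t h0 ht => hsm t ⟨h0, ht⟩, ?_, ?_⟩
  · by_contra hcon
    push Not at hcon
    obtain ⟨C, hC⟩ := hcon
    obtain ⟨k, hk0, hk⟩ := af_of_curl (ε := EE lam) P S
    obtain ⟨K0, hK0⟩ := span_decay P S G.span 7
    have hPp := PP_ip_pos P S
    set c := Real.sqrt (E / ip (PP ψ ρ (MM lam) (EE lam)) (PP ψ ρ (MM lam) (EE lam))) with hc
    have hE0 : 0 ≤ E := by
      have h1 := (G.en 0 u le_rfl G.T_pos.le (hsol' 0 le_rfl hTs0).toG 0 ⟨le_rfl, le_rfl⟩).1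
      refine le_trans ?_ h1
      positivity
    have hcb : ∀ t ∈ Ico 0 Ts, |cf ψ ρ (MM lam) (EE lam) (u t)| ≤ c := by
      intro t ht
      have h1 := (G.en t u ht.1 (ht.2.le.trans hTsT) (hsol' t ht.1 ht.2).toG t ⟨ht.1, le_rfl⟩).1
      refine abs_le_of_sq_le_sq ?_ (Real.sqrt_nonneg _)
      rw [hc, Real.sq_sqrt (by positivity), le_div_iff₀ hPp]
      exact h1
    obtain ⟨K', hK'0, hK'⟩ := pers_stepV P S G.one hν c (k * C) K0 Ts hTs0.le
    have hdec : ∀ t ∈ Ico 0 Ts, ∀ l, |af φ (MM lam) (u t) l| ≤ K' * (MM lam l ^ 6)⁻¹ := by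
      intro t ht
      have hs := hsol' t ht.1 ht.2
      exact hK' t _ u ht.1 ht.2.le hs (fun s hs' => hcb s ⟨hs'.1, hs'.2.trans_lt ht.2⟩)
        (fun s hs' l => hk _ (hs.mem s hs') C (fun x => hC s hs'.1 (hs'.2.trans_lt ht.2) x) l)
        (by rw [hs.init]; exact hK0) t ⟨ht.1, le_rfl⟩
    -- hence the gradient is bounded
    obtain ⟨θ, H⟩ := exists_maj P S
    obtain ⟨t, ht, x, hx⟩ := hblow (max c K' * ∑' k, θ k)
    obtain ⟨b, hb, hub⟩ := eq_UU P S ((hsol' t ht.1 ht.2).mem t ⟨ht.1, le_rfl⟩) (K := max c K')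
      ((hcb t ht).trans (le_max_left _ _))
      (fun l => (hdec t ht l).trans (mul_le_mul_of_nonneg_right (le_max_right _ _)
        (by have := S.M_pos l; positivity)))
    rw [hub] at hx
    exact absurd (H.le1 hb x) (not_le.2 hx)
  · intro T' v h0 hv
    have h1 : T' < Ts := by
      by_contra hcon
      push Not at hcon
      obtain ⟨C, hC⟩ := hv.bdd
      obtain ⟨t, ht, x, hx⟩ := hblow C
      set T1 := (t + Ts) / 2 with hT1
      have h1 : T1 ∈ Ioo 0 Ts := ⟨by rw [hT1]; linarith [ht.1], by rw [hT1]; linarith [ht.2]⟩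
      have h2 := huniq T1 h1 v (gsol_restrict hv (h1.2.le.trans hcon)) t
        ⟨ht.1, by rw [hT1]; linarith [ht.2]⟩
      have h3 := (hC t ⟨ht.1, ht.2.le.trans hcon⟩ x).2
      rw [h2] at h3
      linarith
    refine ⟨h1, fun t ht => ?_⟩
    have h2 : (T' + Ts) / 2 ∈ Ioo 0 Ts := ⟨by linarith, by linarith⟩
    rcases h0.eq_or_lt with e | e
    · have ht0 : t = 0 := le_antisymm (by rw [e]; exact ht.2) ht.1
      rw [ht0, hv.init, (hsol' 0 le_rfl hTs0).init]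
    · exact huniq T' ⟨e, h1⟩ v hv t ht

end

end Pool.Agent.H280R3.E6
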