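import Mathlib
import Pool.Agent.H280R3.D6.Tail
import Pool.Agent.H280R3.E6.PersV

/-! The criterion of Beale, Kato and Majda for the projected equations: a solution with integrable
maximal vorticity keeps decaying coefficients. -/

set_option autoImplicit false

open Set MeasureTheory Filter Topology Finset
open scoped RealInnerProductSpace ContDiff

namespace Pool.Agent.H280R3.E6

open Pool.Agent.H280R3.W

section

variable {φ ρ ψ : V → V} {x₁ : V} {ν T lam E : ℝ} {vd : V → V} {ks : ℕ}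

/-- from the tail bound to the coefficients -/
lemma coef_of_tail (S : Scl (MM lam) (EE lam)) (h1 : 1 ≤ lam) {C : ℝ} (hC : 0 ≤ C) (b : ℝ) :
    ∃ K : ℝ, 0 ≤ K ∧ ∀ n : ℕ, 2 * etaa C lam n * Real.exp (b * (n + 1 : ℕ))
      ≤ (K * (MM lam (n + 1) ^ 6)⁻¹) ^ 2 := by
  obtain ⟨D, hD0, hD⟩ := exp_le_MM h1 b
  set s := ∑' l, MM lam l ^ 19 * EE lam l with hs
  have hM := S.M_pos
  have hE := S.ε_pos
  have hsn : ∀ t : Finset ℕ, ∑ m ∈ t, MM lam m ^ 19 * EE lam m ≤ s := fun t =>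
    (eps_summable' S 19).sum_le_tsum t
      fun m _ => mul_nonneg (pow_nonneg (hM m).le _) (hE m).le
  have hs0 : 0 ≤ s := by simpa using hsn ∅
  refine ⟨Real.sqrt (4 * C * D * s), Real.sqrt_nonneg _, fun n => ?_⟩
  have hMn := hM (n + 1)
  have hEn := hE (n + 1)
  have h2 : MM lam (n + 1) ^ 19 * EE lam (n + 1) ≤ s := by simpa using hsn {n + 1}
  have h3 := hD (n + 1)
  have h4 : Real.exp (5 / 2 * LL lam (n + 1)) = MM lam (n + 1) ^ 5 := by
    rw [MM_pow]; congr 1; push_cast; ring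
  rw [mul_pow, Real.sq_sqrt (by positivity)]
  have h5 : 2 * etaa C lam n * Real.exp (b * (n + 1 : ℕ))
      ≤ 2 * (C * (2 * (MM lam (n + 1) ^ 5 * EE lam (n + 1)))) * (D * MM lam (n + 1) ^ 2) := by
    have h6 : etaa C lam n = C * (2 * (MM lam (n + 1) ^ 5 * EE lam (n + 1))) := by
      unfold etaa
      rw [← h4]
      first | rfl | ring
    rw [h6]
    exact mul_le_mul_of_nonneg_left h3 (by positivity)
  refine h5.trans ?_
  rw [inv_pow, ← div_eq_mul_inv, le_div_iff₀ (by positivity)]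
  calc 2 * (C * (2 * (MM lam (n + 1) ^ 5 * EE lam (n + 1)))) * (D * MM lam (n + 1) ^ 2)
        * (MM lam (n + 1) ^ 6) ^ 2
      = 4 * C * D * (MM lam (n + 1) ^ 19 * EE lam (n + 1)) := by ring
    _ ≤ 4 * C * D * s := mul_le_mul_of_nonneg_left h2 (by positivity)

/-- integrable control of the coefficients gives uniform decay -/
theorem GoodE.decay (G : GoodE φ ρ ψ x₁ ν T lam E vd ks) {k Ts : ℝ} (hk : 0 < k) (hTs : Ts ≤ T)
    {g : ℝ → ℝ} (hg : IntegrableOn g (Ioo 0 Ts)) {u : ℝ → V → V}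
    (hsol : ∀ T', 0 ≤ T' → T' < Ts →
      ESol ν (Fam φ ψ ρ (MM lam) (EE lam)) vd T' u)
    (hb : ∀ t ∈ Ico 0 Ts, ∀ l, |af φ (MM lam) (u t) l| ≤ k * g t * (MM lam l ^ 5)⁻¹) :
    ∃ K, 0 ≤ K ∧ ∀ t ∈ Ico 0 Ts, ∀ l, |af φ (MM lam) (u t) l| ≤ K * (MM lam l ^ 6)⁻¹ := by
  have P := G.P
  have S := G.S
  have hF := φ_pos P
  have hq : 0 < -hf φ φ := by linarith [P.q_pos]
  have hM := S.M_pos
  obtain ⟨R, C, c0, hR, hC, hη, hη', hsh⟩ := G.sh
  set γ := -hf φ φ / ip φ φ with hγ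
  have hγ0 : 0 < γ := by positivity
  have hA : 0 ≤ dir φ φ := dir_self_nonneg φ
  have hν := G.ν_nn
  have hg0 : ∀ t ∈ Ico 0 Ts, 0 ≤ g t := by
    intro t ht
    have h1 := (abs_nonneg _).trans (hb t ht 0)
    have h2 : 0 < (MM lam 0 ^ 5)⁻¹ := by have := hM 0; positivity
    have h3 := nonneg_of_mul_nonneg_left h1 h2
    exact nonneg_of_mul_nonneg_right h3 hk
  set I := ∫ t in Ioo 0 Ts, g t with hI
  obtain ⟨K, hK0, hK⟩ := coef_of_tail S G.one hC (2 * γ * k * I)
  refine ⟨K + R * MM lam (ks + 1) ^ 6, by have := hM (ks + 1); positivity, fun t ht l => ?_⟩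
  have hs := hsh t u ht.1 (ht.2.le.trans hTs) (hsol t ht.1 ht.2).toG
  have htt : t ∈ Icc 0 t := ⟨ht.1, le_rfl⟩
  have hMl := hM l
  have hM1 := hM (ks + 1)
  rcases Nat.lt_or_ge l (ks + 2) with hl | hl
  · have h1 : |af φ (MM lam) (u t) l| ≤ R := hs.a_bdd l t htt
    have h2 : MM lam l ≤ MM lam (ks + 1) := M_mono S (by omega)
    have h3 : R ≤ R * MM lam (ks + 1) ^ 6 * (MM lam l ^ 6)⁻¹ := by
      rw [mul_assoc, ← div_eq_mul_inv]
      refine le_mul_of_one_le_right (by linarith) ?_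
      rw [le_div_iff₀ (by positivity), one_mul]
      exact pow_le_pow_left₀ hMl.le h2 6
    have h4 : 0 ≤ K * (MM lam l ^ 6)⁻¹ := by positivity
    rw [add_mul]
    linarith
  · obtain ⟨n, rfl⟩ := Nat.exists_eq_add_of_le' (show 1 ≤ l by omega)
    set h : ℝ → ℝ := fun s => 2 * γ * k * (n + 1 : ℕ) * g s with hh
    have hsub : Ioc 0 t ⊆ Ioo 0 Ts := fun s hs' => ⟨hs'.1, hs'.2.trans_lt ht.2⟩
    have hmem : ∀ s ∈ Icc 0 t, s ∈ Ico 0 Ts := fun s hs' => ⟨hs'.1, hs'.2.trans_lt ht.2⟩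
    have hc0 : 0 ≤ 2 * γ * k * ((n + 1 : ℕ) : ℝ) := by positivity
    have htail := hs.tailI (n := n) (η := etaa C lam n) (h := h) (B := 2 * γ * k * I * (n + 1 : ℕ))
      (fun m hm => by
        show af φ (MM lam) (u 0) m = 0
        rw [(hsol t ht.1 ht.2).init]
        exact G.az m (by omega))
      (fun K => hη n K) (fun K => hη' n K) ((hg.mono_set hsub).const_mul _)
      (fun s hs' => mul_nonneg hc0 (hg0 s (hmem s hs')))
      (fun s hs' => ?_) (fun m hm => ?_) ?_ htt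
    · have h1 : af φ (MM lam) (u t) (n + 1) ^ 2 ≤ (K * (MM lam (n + 1) ^ 6)⁻¹) ^ 2 := by
        have h2 := hs.rec_e n t htt
        have h3 := hs.κ_nonneg (n + 1) t htt
        have h4 := hs.e_nonneg (n + 1) t htt
        have h5 : af φ (MM lam) (u t) (n + 1) ^ 2 ≤ 2 * etaa C lam n
            * Real.exp (2 * γ * k * I * (n + 1 : ℕ)) := by
          refine le_trans ?_ htail
          rw [h2]
          linarith
        exact h5.trans (hK n)
      have h2 := abs_le_of_sq_le_sq h1 (by positivity)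
      refine h2.trans ?_
      refine mul_le_mul_of_nonneg_right ?_ (by positivity)
      have : 0 ≤ R * MM lam (ks + 1) ^ 6 := by positivity
      linarith
    · -- the strain
      have h1 : W (gg γ lam) (fun n t => af φ (MM lam) (u t) n) (n + 1) s
          ≤ γ * k * (n + 1 : ℕ) * g s := by
        unfold W
        have h2 : ∀ m ∈ range (n + 1), gg γ lam m * af φ (MM lam) (u s) m ≤ γ * k * g s := by
          intro m _
          have h3 := (le_abs_self _).trans (hb s (hmem s hs') m)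
          have hMm := hM m
          have h4 : gg γ lam m = γ * MM lam m ^ 5 := by
            unfold gg; rw [MM_pow]; congr 2; push_cast; ring
          rw [h4]
          calc γ * MM lam m ^ 5 * af φ (MM lam) (u s) m
              ≤ γ * MM lam m ^ 5 * (k * g s * (MM lam m ^ 5)⁻¹) :=
                mul_le_mul_of_nonneg_left h3 (by positivity)
            _ = γ * k * g s := by field_simp
        refine (Finset.sum_le_sum h2).trans (le_of_eq ?_)
        rw [Finset.sum_const, card_range, nsmul_eq_mul]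
        ring
      have h2 : 0 ≤ muu (ν * dir φ φ / ip φ φ) lam (n + 1) := by unfold muu; positivity
      show 2 * (_ - _) ≤ 2 * γ * k * (n + 1 : ℕ) * g s
      linarith
    · unfold muu
      refine mul_le_mul_of_nonneg_left (Real.exp_le_exp.2 ?_) (by positivity)
      have := LL_mono (by linarith [G.one] : (0 : ℝ) ≤ lam) hm
      linarith
    · show ∫ s in (0)..t, 2 * γ * k * (n + 1 : ℕ) * g s ≤ _
      rw [intervalIntegral.integral_const_mul, intervalIntegral.integral_of_le ht.1]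
      have h1 : ∫ s in Ioc 0 t, g s ≤ I := by
        refine setIntegral_mono_set hg ?_ (LE.le.eventuallyLE hsub)
        filter_upwards [self_mem_ae_restrict measurableSet_Ioo] with s hs'
        exact hg0 s ⟨hs'.1.le, hs'.2⟩
      calc 2 * γ * k * (n + 1 : ℕ) * ∫ s in Ioc 0 t, g s
          ≤ 2 * γ * k * (n + 1 : ℕ) * I := mul_le_mul_of_nonneg_left h1 hc0
        _ = _ := by ring

/-- The maximal solution; the maximum of its vorticity has no integrable majorant. -/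
theorem GoodE.maximalB (G : GoodE φ ρ ψ x₁ ν T lam E vd ks) :
    ∃ (Ts : ℝ) (u : ℝ → V → V), 0 < Ts ∧ Ts ≤ T ∧
      (∀ T', 0 ≤ T' → T' < Ts →
        ESol ν (Fam φ ψ ρ (MM lam) (EE lam)) vd T' u) ∧
      (∀ t, 0 ≤ t → t < Ts → ContDiff ℝ ∞ (u t)) ∧
      (∀ g : ℝ → ℝ, IntegrableOn g (Ioo 0 Ts) →
        ∃ t, 0 ≤ t ∧ t < Ts ∧ ∃ x, g t < ‖curl (u t) x‖) ∧
      (∀ T' v, 0 ≤ T' →
        ESol ν (Fam φ ψ ρ (MM lam) (EE lam)) vd T' v →
        T' < Ts ∧ ∀ t ∈ Icc 0 T', v t = u t) := by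
  have P := G.P
  have S := G.S
  have hν := G.ν_nn
  obtain ⟨Ts, hTs0, hTsT, u, hsol, hsm, huniq, hblow⟩ := max_sol P S hν G.span
    (T0 := T) (fun u hu => G.no u hu.toG)
  have hsol' : ∀ T', 0 ≤ T' → T' < Ts →
      ESol ν (Fam φ ψ ρ (MM lam) (EE lam)) vd T' u := by
    intro T' h0 hT'
    exact gsol_restrict (hsol ((T' + Ts) / 2) ⟨by linarith, by linarith⟩) (by linarith)
  refine ⟨Ts, u, hTs0, hTsT, hsol', fun t h0 ht => hsm t ⟨h0, ht⟩, ?_, ?_⟩
  · intro g hg
    by_contra hcon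
    push Not at hcon
    obtain ⟨k, hk0, hk⟩ := af_of_curl (ε := EE lam) P S
    have hPp := PP_ip_pos P S
    set c := Real.sqrt (E / ip (PP ψ ρ (MM lam) (EE lam)) (PP ψ ρ (MM lam) (EE lam))) with hc
    have hE0 : 0 ≤ E := by
      have h1 := (G.en 0 u le_rfl G.T_pos.le (hsol' 0 le_rfl hTs0).toG 0 ⟨le_rfl, le_rfl⟩).1
      refine le_trans ?_ h1
      positivity
    have hcb : ∀ t ∈ Ico 0 Ts, |cf ψ ρ (MM lam) (EE lam) (u t)| ≤ c := by
      intro t ht
      have h1 := (G.en t u ht.1 (ht.2.le.trans hTsT) (hsol' t ht.1 ht.2).toG t ⟨ht.1, le_rfl⟩).1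
      refine abs_le_of_sq_le_sq ?_ (Real.sqrt_nonneg _)
      rw [hc, Real.sq_sqrt (by positivity), le_div_iff₀ hPp]
      exact h1
    obtain ⟨K', hK'0, hdec⟩ := G.decay hk0 hTsT hg hsol' fun t ht l =>
      hk _ ((hsol' t ht.1 ht.2).mem t ⟨ht.1, le_rfl⟩) (g t) (fun x => hcon t ht.1 ht.2 x) l
    -- hence the gradient is bounded
    obtain ⟨θ, H⟩ := exists_maj P S
    obtain ⟨t, ht, x, hx⟩ := hblow (max c K' * ∑' k, θ k)
    obtain ⟨b, hb, hub⟩ := eq_UU P S ((hsol' t ht.1 ht.2).mem t ⟨ht.1, le_rfl⟩) (K := max c K')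
      ((hcb t ht).trans (le_max_left _ _))
      (fun l => (hdec t ht l).trans (mul_le_mul_of_nonneg_right (le_max_right _ _)
        (by have := S.M_pos l; positivity)))
    rw [hub] at hx
    exact absurd (H.le1 hb x) (not_le.2 hx)
  · intro T' v h0 hv
    have h1 : T' < Ts := by
      by_contra hcon
      push Not at hcon
      obtain ⟨C, hC⟩ := hv.bdd
      obtain ⟨t, ht, x, hx⟩ := hblow C
      set T1 := (t + Ts) / 2 with hT1
      have h1 : T1 ∈ Ioo 0 Ts := ⟨by rw [hT1]; linarith [ht.1], by rw [hT1]; linarith [ht.2]⟩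
      have h2 := huniq T1 h1 v (gsol_restrict hv (h1.2.le.trans hcon)) t
        ⟨ht.1, by rw [hT1]; linarith [ht.2]⟩
      have h3 := (hC t ⟨ht.1, ht.2.le.trans hcon⟩ x).2
      rw [h2] at h3
      linarith
    refine ⟨h1, fun t ht => ?_⟩
    have h2 : (T' + Ts) / 2 ∈ Ioo 0 Ts := ⟨by linarith, by linarith⟩
    rcases h0.eq_or_lt with e | e
    · have ht0 : t = 0 := le_antisymm (by rw [e]; exact ht.2) ht.1
      rw [ht0, hv.init, (hsol' 0 le_rfl hTs0).init]
    · exact huniq T' ⟨e, h1⟩ v hv t ht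

/-- scaling of integrable functions -/
lemma int_div {g : ℝ → ℝ} {a c : ℝ} (ha : 0 ≤ a) (hc : 0 < c) (hg : IntegrableOn g (Ioo 0 (a / c))) :
    IntegrableOn (fun t => g (t / c)) (Ioo 0 a) := by
  have h0 : 0 ≤ a / c := by positivity
  rw [← integrableOn_Ioc_iff_integrableOn_Ioo,
    ← intervalIntegrable_iff_integrableOn_Ioc_of_le h0] at hg
  rw [← integrableOn_Ioc_iff_integrableOn_Ioo,
    ← intervalIntegrable_iff_integrableOn_Ioc_of_le ha]
  have h1 := hg.comp_mul_left (c := c⁻¹)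
  have e1 : 0 / c⁻¹ = (0 : ℝ) := by simp
  have e2 : a / c / c⁻¹ = a := by field_simp
  rw [e1, e2] at h1
  refine h1.congr fun t _ => ?_
  simp only [div_eq_inv_mul]

end

end Pool.Agent.H280R3.E6
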