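import Mathlib
import Pool.Agent.H280R3.E6.PersV
import Pool.Agent.H280R3.W.Extra

/-! The energy identity, and bounds away from the origin. The proofs are those of
`Pool.Agent.H280R3.W.Extra` (helper402). -/

set_option autoImplicit false

open Set MeasureTheory Filter Topology Finset
open scoped RealInnerProductSpace ContDiff

namespace Pool.Agent.H280R3.E6

open Pool.Agent.H280R3.W

section

variable {φ ρ ψ : V → V} {x₁ : V} {ν T lam E : ℝ} {vd : V → V} {ks : ℕ}

/-- the energy identity -/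
theorem energyE (P : Prof φ ρ ψ x₁) (S : Scl (MM lam) (EE lam)) (hν : 0 ≤ ν) {T' : ℝ}
    {u₀ : V → V} {u : ℝ → V → V} (h0 : 0 ≤ T') (hT' : T' ≤ 1)
    (hu : ESol ν (Fam φ ψ ρ (MM lam) (EE lam)) u₀ T' u) {t : ℝ}
    (ht : t ∈ Icc 0 T') :
    ip (u t) (u t) + 2 * ν * ∫ s in (0)..t, dir (u s) (u s)
      = ip u₀ u₀ := by
  obtain ⟨C, hC0, hC⟩ : ∃ C, 0 ≤ C ∧ ∀ t ∈ Icc 0 T', (∀ x, ‖u t x‖ ≤ C) ∧
      (∀ x, ‖fderiv ℝ (u t) x‖ ≤ C) ∧ |cf ψ ρ (MM lam) (EE lam) (u t)| ≤ C := by
    obtain ⟨C1, cm, hC10, hC1, hcm⟩ := cf_bddE P S hu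
    exact ⟨max C1 cm, hC10.trans (le_max_left _ _), fun t ht =>
      ⟨fun x => (hC1 t ht x).1.trans (le_max_left _ _),
        fun x => (hC1 t ht x).2.trans (le_max_left _ _), (hcm t ht).trans (le_max_right _ _)⟩⟩
  have hPT := PP_TF P S
  obtain ⟨B, hB0, hB⟩ := cs_bound hPT.contd (R := sr ψ)
    (fun x hx => fderiv_zero_of (PP_zero P S) x hx)
  set K := C + C * B + C * ‖HH‖ with hKdef
  have hK0 : 0 ≤ K := by positivity
  set U : ℕ → ℝ → V → V := fun n t => un φ ψ ρ (MM lam) (EE lam) (u t) n with hU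
  have hUT : ∀ n t, TF (U n t) := fun n t => un_TF P S _ _
  have hDg : ∀ n, ∀ t ∈ Icc 0 T', ∀ x, ‖fderiv ℝ (u t - U n t) x‖ ≤ K := by
    intro n t ht x
    refine (grad_diff P S (hu.mem t ht) (hC t ht).2.1 hB n x).trans ?_
    have := mul_le_mul_of_nonneg_right (hC t ht).2.2 hB0
    linarith
  have hDz : ∀ n, ∀ t ∈ Icc 0 T', ∀ x, rad (MM lam) n < ‖x‖ → fderiv ℝ (u t - U n t) x = 0 := by
    intro n t ht x hx
    exact fderiv_zero_of (diff_small P S (hu.mem t ht) n) x (by linarith [S.rad_pos n])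
  -- comparison of the dissipation
  have hdir : ∀ n, ∀ t ∈ Icc 0 T', |dir (u t) (u t) - dir (u t) (U n t)|
      ≤ 3 * (C * K) * vr (rad (MM lam) n) := by
    intro n t ht
    have hv := (hu.mem t ht).1
    have e1 : dir (u t) (u t) = dir (u t) (U n t) + dir (u t) (u t - U n t) := by
      rw [← dir_add_right hv.contd (hUT n t) (hv.sub (hUT n t))]
      congr 1; abel
    rw [e1, add_sub_cancel_left]
    exact dir_diff_le (hC t ht).2.1 (hDg n t ht) (hDz n t ht)
  have htri : ∀ n, ∀ t ∈ Icc 0 T', |tri (u t) (U n t) (u t)| ≤ C ^ 2 * K * vr (rad (MM lam) n) := by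
    intro n t ht
    have hv := (hu.mem t ht).1
    have e1 : tri (u t) (u t) (u t) = tri (u t) (U n t) (u t) + tri (u t) (u t - U n t) (u t) := by
      rw [← tri_add_mid hv.cont (hUT n t) (hv.sub (hUT n t)) hv.cont]
      congr 1; abel
    have e2 : tri (u t) (u t) (u t) = 0 := tri_self hv hv.cd hv.dv
    have e3 : tri (u t) (U n t) (u t) = -tri (u t) (u t - U n t) (u t) := by linarith
    rw [e3, abs_neg]
    exact tri_diff_le (hC t ht).1 (hDg n t ht) (hDz n t ht)
  -- continuity of the dissipation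
  have hDn : ∀ n, ContinuousOn (fun t => dir (u t) (U n t)) (Icc 0 T') := by
    intro n
    have e1 : EqOn (fun t => dir (u t) (U n t))
        (fun t => cf ψ ρ (MM lam) (EE lam) (u t) ^ 2
            * dir (PP ψ ρ (MM lam) (EE lam)) (PP ψ ρ (MM lam) (EE lam))
          + ∑ m ∈ range n, af φ (MM lam) (u t) m ^ 2 * (MM lam m ^ 4 * dir φ φ)) (Icc 0 T') := by
      intro t ht
      simp only [hU]
      rw [← dir_un P S (hu.mem t ht).1 n, dir_pump P S (hu.mem t ht) (hC t ht).2.1 hB]
      congr 1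
      · ring
      · refine sum_congr rfl fun m _ => ?_
        rw [dir_eq P S (hu.mem t ht)]; ring
    refine ContinuousOn.congr ?_ e1
    have hc : ContinuousOn (fun t => cf ψ ρ (MM lam) (EE lam) (u t)) (Icc 0 T') :=
      fun t ht => (c_deriv hu.toG ht).continuousWithinAt
    have ha : ∀ m, ContinuousOn (fun t => af φ (MM lam) (u t) m) (Icc 0 T') :=
      fun m t ht => (a_deriv hu.toG m ht).continuousWithinAt
    refine ((hc.pow 2).mul_const _).add ?_
    exact continuousOn_finsetSum _ fun m _ => ((ha m).pow 2).mul_const _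
  have hvr := vr_rad_tendsto S
  have hDc : ContinuousOn (fun t => dir (u t) (u t)) (Icc 0 T') := by
    have hlim : TendstoUniformlyOn (fun n t => dir (u t) (U n t)) (fun t => dir (u t) (u t))
        atTop (Icc 0 T') := by
      rw [Metric.tendstoUniformlyOn_iff]
      intro η hη
      have h1 : Tendsto (fun n => 3 * (C * K) * vr (rad (MM lam) n)) atTop (𝓝 0) := by
        simpa using hvr.const_mul (3 * (C * K))
      filter_upwards [h1.eventually (gt_mem_nhds hη)] with n hn t ht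
      rw [Real.dist_eq]
      exact (hdir n t ht).trans_lt hn
    exact hlim.continuousOn (Frequently.of_forall hDn)
  -- a continuous extension of the dissipation
  set D : ℝ → ℝ := fun s => dir (u (max 0 (min T' s))) (u (max 0 (min T' s))) with hD
  have hmm : ∀ s : ℝ, max 0 (min T' s) ∈ Icc 0 T' := fun s =>
    ⟨le_max_left _ _, max_le h0 (min_le_left _ _)⟩
  have hDcont : Continuous D := by
    have h1 : Continuous fun s : ℝ => max 0 (min T' s) := by fun_prop
    exact hDc.comp_continuous h1 hmm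
  have hDeq : ∀ s ∈ Icc 0 T', D s = dir (u s) (u s) := by
    intro s hs
    simp only [hD]
    rw [min_eq_right hs.2, max_eq_right hs.1]
  have hint : ∫ s in (0)..t, dir (u s) (u s) = ∫ s in (0)..t, D s := by
    refine intervalIntegral.integral_congr fun s hs => ?_
    rw [uIcc_of_le ht.1] at hs
    exact (hDeq s ⟨hs.1, hs.2.trans ht.2⟩).symm
  have hI : ∀ t, HasDerivAt (fun t => ∫ s in (0)..t, D s) (D t) t := fun t =>
    intervalIntegral.integral_hasDerivAt_right (hDcont.intervalIntegrable _ _)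
      (hDcont.stronglyMeasurableAtFilter _ _) hDcont.continuousAt
  -- the truncated energies
  have hmain : ∀ n, |ip (u t) (u t) + 2 * ν * (∫ s in (0)..t, D s) - ip (u 0) (u 0)|
      ≤ 0 + (2 * (C ^ 2 * K + ν * (3 * (C * K))) + 2 * C ^ 2) * vr (rad (MM lam) n) := by
    intro n
    set K₂ := 2 * (C ^ 2 * K + ν * (3 * (C * K))) * vr (rad (MM lam) n) with hK₂
    have hvn := vr_nonneg (rad (MM lam) n)
    have hK₂0 : 0 ≤ K₂ := by positivity
    have hd : ∀ t ∈ Icc 0 T', HasDerivWithinAt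
        (fun s => En φ ψ ρ (MM lam) (EE lam) (u s) n + 2 * ν * ∫ r in (0)..s, D r)
        (2 * (tri (u t) (U n t) (u t) - ν * dir (u t) (U n t)) + 2 * ν * D t) (Icc 0 T') t := by
      intro t ht
      have h1 := E_deriv P S hu.toG n ht
      have h2 := ((hI t).const_mul (2 * ν)).hasDerivWithinAt (s := Icc 0 T')
      refine (h1.add h2).congr_deriv ?_
      congr 1
      have h3 := tri_un (ε := EE lam) P S (hu.mem t ht).1 n
      have h4 := dir_un (ε := EE lam) P S (hu.mem t ht).1 n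
      simp only [hU]
      rw [← h3, ← h4]
      congr 1
      have h5 : ∑ m ∈ range n, af φ (MM lam) (u t) m *
            (tri (u t) (sc (MM lam m) φ) (u t) - ν * dir (u t) (sc (MM lam m) φ))
          = ∑ m ∈ range n, af φ (MM lam) (u t) m * tri (u t) (sc (MM lam m) φ) (u t)
            - ν * ∑ m ∈ range n, af φ (MM lam) (u t) m * dir (u t) (sc (MM lam m) φ) := by
        rw [mul_sum, ← sum_sub_distrib]
        refine sum_congr rfl fun m _ => ?_
        ring
      rw [h5]; ring
    have hb : ∀ t ∈ Icc 0 T',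
        |2 * (tri (u t) (U n t) (u t) - ν * dir (u t) (U n t)) + 2 * ν * D t| ≤ K₂ := by
      intro t ht
      have h1 := htri n t ht
      have h2 := hdir n t ht
      rw [hDeq t ht]
      have h3 : 2 * (tri (u t) (U n t) (u t) - ν * dir (u t) (U n t)) + 2 * ν * dir (u t) (u t)
          = 2 * tri (u t) (U n t) (u t) + 2 * ν * (dir (u t) (u t) - dir (u t) (U n t)) := by ring
      rw [h3]
      refine (abs_add_le _ _).trans ?_
      rw [abs_mul, abs_mul (2 * ν), abs_of_nonneg (by positivity : 0 ≤ 2 * ν), abs_two]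
      have h4 := mul_le_mul_of_nonneg_left h2 (by positivity : 0 ≤ 2 * ν)
      rw [hK₂]
      linarith
    have h00 : (0 : ℝ) ∈ Icc 0 T' := ⟨le_rfl, h0⟩
    have k1 := le_of_deriv_le (s := 0) (t := t) hd
      (fun t _ => hasDerivWithinAt_linear K₂ 0 (Icc 0 T') t)
      (fun t ht => (abs_le.mp (hb t ht)).2) h00 ht ht.1
    have k2 := le_of_deriv_le (s := 0) (t := t)
      (fun t _ => hasDerivWithinAt_linear (-K₂) 0 (Icc 0 T') t) hd
      (fun t ht => (abs_le.mp (hb t ht)).1) h00 ht ht.1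
    simp only [intervalIntegral.integral_same, mul_zero, add_zero, sub_zero, sub_self] at k1 k2
    have hEn : ∀ t ∈ Icc 0 T', En φ ψ ρ (MM lam) (EE lam) (u t) n ≤ ip (u t) (u t) ∧
        ip (u t) (u t) ≤ En φ ψ ρ (MM lam) (EE lam) (u t) n + C ^ 2 * vr (rad (MM lam) n) := by
      intro t ht
      have h1 := un_le_ip (ε := EE lam) P S (hu.mem t ht).1 n
      have h2 := ip_le_un P S (hu.mem t ht) (hC t ht).1 n
      rw [ip_un P S] at h1 h2
      exact ⟨h1, h2⟩
    have h1 := hEn t ht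
    have h2 := hEn 0 h00
    have ht1 : t ≤ 1 := ht.2.trans hT'
    have h3 : K₂ * t ≤ K₂ := mul_le_of_le_one_right hK₂0 ht1
    have h4 : 0 ≤ C ^ 2 * vr (rad (MM lam) n) := by positivity
    rw [zero_add, add_mul, abs_le]
    constructor
    · nlinarith
    · nlinarith
  have hfin := le_of_vr S hmain
  have hz := sub_eq_zero.mp (abs_eq_zero.mp (le_antisymm hfin (abs_nonneg _)))
  rw [hint, hz, hu.init]


/-- away from the origin the solutions are finite combinations with bounded coefficients -/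
theorem GoodE.near (G : GoodE φ ρ ψ x₁ ν T lam E vd ks) {δ : ℝ} (hδ : 0 < δ) :
    ∃ (N : ℕ) (R : ℝ), ∀ T' u, 0 ≤ T' → T' ≤ T →
      GSol ν (Fam φ ψ ρ (MM lam) (EE lam)) vd T' u →
      ∀ t ∈ Icc 0 T', ∃ c : ℕ → ℝ, (∀ m, |c m| ≤ R) ∧ ∀ x, δ < ‖x‖ →
        u t x = ∑ m ∈ range N, c m • Fam φ ψ ρ (MM lam) (EE lam) m x := by
  have P := G.P
  have S := G.S
  have hF := φ_pos P
  have hPp := PP_ip_pos P S
  obtain ⟨n, hn⟩ := (S.rad_tendsto.eventually (gt_mem_nhds hδ)).exists
  refine ⟨n + 1, max (Real.sqrt (E / ip (PP ψ ρ (MM lam) (EE lam)) (PP ψ ρ (MM lam) (EE lam))))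
    (Real.sqrt (E / ip φ φ)), fun T' u h0 hT' hu t ht => ?_⟩
  obtain ⟨h1, h2, -⟩ := G.en T' u h0 hT' hu t ht
  have hE0 : 0 ≤ E := le_trans (by positivity) h1
  refine ⟨fun k => Nat.casesOn k (cf ψ ρ (MM lam) (EE lam) (u t))
    fun m => af φ (MM lam) (u t) m, fun m => ?_, fun x hx => ?_⟩
  · cases m with
    | zero =>
      refine le_trans ?_ (le_max_left _ _)
      refine abs_le_of_sq_le_sq ?_ (Real.sqrt_nonneg _)
      rw [Real.sq_sqrt (by positivity), le_div_iff₀ hPp]
      exact h1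
    | succ m =>
      refine le_trans ?_ (le_max_right _ _)
      refine abs_le_of_sq_le_sq ?_ (Real.sqrt_nonneg _)
      rw [Real.sq_sqrt (by positivity), le_div_iff₀ hF, mul_comm]
      exact h2 m
  · rw [rep P S (hu.mem t ht) n x (by linarith [S.rad_pos n]), sum_range_succ', add_comm]
    rfl

end

/-- finite combinations of smooth compactly supported fields, with bounded coefficients -/
theorem comb_bound {f : ℕ → V → V} (hf : ∀ m, ContDiff ℝ ∞ (f m)) (hc : ∀ m, HasCompactSupport (f m))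
    (R : ℝ) (k N : ℕ) : ∃ C, ∀ c : ℕ → ℝ, (∀ m, |c m| ≤ R) → ∀ x,
      ‖iteratedFDeriv ℝ k (fun x => ∑ m ∈ range N, c m • f m x) x‖ ≤ C := by
  have hB : ∀ m, ∃ B, 0 ≤ B ∧ ∀ x, ‖iteratedFDeriv ℝ k (f m) x‖ ≤ B := by
    intro m
    obtain ⟨B, hB⟩ := ((hf m).continuous_iteratedFDeriv (m := k)
      (by exact_mod_cast le_top)).bounded_above_of_compact_support ((hc m).iteratedFDeriv k)
    exact ⟨B, (norm_nonneg _).trans (hB 0), hB⟩
  choose B hB0 hB using hB
  refine ⟨∑ m ∈ range N, R * B m, fun c hcR x => ?_⟩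
  induction N with
  | zero =>
    have : (fun x : V => ∑ m ∈ range 0, c m • f m x) = fun _ => (0 : V) := by funext x; simp
    rw [this, iteratedFDeriv_fun_zero]
    simp
  | succ N ih =>
    have e : (fun x : V => ∑ m ∈ range (N + 1), c m • f m x)
        = (fun x : V => ∑ m ∈ range N, c m • f m x) + c N • f N := by
      funext x
      rw [sum_range_succ]
      rfl
    have h1 : ContDiff ℝ ∞ (fun x : V => ∑ m ∈ range N, c m • f m x) :=
      ContDiff.sum fun m _ => (hf m).const_smul (c m)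
    have hk : ((k : ℕ∞) : WithTop ℕ∞) ≤ ∞ := by exact_mod_cast le_top
    have h2 : ContDiff ℝ k (f N) := (hf N).of_le hk
    have h3 : ContDiff ℝ k (c N • f N) := h2.const_smul (c N)
    rw [e, iteratedFDeriv_add_apply (h1.of_le hk).contDiffAt h3.contDiffAt,
      iteratedFDeriv_const_smul_apply h2.contDiffAt, sum_range_succ]
    refine (norm_add_le _ _).trans (add_le_add ih ?_)
    rw [norm_smul, Real.norm_eq_abs]
    exact mul_le_mul (hcR N) (hB N x) (norm_nonneg _) ((abs_nonneg _).trans (hcR N))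

end Pool.Agent.H280R3.E6
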