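import Mathlib
import Pool.Agent.H280R3.W.Unif

/-! Periodic fields on `ℝ³` and reduction to the period cell. -/

set_option autoImplicit false

open Set MeasureTheory Filter Topology Finset
open scoped RealInnerProductSpace ContDiff

namespace Pool.Agent.H280R3.E6

open Pool.Agent.H280R3.W

/-- the period cell `[-π, π]³` of the torus -/
def cell : Set V := {x | ∀ i, |x i| ≤ Real.pi}

/-- the open period cell `(-π, π)³` -/
def ocell : Set V := {x | ∀ i, |x i| < Real.pi}

/-- `2π`-periodic in each of the three coordinates -/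
def Per (v : V → V) : Prop := ∀ (i : Fin 3) (x : V), v (x + (2 * Real.pi) • ev i) = v x

/-- nearest integer to `t / (2π)` -/
noncomputable def nn (t : ℝ) : ℤ := round ((2 * Real.pi)⁻¹ * t)

/-- the vector `2π N` -/
noncomputable def lat (N : Fin 3 → ℤ) : V := WithLp.toLp 2 fun i => (N i : ℝ) * (2 * Real.pi)

/-- reduction to the period cell -/
noncomputable def red (x : V) : V := x - lat fun i => nn (x i)

lemma red_apply (x : V) (i : Fin 3) : red x i = x i - (nn (x i) : ℝ) * (2 * Real.pi) := rfl

lemma abs_red (x : V) (i : Fin 3) : |red x i| = ‖((x i : ℝ) : AddCircle (2 * Real.pi))‖ := by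
  rw [AddCircle.norm_eq, red_apply, nn]

lemma cont_abs_red (i : Fin 3) : Continuous fun x : V => |red x i| := by
  simp only [abs_red]
  have h1 : Continuous fun x : V => x i := by fun_prop
  exact continuous_norm.comp ((AddCircle.continuous_mk' (2 * Real.pi)).comp h1)

/-- the largest coordinate -/
noncomputable def bx (x : V) : ℝ := ‖(fun i => |x i| : Fin 3 → ℝ)‖

lemma bx_le {x : V} {m : ℝ} (hm : 0 ≤ m) : bx x ≤ m ↔ ∀ i, |x i| ≤ m := by
  unfold bx
  rw [pi_norm_le_iff_of_nonneg hm]
  simp

lemma coord_le (x : V) (i : Fin 3) : |x i| ≤ bx x := by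
  unfold bx
  have := norm_le_pi_norm (fun i => |x i| : Fin 3 → ℝ) i
  simpa using this

lemma bx_nonneg (x : V) : 0 ≤ bx x := norm_nonneg _

lemma bx_cont : Continuous bx := by
  unfold bx
  fun_prop

lemma cont_bx_red : Continuous fun x : V => bx (red x) := by
  unfold bx
  exact continuous_norm.comp (continuous_pi fun i => cont_abs_red i)

lemma mem_cell {x : V} : x ∈ cell ↔ bx x ≤ Real.pi := (bx_le Real.pi_pos.le).symm

lemma nn_eq {t : ℝ} {N : ℤ} (h : |t - N * (2 * Real.pi)| < Real.pi) : nn t = N := by
  have hpi := Real.pi_pos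
  unfold nn
  set s := (2 * Real.pi)⁻¹ * t with hs
  have e : t - N * (2 * Real.pi) = (2 * Real.pi) * (s - N) := by
    rw [hs]; field_simp
  have h1 : |s - N| < 1 / 2 := by
    rw [e, abs_mul, abs_of_pos (by positivity)] at h
    nlinarith [abs_nonneg (s - N)]
  have h2 : |s - round s| ≤ |s - N| := round_le s N
  have h3 : |((round s : ℤ) : ℝ) - N| < 1 := by
    have : ((round s : ℤ) : ℝ) - N = (s - N) - (s - round s) := by ring
    rw [this]
    calc |(s - N) - (s - round s)| ≤ |s - N| + |s - round s| := abs_sub _ _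
      _ < 1 := by linarith
  have h4 : |round s - N| < 1 := by exact_mod_cast h3
  have h5 : round s - N = 0 := Int.abs_lt_one_iff.1 h4
  omega

/-- near a point whose reduction lies in the box, the reduction is a translation -/
lemma red_eventually {x : V} {m : ℝ} (hm : m < Real.pi) (hx : bx (red x) ≤ m) :
    ∀ᶠ y in 𝓝 x, red y = y - lat fun i => nn (x i) := by
  have h1 : ∀ i : Fin 3, ∀ᶠ y : V in 𝓝 x, |y i - (nn (x i) : ℝ) * (2 * Real.pi)| < Real.pi := by
    intro i
    have hc : Continuous fun y : V => |y i - (nn (x i) : ℝ) * (2 * Real.pi)| := by fun_prop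
    have h2 : |x i - (nn (x i) : ℝ) * (2 * Real.pi)| < Real.pi := by
      have := coord_le (red x) i
      rw [red_apply] at this
      linarith
    exact hc.continuousAt.eventually (gt_mem_nhds h2)
  have h3 := eventually_all.2 h1
  filter_upwards [h3] with y hy
  unfold red
  congr 2
  funext i
  exact nn_eq (hy i)

lemma red_out {x : V} {m : ℝ} (hx : m < bx (red x)) : ∀ᶠ y in 𝓝 x, m < bx (red y) :=
  cont_bx_red.continuousAt.eventually (lt_mem_nhds hx)

lemma red_add (x : V) (i : Fin 3) : red (x + (2 * Real.pi) • ev i) = red x := by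
  have hpi := Real.pi_pos
  ext j
  rw [red_apply, red_apply]
  have hn : (2 * Real.pi) ≠ 0 := by positivity
  by_cases hij : j = i
  · subst hij
    have e : (x + (2 * Real.pi) • ev j) j = x j + 2 * Real.pi := by
      simp [ev]
    rw [e]
    have e2 : nn (x j + 2 * Real.pi) = nn (x j) + 1 := by
      unfold nn
      rw [mul_add, inv_mul_cancel₀ hn, round_add_one]
    rw [e2]
    push_cast
    ring
  · have e : (x + (2 * Real.pi) • ev i) j = x j := by
      simp [ev, hij]
    rw [e]

/-- in the closed cell the reduction only changes signs of coordinates `±π` -/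
lemma bx_red_cell {x : V} (hx : x ∈ cell) : bx (red x) = bx x := by
  have hpi := Real.pi_pos
  unfold bx
  congr 1
  funext i
  rcases lt_or_eq_of_le (hx i) with h1 | h1
  · have e : nn (x i) = 0 := nn_eq (by simpa using h1)
    rw [red_apply, e]
    simp
  · -- |x i| = π
    rw [abs_red, AddCircle.norm_eq]
    rcases (abs_eq hpi.le).1 h1 with h2 | h2
    · rw [h2]
      have e : (2 * Real.pi)⁻¹ * Real.pi = 2⁻¹ := by field_simp
      rw [e, round_two_inv]
      push_cast
      rw [show Real.pi - 1 * (2 * Real.pi) = -Real.pi by ring, abs_neg]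
    · rw [h2]
      have e : (2 * Real.pi)⁻¹ * -Real.pi = -2⁻¹ := by field_simp
      rw [e, round_neg_two_inv]
      simp

lemma red_cell (x : V) : red x ∈ cell := by
  intro i
  rw [abs_red, AddCircle.norm_eq]
  have hpi := Real.pi_pos
  have h1 := abs_sub_round ((2 * Real.pi)⁻¹ * x i)
  have e : x i - (round ((2 * Real.pi)⁻¹ * x i) : ℝ) * (2 * Real.pi)
      = (2 * Real.pi) * ((2 * Real.pi)⁻¹ * x i - round ((2 * Real.pi)⁻¹ * x i)) := by
    field_simp
  rw [e, abs_mul, abs_of_pos (by positivity)]
  nlinarith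

lemma per_int {f : V → V} (hf : Per f) (i : Fin 3) (n : ℤ) (x : V) :
    f (x + ((n : ℝ) * (2 * Real.pi)) • ev i) = f x := by
  have h1 : Function.Periodic (fun s : ℝ => f (x + s • ev i)) (2 * Real.pi) := by
    intro s
    show f (x + (s + 2 * Real.pi) • ev i) = f (x + s • ev i)
    rw [add_smul, ← add_assoc]
    exact hf i _
  have h2 := h1.int_mul n 0
  simp only [zero_add, zero_smul, add_zero] at h2
  exact h2

lemma per_red {f : V → V} (hf : Per f) (x : V) : f (red x) = f x := by
  have e : x = red x + ((nn (x 0) : ℝ) * (2 * Real.pi)) • ev 0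
      + ((nn (x 1) : ℝ) * (2 * Real.pi)) • ev 1 + ((nn (x 2) : ℝ) * (2 * Real.pi)) • ev 2 := by
    ext j
    fin_cases j <;> simp [ev, red_apply]
  conv_rhs => rw [e]
  rw [per_int hf, per_int hf, per_int hf]

lemma cell_eq : cell = ⋂ i : Fin 3, (fun x : V => |x i|) ⁻¹' Iic Real.pi := by
  ext x; simp [cell]

lemma cell_closed : IsClosed cell := by
  rw [cell_eq]
  exact isClosed_iInter fun i => isClosed_Iic.preimage (by fun_prop)

lemma cell_meas : MeasurableSet cell := cell_closed.measurableSet

lemma cell_subset : cell ⊆ Metric.closedBall (0 : V) 10 := by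
  intro x hx
  have h4 := Real.pi_lt_four
  have h3 := Real.pi_gt_three
  have h1 : ‖x‖ ^ 2 ≤ 10 ^ 2 := by
    rw [EuclideanSpace.norm_sq_eq, Fin.sum_univ_three]
    simp only [Real.norm_eq_abs]
    have e : ∀ i : Fin 3, |x i| ^ 2 ≤ 16 := by
      intro i
      have := hx i
      nlinarith [abs_nonneg (x i)]
    linarith [e 0, e 1, e 2]
  simp only [Metric.mem_closedBall, dist_zero_right]
  exact le_of_sq_le_sq h1 (by norm_num)

lemma cell_compact : IsCompact cell :=
  (isCompact_closedBall (0 : V) 10).of_isClosed_subset cell_closed cell_subset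

lemma cell_nhds {x : V} (hx : bx x < Real.pi) : cell ∈ 𝓝 x := by
  filter_upwards [bx_cont.continuousAt.eventually (gt_mem_nhds hx)] with y hy
  exact mem_cell.2 (le_of_lt hy)

lemma cell_convex : Convex ℝ cell := by
  rw [cell_eq]
  refine convex_iInter fun i => ?_
  intro x hx y hy a b ha hb hab
  simp only [Set.mem_preimage, Set.mem_Iic] at hx hy ⊢
  have e : (a • x + b • y) i = a * x i + b * y i := by simp
  rw [e]
  refine (abs_add_le _ _).trans ?_
  rw [abs_mul, abs_mul, abs_of_nonneg ha, abs_of_nonneg hb]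
  have h1 := mul_le_mul_of_nonneg_left hx ha
  have h2 := mul_le_mul_of_nonneg_left hy hb
  calc a * |x i| + b * |y i| ≤ a * Real.pi + b * Real.pi := add_le_add h1 h2
    _ = Real.pi := by rw [← add_mul, hab, one_mul]

end Pool.Agent.H280R3.E6
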