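import Mathlib
import Pool.Agent.H280R3.E6.Fin
import Pool.Agent.H280R3.E6.Per
import Pool.Agent.H280R3.D6.Dom

/-! The Galerkin system of the Euler equations on the torus `𝕋³ = ℝ³ / (2πℤ)³`. -/

set_option autoImplicit false

open Set MeasureTheory Filter Topology Finset
open scoped RealInnerProductSpace ContDiff

namespace Pool.Agent.H280R3.E6

open Pool.Agent.H280R3.W

/-- `f` vanishes outside the box of radius `m` -/
def Out (m : ℝ) (f : V → V) : Prop := ∀ x, m < bx x → f x = 0

section

variable {m : ℝ}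

lemma fd_out {f : V → V} (hf : Out m f) {x : V} (hx : m < bx x) : fderiv ℝ f x = 0 := by
  have h1 : f =ᶠ[𝓝 x] fun _ => 0 := by
    filter_upwards [bx_cont.continuousAt.eventually (lt_mem_nhds hx)] with y hy
    exact hf y hy
  rw [h1.fderiv_eq]
  simp

/-- periodic extension -/
noncomputable def pe (f : V → V) : V → V := fun x => f (red x)

lemma pe_per (f : V → V) : Per (pe f) := fun i x => by
  show f (red _) = f (red _)
  rw [red_add]

lemma pe_in (hm : m < Real.pi) {f : V → V} {x : V} (hx : bx (red x) ≤ m) :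
    pe f =ᶠ[𝓝 x] fun y => f (y - lat fun i => nn (x i)) := by
  filter_upwards [red_eventually hm hx] with y hy
  show f (red y) = _
  rw [hy]

lemma pe_out {f : V → V} (hf : Out m f) {x : V} (hx : m < bx (red x)) :
    pe f =ᶠ[𝓝 x] fun _ => 0 := by
  filter_upwards [red_out hx] with y hy
  exact hf _ hy

lemma pe_contDiff (hm : m < Real.pi) {f : V → V} {n : WithTop ℕ∞} (hf : Out m f)
    (hs : ContDiff ℝ n f) : ContDiff ℝ n (pe f) := by
  rw [contDiff_iff_contDiffAt]
  intro x
  rcases le_or_gt (bx (red x)) m with hx | hx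
  · refine ContDiffAt.congr_of_eventuallyEq ?_ (pe_in hm hx)
    exact (hs.comp (contDiff_id.sub contDiff_const)).contDiffAt
  · exact contDiffAt_const.congr_of_eventuallyEq (pe_out hf hx)

lemma pe_fderiv (hm : m < Real.pi) {f : V → V} (hf : Out m f) (x : V) :
    fderiv ℝ (pe f) x = fderiv ℝ f (red x) := by
  rcases le_or_gt (bx (red x)) m with hx | hx
  · rw [(pe_in hm hx).fderiv_eq, fderiv_comp_sub]
    rfl
  · rw [(pe_out hf hx).fderiv_eq, fd_out hf hx]
    simp

lemma pe_iter (hm : m < Real.pi) {f : V → V} (hf : Out m f) (k : ℕ) (x : V) :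
    iteratedFDeriv ℝ k (pe f) x = iteratedFDeriv ℝ k f (red x) := by
  rcases le_or_gt (bx (red x)) m with hx | hx
  · rw [((pe_in hm hx).iteratedFDeriv ℝ k).eq_of_nhds, iteratedFDeriv_comp_sub]
    rfl
  · have h1 : f =ᶠ[𝓝 (red x)] fun _ => 0 := by
      filter_upwards [bx_cont.continuousAt.eventually (lt_mem_nhds hx)] with y hy
      exact hf y hy
    rw [((pe_out hf hx).iteratedFDeriv ℝ k).eq_of_nhds, (h1.iteratedFDeriv ℝ k).eq_of_nhds,
      iteratedFDeriv_fun_zero]
    rfl

lemma pe_div (hm : m < Real.pi) {f : V → V} (hf : Out m f) (hd : ∀ x, divg f x = 0) (x : V) :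
    divg (pe f) x = 0 := by
  unfold divg
  rw [pe_fderiv hm hf]
  exact hd (red x)

lemma pe_curl (hm : m < Real.pi) {f : V → V} (hf : Out m f) (x : V) :
    curl (pe f) x = curl f (red x) := by
  rw [curl_eq, curl_eq, pe_fderiv hm hf]

/-- in the open cell the reduction is the identity -/
lemma red_ball (hm : m < Real.pi) {x : V} (hx : bx x ≤ m) : red x = x := by
  have h : (fun i => nn (x i)) = fun _ => (0 : ℤ) := by
    funext i
    refine nn_eq ?_
    have := coord_le x i
    simp only [Int.cast_zero, zero_mul, sub_zero]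
    linarith
  unfold red
  rw [h]
  ext j
  simp [lat]

lemma ball_cell (hm : m < Real.pi) {x : V} (hx : bx x ≤ m) : x ∈ cell :=
  mem_cell.2 (hx.trans hm.le)

/-- a field vanishing outside the box agrees with its periodic extension on the cell -/
lemma pe_cell (hm : m < Real.pi) {f : V → V} (hf : Out m f) {x : V} (hx : x ∈ cell) :
    pe f x = f x := by
  rcases le_or_gt (bx x) m with h | h
  · show f (red x) = f x
    rw [red_ball hm h]
  · show f (red x) = f x
    rw [hf x h, hf (red x) (by rw [bx_red_cell hx]; exact h)]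

lemma pe_fderiv_cell (hm : m < Real.pi) {f : V → V} (hf : Out m f) {x : V} (hx : x ∈ cell) :
    fderiv ℝ (pe f) x = fderiv ℝ f x := by
  rw [pe_fderiv hm hf]
  rcases le_or_gt (bx x) m with h | h
  · rw [red_ball hm h]
  · rw [fd_out hf h, fd_out hf (by rw [bx_red_cell hx]; exact h)]

end

/-- Solutions on `[0, T]` of the Euler equations on the torus, projected to the closed span of the
fields `Ψ 0, Ψ 1, …` in `L²(𝕋³)`. -/
structure TorSol (Ψ : ℕ → V → V) (u0 : V → V) (T : ℝ) (u : ℝ → V → V) : Prop where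
  init : u 0 = u0
  per : ∀ t ∈ Icc 0 T, Per (u t)
  cd : ∀ t ∈ Icc 0 T, ContDiff ℝ 1 (u t)
  dv : ∀ t ∈ Icc 0 T, ∀ x, divg (u t) x = 0
  cl : ∀ t ∈ Icc 0 T, ∀ η > 0, ∃ w ∈ Submodule.span ℝ (range Ψ), ∫ x in cell, ‖u t x - w x‖ ^ 2 ≤ η
  bdd : ∃ C, ∀ t ∈ Icc 0 T, ∀ x, ‖u t x‖ ≤ C ∧ ‖fderiv ℝ (u t) x‖ ≤ C
  eq : ∀ k, ∀ t ∈ Icc 0 T, HasDerivWithinAt (fun s => ∫ x in cell, ⟪u s x, Ψ k x⟫)
    (∫ x in cell, ⟪u t x, fderiv ℝ (Ψ k) x (u t x)⟫) (Icc 0 T) t

section

variable {m : ℝ} {Φ : ℕ → V → V} {u0 : V → V} {T : ℝ} {u : ℝ → V → V}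

lemma span_out (hΦ : ∀ k, Out m (Φ k)) {w : V → V} (hw : w ∈ Submodule.span ℝ (range Φ))   : Out m w := by
  induction hw using Submodule.span_induction with
  | mem x h => obtain ⟨k, rfl⟩ := h; exact hΦ k
  | zero => intro x _; rfl
  | add a b _ _ ha hb => intro x hx; simp [ha x hx, hb x hx]
  | smul c a _ ha => intro x hx; simp [ha x hx]

lemma span_cont (hΦ : ∀ k, Continuous (Φ k)) {w : V → V} (hw : w ∈ Submodule.span ℝ (range Φ)) :
    Continuous w := by
  induction hw using Submodule.span_induction with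
  | mem x h => obtain ⟨k, rfl⟩ := h; exact hΦ k
  | zero => exact continuous_const
  | add a b _ _ ha hb => exact ha.add hb
  | smul c a _ ha => exact ha.const_smul c

/-- elements of the span of the periodic extensions -/
lemma span_pe {w' : V → V} (hw : w' ∈ Submodule.span ℝ (range fun k => pe (Φ k))) :
    ∃ w ∈ Submodule.span ℝ (range Φ), w' = pe w := by
  induction hw using Submodule.span_induction with
  | mem x h =>
    obtain ⟨k, rfl⟩ := h
    exact ⟨Φ k, Submodule.subset_span ⟨k, rfl⟩, rfl⟩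
  | zero => exact ⟨0, Submodule.zero_mem _, rfl⟩
  | add a b _ _ ha hb =>
    obtain ⟨w1, h1, rfl⟩ := ha
    obtain ⟨w2, h2, rfl⟩ := hb
    exact ⟨w1 + w2, Submodule.add_mem _ h1 h2, rfl⟩
  | smul c a _ ha =>
    obtain ⟨w1, h1, rfl⟩ := ha
    exact ⟨c • w1, Submodule.smul_mem _ c h1, rfl⟩

/-- a solution on the torus vanishes in the cell outside the ball -/
lemma sol_zero (hm : m < Real.pi) (hΦc : ∀ k, Continuous (Φ k)) (hΦ : ∀ k, Out m (Φ k))
    (h : TorSol (fun k => pe (Φ k)) u0 T u) {t : ℝ} (ht : t ∈ Icc 0 T) {x : V} (hx : x ∈ interior cell)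
    (h3 : m < bx x) : u t x = 0 := by
  have hcont := (h.cd t ht).continuous
  set A : Set V := interior cell ∩ {y | m < bx y} with hA
  have hAo : IsOpen A := isOpen_interior.inter (isOpen_lt continuous_const bx_cont)
  have hAm : MeasurableSet A := hAo.measurableSet
  have hAc : A ⊆ cell := fun y hy => interior_subset hy.1
  have hint : ∀ v : V → V, Continuous v → IntegrableOn (fun y => ‖v y‖ ^ 2) cell := by
    intro v hv
    have hk : IsCompact cell := cell_compact
    exact ((hv.norm.pow 2).continuousOn).integrableOn_compact hk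
  have hle : ∀ η > 0, ∫ y in A, ‖u t y‖ ^ 2 ≤ η := by
    intro η hη
    obtain ⟨w', hw', hle⟩ := h.cl t ht η hη
    obtain ⟨w, hw, rfl⟩ := span_pe hw'
    have hwo := span_out hΦ hw
    refine le_trans ?_ hle
    have e : ∫ y in A, ‖u t y‖ ^ 2 = ∫ y in A, ‖u t y - pe w y‖ ^ 2 := by
      refine setIntegral_congr_fun hAm fun y hy => ?_
      have : pe w y = 0 := by
        rw [pe_cell hm hwo (hAc hy)]
        exact hwo y hy.2
      simp [this]
    rw [e]
    have hpc : ContinuousOn (fun y => ‖u t y - pe w y‖ ^ 2) cell := by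
      have h1 : ContinuousOn (fun y => ‖u t y - w y‖ ^ 2) cell :=
        ((hcont.sub (span_cont hΦc hw)).norm.pow 2).continuousOn
      refine h1.congr fun y hy => ?_
      simp only
      rw [pe_cell hm hwo hy]
    have hk : IsCompact cell := cell_compact
    exact setIntegral_mono_set (hpc.integrableOn_compact hk)
      (Eventually.of_forall fun y => sq_nonneg _) (Eventually.of_forall hAc)
  have h0 : ∫ y in A, ‖u t y‖ ^ 2 = 0 :=
    le_antisymm (le_of_forall_pos_le_add fun η hη => by simpa using hle η hη)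
      (setIntegral_nonneg hAm fun y _ => sq_nonneg _)
  by_contra hne
  have hpos : 0 < ∫ y in A, ‖u t y‖ ^ 2 := by
    rw [setIntegral_pos_iff_support_of_nonneg_ae (Eventually.of_forall fun y => sq_nonneg _)
      ((hint _ hcont).mono_set hAc)]
    have hsub : {y | u t y ≠ 0} ∩ A ⊆ (Function.support fun y => ‖u t y‖ ^ 2) ∩ A := by
      rintro y ⟨h1, h2⟩
      refine ⟨?_, h2⟩
      simp only [Function.mem_support]
      have : 0 < ‖u t y‖ := norm_pos_iff.2 h1
      positivity
    refine lt_of_lt_of_le ?_ (measure_mono hsub)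
    have ho : IsOpen ({y | u t y ≠ 0} ∩ A) := (isOpen_ne_fun hcont continuous_const).inter hAo
    exact ho.measure_pos volume ⟨x, hne, hx, h3⟩
  linarith

/-- cut-off of a periodic solution to the ball -/
noncomputable def cutoff (m : ℝ) (v : V → V) : V → V := fun x => if bx x ≤ m then v x else 0

lemma cutoff_near (hm : m < Real.pi) {v : V → V} (hz : ∀ x ∈ interior cell, m < bx x → v x = 0) {x : V} (hx : bx x ≤ m) :
    cutoff m v =ᶠ[𝓝 x] v := by
  have h1 : interior cell ∈ 𝓝 x := interior_mem_nhds.2 (cell_nhds (lt_of_le_of_lt hx hm))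
  filter_upwards [h1] with y hy
  unfold cutoff
  split_ifs with h
  · rfl
  · push Not at h
    exact (hz y hy h).symm

lemma cutoff_far {v : V → V} {x : V} (hx : m < bx x) : cutoff m v =ᶠ[𝓝 x] fun _ => 0 := by
  have : {y : V | m < bx y} ∈ 𝓝 x := (isOpen_lt continuous_const bx_cont).mem_nhds hx
  filter_upwards [this] with y hy
  unfold cutoff
  rw [if_neg (not_le.2 hy)]

lemma cutoff_out (v : V → V) : Out m (cutoff m v) := fun x hx => by
  unfold cutoff
  rw [if_neg (not_le.2 hx)]

lemma int_cell (hm : m < Real.pi) {F G : V → ℝ} (h1 : ∀ x, m < bx x → G x = 0) (h2 : ∀ x ∈ cell, F x = G x) :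
    ∫ x in cell, F x = ∫ x, G x := by
  rw [setIntegral_congr_fun cell_meas h2]
  refine setIntegral_eq_integral_of_forall_compl_eq_zero fun x hx => h1 x ?_
  by_contra h
  exact hx (ball_cell hm (not_lt.1 h))

lemma pe_span {w : V → V} (hw : w ∈ Submodule.span ℝ (range Φ)) :
    pe w ∈ Submodule.span ℝ (range fun k => pe (Φ k)) := by
  induction hw using Submodule.span_induction with
  | mem x h =>
    obtain ⟨k, rfl⟩ := h
    exact Submodule.subset_span ⟨k, rfl⟩
  | zero => exact Submodule.zero_mem _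
  | add a b _ _ ha hb => exact Submodule.add_mem _ ha hb
  | smul c a _ ha => exact Submodule.smul_mem _ c ha

/-- From a solution on the torus to a solution on `ℝ³`. -/
theorem to_space (hm : m < Real.pi) (hΦ : ∀ k, TF (Φ k)) (hΦo : ∀ k, Out m (Φ k)) (hu0 : Out m u0) (hT : 0 ≤ T)
    (h : TorSol (fun k => pe (Φ k)) (pe u0) T u) : ESol 0 Φ u0 T (fun t => cutoff m (u t)) := by
  have hz : ∀ t ∈ Icc 0 T, ∀ x ∈ interior cell, m < bx x → u t x = 0 := fun t ht x hx h3 =>
    sol_zero hm (fun k => (hΦ k).cont) hΦo h ht hx h3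
  have hcell : ∀ (v : V → V) (k : ℕ), ∀ x ∈ cell, ⟪v x, pe (Φ k) x⟫ = ⟪cutoff m v x, Φ k x⟫ := by
    intro v k x hx
    rw [pe_cell hm (hΦo k) hx]
    unfold cutoff
    split_ifs with h3
    · rfl
    · rw [hΦo k x (not_le.1 h3)]; simp
  have hcell2 : ∀ (v : V → V) (k : ℕ), ∀ x ∈ cell,
      ⟪v x, fderiv ℝ (pe (Φ k)) x (v x)⟫ = ⟪cutoff m v x, fderiv ℝ (Φ k) x (cutoff m v x)⟫ := by
    intro v k x hx
    rw [pe_fderiv_cell hm (hΦo k) hx]
    unfold cutoff
    split_ifs with h3
    · rfl
    · rw [fd_out (hΦo k) (not_le.1 h3)]; simp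
  obtain ⟨C, hC⟩ := h.bdd
  have hC0 : 0 ≤ C := (norm_nonneg _).trans (hC 0 ⟨le_rfl, hT⟩ 0).1
  have hfd : ∀ t ∈ Icc 0 T, ∀ x, (bx x ≤ m → fderiv ℝ (cutoff m (u t)) x = fderiv ℝ (u t) x) ∧
      (m < bx x → fderiv ℝ (cutoff m (u t)) x = 0) := by
    intro t ht x
    refine ⟨fun hx => (cutoff_near hm (hz t ht) hx).fderiv_eq, fun hx => ?_⟩
    rw [(cutoff_far (v := u t) hx).fderiv_eq]
    simp
  refine ⟨?_, ?_, ?_, ?_⟩
  · show cutoff m (u 0) = u0
    rw [h.init]
    funext x
    unfold cutoff
    split_ifs with h3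
    · show u0 (red x) = u0 x
      rw [red_ball hm h3]
    · exact (hu0 x (not_le.1 h3)).symm
  · intro t ht
    refine ⟨⟨?_, ?_, ?_⟩, ?_⟩
    · rw [contDiff_iff_contDiffAt]
      intro x
      rcases le_or_gt (bx x) m with hx | hx
      · exact (h.cd t ht).contDiffAt.congr_of_eventuallyEq (cutoff_near hm (hz t ht) hx)
      · exact contDiffAt_const.congr_of_eventuallyEq (cutoff_far hx)
    · exact HasCompactSupport.intro cell_compact fun x hx =>
        cutoff_out _ x (by
          rw [mem_cell, not_le] at hx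
          linarith)
    · intro x
      unfold divg
      rcases le_or_gt (bx x) m with hx | hx
      · rw [(hfd t ht x).1 hx]
        exact h.dv t ht x
      · rw [(hfd t ht x).2 hx]
        simp
    · intro η hη
      obtain ⟨w', hw', hle⟩ := h.cl t ht η hη
      obtain ⟨w, hw, rfl⟩ := span_pe hw'
      have hwo := span_out hΦo hw
      have hwc := span_cont (fun k => (hΦ k).cont) hw
      refine ⟨w, hw, le_trans ?_ hle⟩
      rw [← int_cell hm (F := fun x => ‖cutoff m (u t) x - w x‖ ^ 2)
        (G := fun x => ‖cutoff m (u t) x - w x‖ ^ 2) (fun x hx => by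
          simp [cutoff_out (u t) x hx, hwo x hx]) (fun x _ => rfl)]
      have hk : IsCompact cell := cell_compact
      have hcont := (h.cd t ht).continuous
      have hpt : ∀ x ∈ cell, ‖cutoff m (u t) x - w x‖ ^ 2 ≤ ‖u t x - pe w x‖ ^ 2 := by
        intro x hx
        rw [pe_cell hm hwo hx]
        unfold cutoff
        split_ifs with h3
        · exact le_rfl
        · rw [hwo x (not_le.1 h3)]
          simp
      have hco : Continuous (cutoff m (u t)) := by
        rw [continuous_iff_continuousAt]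
        intro x
        rcases le_or_gt (bx x) m with hx | hx
        · exact hcont.continuousAt.congr (cutoff_near hm (hz t ht) hx).symm
        · exact continuousAt_const.congr (cutoff_far hx).symm
      have hi1 : IntegrableOn (fun x => ‖cutoff m (u t) x - w x‖ ^ 2) cell :=
        (((hco.sub hwc).norm.pow 2).continuousOn).integrableOn_compact hk
      have hi2 : IntegrableOn (fun x => ‖u t x - pe w x‖ ^ 2) cell := by
        have h1 : ContinuousOn (fun y => ‖u t y - w y‖ ^ 2) cell :=
          ((hcont.sub hwc).norm.pow 2).continuousOn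
        refine (h1.congr fun y hy => ?_).integrableOn_compact hk
        rw [pe_cell hm hwo hy]
      exact setIntegral_mono_on hi1 hi2 cell_meas hpt
  · refine ⟨C, fun t ht x => ⟨?_, ?_⟩⟩
    · show ‖cutoff m (u t) x‖ ≤ C
      unfold cutoff
      split_ifs
      · exact (hC t ht x).1
      · simpa using hC0
    · show ‖fderiv ℝ (cutoff m (u t)) x‖ ≤ C
      rcases le_or_gt (bx x) m with hx | hx
      · rw [(hfd t ht x).1 hx]
        exact (hC t ht x).2
      · rw [(hfd t ht x).2 hx]
        simpa using hC0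
  · intro k t ht
    have h1 := h.eq k t ht
    have e1 : ∀ s, ∫ x in cell, ⟪u s x, pe (Φ k) x⟫ = ip (cutoff m (u s)) (Φ k) := by
      intro s
      exact int_cell hm (fun x hx => by simp [cutoff_out (u s) x hx]) (hcell (u s) k)
    have e2 : ∫ x in cell, ⟪u t x, fderiv ℝ (pe (Φ k)) x (u t x)⟫
        = tri (cutoff m (u t)) (Φ k) (cutoff m (u t)) :=
      int_cell hm (fun x hx => by simp [cutoff_out (u t) x hx]) (hcell2 (u t) k)
    simp only [e1, e2] at h1
    simpa using h1

end


end Pool.Agent.H280R3.E6
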