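import Mathlib
import Pool.Agent.H280R3.E6.TorM

/-! Short form of the statement on the torus. -/

set_option autoImplicit false

open Set MeasureTheory Filter Topology Finset
open scoped RealInnerProductSpace ContDiff

namespace Pool.Agent.H280R3.E6

open Pool.Agent.H280R3.W

/-- a smooth divergence-free field with compact support in the open cell -/
structure Bg (w : V → V) : Prop where
  smooth : ContDiff ℝ ∞ w
  comp : HasCompactSupport w
  supp : tsupport w ⊆ ocell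
  dv : ∀ x, divg w x = 0

/-- the squared distance in `L²(𝕋³)` -/
noncomputable def dist2 (f g : V → V) : ℝ := ∫ x in cell, ‖f x - g x‖ ^ 2

/-- on the cell and outside the ball of radius `ε` about `p`, the field `Ψ 0` is `w` and the other
`Ψ k` vanish; in `L²`, `Ψ 0` is close to `w` -/
structure Near (Ψ : ℕ → V → V) (w : V → V) (p : V) (ε : ℝ) : Prop where
  eq : ∀ x ∈ cell, ε ≤ ‖x - p‖ → Ψ 0 x = w x ∧ ∀ n, Ψ (n + 1) x = 0
  close : dist2 (Ψ 0) w < ε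

/-- `u` is the maximal solution from `u₀`, on `[0, Ts)`, and blows up at `p` -/
structure Sing (Ψ : ℕ → V → V) (u₀ : V → V) (p : V) (Ts : ℝ) (u : ℝ → V → V) : Prop where
  max : TorMax Ψ u₀ Ts u
  blow : TorBlow p Ts u

theorem tor_short (w : V → V) (hw : Bg w) (p : V) (hpΩ : p ∈ ocell) (hp : p ∉ tsupport w)
    (ε : ℝ) (hε : 0 < ε) :
    ∃ Ψ : ℕ → V → V, TorAdm Ψ ∧ Near Ψ w p ε ∧
      (∀ v ∈ Submodule.span ℝ (range Ψ), ∀ η > 0,
        ∃ u₀ ∈ Submodule.span ℝ (range Ψ), dist2 u₀ v < η ∧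
          (∫ x in cell, ⟪v x, Ψ 0 x⟫ ≠ 0 → ∀ x ∈ cell, η ≤ ‖x - p‖ → u₀ x = v x) ∧
          ∃ (Ts : ℝ) (u : ℝ → V → V), 0 < Ts ∧ Ts < η ∧ Sing Ψ u₀ p Ts u) ∧
      ∀ T > 0, ∃ v₀ ∈ Submodule.span ℝ (range Ψ), ∃ v : ℝ → V → V, Sing Ψ v₀ p T v := by
  obtain ⟨Ψ, h1, h2, h3, h4⟩ :=
    tor_final w hw.smooth hw.comp hw.supp hw.dv p hpΩ hp ε hε
  refine ⟨Ψ, h1, ⟨h2, h3⟩, fun v hv η hη => ?_, fun T hT => ?_⟩
  · obtain ⟨u₀, k1, k2, k3, Ts, u, k4, k5, k6, k7⟩ := h4 v hv η hη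
    exact ⟨u₀, k1, k2, k3, Ts, u, k4, k5, k6, k7⟩
  · obtain ⟨u₀, k1, -, -, Ts, u, h9, -, hM, hB⟩ := h4 0 (Submodule.zero_mem _) 1 one_pos
    have hc : 0 < Ts / T := by positivity
    have k1' := hM.scale hc
    have k2 := hB.scale h9.le hc hM.smooth
    have e1 : Ts / (Ts / T) = T := by field_simp
    rw [e1] at k1' k2
    exact ⟨_, Submodule.smul_mem _ _ k1, _, k1', k2⟩

end Pool.Agent.H280R3.E6
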